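import Pool.Agent.TD.T.Basic

/-!
# Stages 2 + 3 (MP_90358a_ag, PAPER2.md): common definitions

`gn` Gauss norm of a polynomial in several variables, `IsGp z ρ` the point `z` of
`M(K[X_σ])` is the Gauss point with radii `ρ`, `GaussAt a ρ z` the family `a` of elements of `A` is
Gauss at `z`, `fam a` the restriction `M(A) → M(K[X_σ])`, `Zmp φ z` the algebra is quasi-finite at
`z` (in the form of Zariski's main theorem), `Dens φ z` the completed residue fields of `z` and of
its image are equal.
-/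

open scoped Topology NNReal

namespace Pool.Agent.TD

section
variable {K A R σ : Type} [NormedField K] [CommRing A] [Algebra K A] [CommRing R] [Algebra K R]

/-- Gauss norm with radii `ρ`. -/
noncomputable def gn (ρ : σ → ℝ≥0) (P : MvPolynomial σ K) : ℝ≥0 :=
  P.support.sup fun u => ‖P.coeff u‖₊ * u.prod fun i n => ρ i ^ n

/-- `z` is the Gauss point with radii `ρ`. -/
def IsGp (ρ : σ → ℝ≥0) (z : Ber K (MvPolynomial σ K)) : Prop := ∀ P, z.v P = gn ρ P

/-- The family `a` is Gauss at `z`, with radii `ρ`. -/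
def GaussAt (a : σ → A) (ρ : σ → ℝ≥0) (z : Ber K A) : Prop :=
  ∀ P : MvPolynomial σ K, z.v (MvPolynomial.aeval a P) = gn ρ P

/-- The map `M(A) → M(K[X_σ])` given by the family `a` of elements of `A`. -/
noncomputable def fam (a : σ → A) (z : Ber K A) : Ber K (MvPolynomial σ K) :=
  Ber.res (MvPolynomial.aeval a) z

theorem fam_v (a : σ → A) (z : Ber K A) (P : MvPolynomial σ K) :
    (fam a z).v P = z.v (MvPolynomial.aeval a P) := rfl

theorem gaussAt_iff (a : σ → A) (ρ : σ → ℝ≥0) (z : Ber K A) :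
    GaussAt a ρ z ↔ IsGp ρ (fam a z) := Iff.rfl

/-- The `R`-algebra `A` is quasi-finite at `z`, in the form given by Zariski's main theorem. -/
def Zmp (φ : R →ₐ[K] A) (z : Ber K A) : Prop :=
  ∃ g : A, z.v g ≠ 0 ∧ φ.toRingHom.IsIntegralElem g ∧
    ∀ x : A, ∃ m : ℕ, φ.toRingHom.IsIntegralElem (g ^ m * x)

/-- Every element of `A` is a limit at `z` of fractions of `R`: the completed residue fields of `z`
and of its image in `M(R)` are equal. -/
def Dens (φ : R →ₐ[K] A) (z : Ber K A) : Prop :=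
  ∀ (a : A) (ε : ℝ), 0 < ε → ∃ b c : R, z.v (φ c) ≠ 0 ∧ z.v (φ c * a - φ b) < ε * z.v (φ c)

/-- The kernel of a multiplicative seminorm. -/
def Ber.ker (z : Ber K A) : Ideal A where
  carrier := {a | z.v a = 0}
  zero_mem' := z.zero
  add_mem' := by
    intro a b ha hb
    have h := z.add a b
    rw [show z.v a = 0 from ha, show z.v b = 0 from hb, max_self] at h
    exact le_antisymm h (z.nonneg _)
  smul_mem' := by
    intro c a ha
    show z.v (c * a) = 0
    rw [z.mul, show z.v a = 0 from ha, mul_zero]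

theorem Ber.mem_ker (z : Ber K A) (a : A) : a ∈ z.ker ↔ z.v a = 0 := Iff.rfl

instance Ber.ker_prime (z : Ber K A) : z.ker.IsPrime where
  ne_top' := by
    intro h
    have h1 : (1 : A) ∈ z.ker := h ▸ Submodule.mem_top
    rw [Ber.mem_ker, z.one] at h1
    exact one_ne_zero h1
  mem_or_mem' := by
    intro a b h
    rw [Ber.mem_ker, z.mul, mul_eq_zero] at h
    exact h

end

/-- Tropical linear space (Bergman fan) of a matroid: on every circuit the maximum is attained at
least twice. -/
def BergM {E : Type} (M : Matroid E) (y : E → ℝ) : Prop :=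
  ∀ C : Set E, M.IsCircuit C → ∀ e ∈ C, ∃ f ∈ C, f ≠ e ∧ y e ≤ y f

end Pool.Agent.TD

namespace Pool.Agent.TD

/-- The linear form `a0 + ∑ a_b X_b`. -/
noncomputable def linf {K σ : Type} [NormedField K] (a0 : K) (a : σ → K) : MvPolynomial σ K :=
  MvPolynomial.C a0 + ∑ᶠ b, MvPolynomial.C (a b) * MvPolynomial.X b

/-- The set defined by an arrangement: `|X_b| = ρ_b`, `|ℓ_i| = r_i`. -/
def ArrSet {K σ ι : Type} [NormedField K] (ρ : σ → ℝ≥0) (a0 : ι → K) (a : ι → σ → K)
    (r : ι → ℝ≥0) : Set (Ber K (MvPolynomial σ K)) :=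
  {y | (∀ b, y.v (MvPolynomial.X b) = ρ b) ∧ ∀ i, y.v (linf (a0 i) (a i)) = r i}

end Pool.Agent.TD
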