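import Pool.Agent.TD.N.Bas

/-! Local data ND0: degrees (PAPER2.md, ND1; module TD_N_ALG). -/

open scoped Topology NNReal

namespace Pool.Agent.TD

namespace NDat

variable {K A I E : Type} [NormedField K] [IsUltrametricDist K] [CommRing A] [IsDomain A]
  [Algebra K A] {D : NDat K A I E}

/-- A nonzero constant coefficient: a nonzero `x` which is a root of a nonzero polynomial divides a
nonzero element of the base. -/
theorem exists_const_dvd {R A : Type} [CommRing R] [CommRing A] [IsDomain A] (φ : R →+* A) {x : A}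
    (hx : x ≠ 0) {P : Polynomial R} (hP : P ≠ 0) (h : P.eval₂ φ x = 0) :
    ∃ c : R, c ≠ 0 ∧ x ∣ φ c := by
  obtain ⟨Q, hQ, hnd⟩ := Polynomial.exists_eq_pow_rootMultiplicity_mul_and_not_dvd P hP 0
  rw [Polynomial.C_0, sub_zero] at hQ hnd
  refine ⟨Q.coeff 0, fun h0 => hnd (Polynomial.X_dvd_iff.mpr h0), ?_⟩
  have h1 : Q.eval₂ φ x = 0 := by
    rw [hQ, Polynomial.eval₂_mul, Polynomial.eval₂_pow, Polynomial.eval₂_X] at h
    rcases mul_eq_zero.mp h with h2 | h2
    · exact absurd h2 (pow_ne_zero _ hx)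
    · exact h2
  rw [← Polynomial.divX_mul_X_add Q, Polynomial.eval₂_add, Polynomial.eval₂_mul,
    Polynomial.eval₂_X, Polynomial.eval₂_C] at h1
  refine ⟨-(Q.divX.eval₂ φ x), ?_⟩
  linear_combination h1

omit [IsUltrametricDist K] [IsDomain A] in
theorem rad_pos (hD : D.Ok) {B : Set E} {r : I → ℝ≥0} {y : E → ℝ} {δ : ℝ} (hg : D.Gen δ B r y)
    (J : Set E) : ∀ i : I ⊕ J, 0 < (Sum.elim r fun e : J => D.rd y e.1) i := by
  rintro (i | e)
  · exact hg.rpos i
  · show 0 < D.ρ e.1 * (Real.exp (y e.1)).toNNReal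
    exact mul_pos (hD.ρpos _) (Real.toNNReal_pos.mpr (Real.exp_pos _))

/-- (ND1) the top points of facets are isolated in their fibres. -/
theorem zmp_top [Finite I] [Finite E] [Algebra.FiniteType K A] (h6 : StmtQ6) (hD : D.Ok)
    {B : Set E} {r : I → ℝ≥0} {y : E → ℝ} (hB : D.M.IsBase B) (he0 : D.e0 ∈ B)
    (hg : D.Gen D.δ0 B r y) {z : Ber K A} (hz : D.IsTop B r y z) (hn : z ∈ interior D.V0) :
    Zmp (D.ph (B \ {D.e0})) z ∧ z.ker = ⊥ := by
  have hft : (D.ph (B \ {D.e0})).toRingHom.FiniteType := by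
    have h1 : (algebraMap K A).FiniteType :=
      (RingHom.finiteType_algebraMap).mpr inferInstance
    have h2 : ((D.ph (B \ {D.e0})).toRingHom.comp (algebraMap K _)).FiniteType := by
      have h3 : (D.ph (B \ {D.e0})).toRingHom.comp (algebraMap K _) = algebraMap K A := by
        ext c
        exact (D.ph (B \ {D.e0})).commutes c
      rw [h3]
      exact h1
    exact RingHom.FiniteType.of_comp_finiteType h2
  have hzm : Zmp (D.ph (B \ {D.e0})) z := by
    refine h6 K _ A (D.ph (B \ {D.e0})) hft z {z} (interior D.V0) isCompact_singleton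
      isOpen_interior ?_ rfl
    ext z'
    constructor
    · rintro rfl
      exact ⟨hn, rfl⟩
    · rintro ⟨h1, h2⟩
      have h3 : fam (D.vr (B \ {D.e0})) z' = fam (D.vr (B \ {D.e0})) z := h2
      have h4 : GaussAt (D.vr (B \ {D.e0})) (Sum.elim r fun e => D.rd y e.1) z' := by
        rw [gaussAt_iff, h3, ← gaussAt_iff]
        exact hz.gauss
      have h5 : z' ∈ D.Fry r y := mem_Fry' hD hB hg (interior_subset h1) h4
      exact hD.uniq B r y hB he0 hg z' h5 z hz.mem h3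
  refine ⟨hzm, ?_⟩
  rw [eq_bot_iff]
  intro x hx
  rw [Ideal.mem_bot]
  by_contra hx0
  obtain ⟨g, hgz, -, hall⟩ := hzm
  obtain ⟨m, P, hPm, hP⟩ := hall x
  have hg0 : g ≠ 0 := by
    rintro rfl
    exact hgz z.zero
  have hx' : g ^ m * x ≠ 0 := mul_ne_zero (pow_ne_zero m hg0) hx0
  obtain ⟨c, hc, w, hw⟩ := exists_const_dvd _ hx' hPm.ne_zero hP
  have h1 : z.v (D.ph (B \ {D.e0}) c) = 0 := by
    have h2 : (D.ph (B \ {D.e0})) c = g ^ m * x * w := hw
    rw [h2, z.mul, z.mul, (Ber.mem_ker z x).mp hx, mul_zero, zero_mul]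
  have h2 : z.v (D.ph (B \ {D.e0}) c) = gn (Sum.elim r fun e => D.rd y e.1) c := hz.gauss c
  have h3 := gn_pos (rad_pos hD hg (B \ {D.e0})) hc
  rw [h1] at h2
  have h4 : (0 : ℝ) < gn (Sum.elim r fun e : (B \ {D.e0} : Set E) => D.rd y e.1) c :=
    NNReal.coe_pos.mpr h3
  exact absurd h2 h4.ne

theorem ph_injective [Finite I] [Finite E] (hD : D.Ok) {B : Set E} (hB : D.M.IsBase B)
    (he0 : D.e0 ∈ B) : Function.Injective (D.ph (B \ {D.e0})) := by
  obtain ⟨r, y, hg⟩ := exists_Gen hD hB he0 hD.δpos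
  obtain ⟨z, hz⟩ := hD.top B r y hB he0 hg
  rw [injective_iff_map_eq_zero]
  intro P hP
  by_contra hP0
  have h2 : z.v (D.ph (B \ {D.e0}) P) = gn (Sum.elim r fun e => D.rd y e.1) P := hz.gauss P
  have h3 := gn_pos (rad_pos hD hg (B \ {D.e0})) hP0
  rw [hP, z.zero] at h2
  have h4 : (0 : ℝ) < gn (Sum.elim r fun e : (B \ {D.e0} : Set E) => D.rd y e.1) P :=
    NNReal.coe_pos.mpr h3
  exact absurd h2 h4.ne

omit [IsUltrametricDist K] [IsDomain A] in
/-- A top point in the interior of `V0`. -/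
theorem exists_top [Finite I] [Finite E] (hD : D.Ok) {B : Set E} (hB : D.M.IsBase B)
    (he0 : D.e0 ∈ B) : ∃ r y z, D.Gen D.δ0 B r y ∧ D.IsTop B r y z ∧ z ∈ interior D.V0 := by
  obtain ⟨δ, hδ, hδ0, hsm⟩ := small hD (isOpen_interior (s := D.V0))
    (fun z hz => mem_interior_iff_mem_nhds.mpr (hD.nhd z hz))
  obtain ⟨r, y, hg⟩ := exists_Gen hD hB he0 hδ
  have hg' := hg.mono hδ0
  obtain ⟨z, hz⟩ := hD.top B r y hB he0 hg'
  refine ⟨r, y, z, hg', hz, hsm z hz.mem.1 ?_ ?_⟩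
  · intro i
    rw [hz.mem.2.1 i]
    exact hg.rlt i
  · intro e
    rw [hz.mem.2.2 e]
    exact hg.ylt e

theorem isAlg_of_int {R A : Type} [CommRing R] [IsDomain R] [CommRing A] [IsDomain A]
    [Algebra R A] {g : A} (hg : g ≠ 0) (hgi : IsIntegral R g)
    (hx : ∀ x : A, ∃ m : ℕ, IsIntegral R (g ^ m * x)) : Algebra.IsAlgebraic R A := by
  refine ⟨fun x => ?_⟩
  obtain ⟨m, hm⟩ := hx x
  exact IsAlgebraic.of_mul (mem_nonZeroDivisors_of_ne_zero (pow_ne_zero m hg))
    (hgi.pow m).isAlgebraic hm.isAlgebraic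

omit [IsUltrametricDist K] in
/-- `A` is algebraic over the subalgebra generated by the family. -/
theorem adjoin_alg {σ : Type} (a : σ → A) (z : Ber K A)
    (hz : Zmp (MvPolynomial.aeval a : MvPolynomial σ K →ₐ[K] A) z) :
    Algebra.IsAlgebraic (Algebra.adjoin K (Set.range a)) A := by
  let S := Algebra.adjoin K (Set.range a)
  let ψ : MvPolynomial σ K →ₐ[K] S :=
    MvPolynomial.aeval fun i => (⟨a i, Algebra.subset_adjoin ⟨i, rfl⟩⟩ : S)
  have hψ : (algebraMap S A).comp ψ.toRingHom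
      = (MvPolynomial.aeval a : MvPolynomial σ K →ₐ[K] A).toRingHom := by
    have h1 : (S.val.comp ψ) = MvPolynomial.aeval a := by
      apply MvPolynomial.algHom_ext
      intro i
      rw [AlgHom.comp_apply, MvPolynomial.aeval_X, MvPolynomial.aeval_X]
      rfl
    rw [← h1]
    rfl
  have key : ∀ x : A, (MvPolynomial.aeval a : MvPolynomial σ K →ₐ[K] A).toRingHom.IsIntegralElem x
      → IsIntegral S x := by
    rintro x ⟨P, hP, hPx⟩
    refine ⟨P.map ψ.toRingHom, hP.map _, ?_⟩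
    rw [Polynomial.eval₂_map, hψ]
    exact hPx
  obtain ⟨g, hgz, hgi, hall⟩ := hz
  have hg0 : g ≠ 0 := by
    rintro rfl
    exact hgz z.zero
  refine isAlg_of_int hg0 (key g hgi) fun x => ?_
  obtain ⟨m, hm⟩ := hall x
  exact ⟨m, key _ hm⟩

/-- The functions `t`, `T_b` form a transcendence basis. -/
theorem isTrBasis [Finite I] [Finite E] [Algebra.FiniteType K A] (h6 : StmtQ6) (hD : D.Ok)
    {B : Set E} (hB : D.M.IsBase B) (he0 : D.e0 ∈ B) :
    IsTranscendenceBasis K (D.vr (B \ {D.e0})) := by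
  obtain ⟨r, y, z, hg, hz, hn⟩ := exists_top hD hB he0
  rw [isTranscendenceBasis_iff_algebraicIndependent_isAlgebraic]
  exact ⟨ph_injective hD hB he0, adjoin_alg _ z (zmp_top h6 hD hB he0 hg hz hn).1⟩

/-- (ND1) `A` is algebraic over `K[t, T_b : b ∈ B - e0]`, hence its transcendence degree. -/
theorem card_le [Finite I] [Finite E] [Algebra.FiniteType K A] (h6 : StmtQ6) (hD : D.Ok)
    {B : Set E} (hB : D.M.IsBase B) (he0 : D.e0 ∈ B) {σ : Type} [Finite σ] (a : σ → A)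
    (z : Ber K A) (hz : Zmp (MvPolynomial.aeval a : MvPolynomial σ K →ₐ[K] A) z) :
    Nat.card I + (B \ {D.e0}).ncard ≤ Nat.card σ ∧
      (Nat.card I + (B \ {D.e0}).ncard = Nat.card σ →
        Function.Injective (MvPolynomial.aeval a : MvPolynomial σ K →ₐ[K] A)) := by
  have hcard : Nat.card (I ⊕ (B \ {D.e0} : Set E)) = Nat.card I + (B \ {D.e0}).ncard := by
    rw [Nat.card_sum, Nat.card_coe_set_eq]
  have htr := (isTrBasis h6 hD hB he0).cardinalMk_eq_trdeg
  have halg := adjoin_alg a z hz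
  have hle : Algebra.trdeg K A ≤ Cardinal.mk σ :=
    (Algebra.IsAlgebraic.trdeg_le_cardinalMk K (Set.range a)).trans Cardinal.mk_range_le
  rw [← hcard]
  constructor
  · rw [← htr, ← Nat.cast_card, ← Nat.cast_card] at hle
    exact Nat.cast_le.mp hle
  · intro h
    have h1 : Cardinal.mk σ ≤ Algebra.trdeg K A := by
      rw [← htr, ← Nat.cast_card, ← Nat.cast_card, h]
    exact (Algebra.IsAlgebraic.isTranscendenceBasis_of_le_trdeg_of_finite K a h1).1

/-- (ND1) `A` is separable over `K[t, T_b : b ∈ B - e0]`. -/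
theorem sep [Finite I] [Finite E] [Algebra.FiniteType K A] [CompleteSpace K] (h6 : StmtQ6)
    (hS : StmtSep) (hD : D.Ok) {B : Set E} (hB : D.M.IsBase B) (he0 : D.e0 ∈ B) (a : A) :
    ∃ P : Polynomial (MvPolynomial (I ⊕ (B \ {D.e0} : Set E)) K),
      (P.map (algebraMap _ (FractionRing (MvPolynomial (I ⊕ (B \ {D.e0} : Set E)) K)))).Separable ∧
        P.eval₂ (D.ph (B \ {D.e0})).toRingHom a = 0 := by
  obtain ⟨r, y, z, hg, hz, hn⟩ := exists_top hD hB he0
  obtain ⟨hzm, hker⟩ := zmp_top h6 hD hB he0 hg hz hn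
  refine hS K _ A (D.ph (B \ {D.e0})) z (Sum.elim r fun e => D.rd y e.1)
    (rad_pos hD hg (B \ {D.e0})) hz.gauss hker (hD.dens B r y hB he0 hg z hz.mem) a ?_
  obtain ⟨g, hgz, hgi, hall⟩ := hzm
  have hg0 : g ≠ 0 := by
    rintro rfl
    exact hgz z.zero
  let _ : Algebra (MvPolynomial (I ⊕ (B \ {D.e0} : Set E)) K) A :=
    (D.ph (B \ {D.e0})).toRingHom.toAlgebra
  have halg : Algebra.IsAlgebraic (MvPolynomial (I ⊕ (B \ {D.e0} : Set E)) K) A :=
    isAlg_of_int hg0 hgi hall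
  obtain ⟨P, hP, hPa⟩ := halg.isAlgebraic a
  exact ⟨P, hP, hPa⟩

end NDat

end Pool.Agent.TD
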