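import Pool.Agent.TD.N.Lin

/-! Local data ND0: the structure theorem (PAPER2.md, ND8; module TD_N_ST). -/

open scoped Topology NNReal

namespace Pool.Agent.TD

namespace NDat

variable {K A I E : Type} [NormedField K] [IsUltrametricDist K] [Finite I] [Finite E]
  [CommRing A] [IsDomain A] [Algebra K A] [Algebra.FiniteType K A]

/-- The output of section ND: the fibre `F_w` is an arrangement fibre. -/
structure Str (D : NDat K A I E) (B : Set E) (c0 : (Bᶜ : Set E) → K)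
    (c : (Bᶜ : Set E) → (B \ {D.e0} : Set E) → K) : Prop where
  base : D.M.IsBase B
  e0_mem : D.e0 ∈ B
  bd0 : ∀ e, ‖c0 e‖₊ ≤ D.ρ e.1
  bd : ∀ e b, ‖c e b‖₊ * D.ρ b.1 ≤ D.ρ e.1
  image : Ber.res (D.ph0 (B \ {D.e0})) '' D.Fw =
    ArrSet (fun b : (B \ {D.e0} : Set E) => D.ρ b.1) c0 c fun e => D.ρ e.1
  inj : Set.InjOn (Ber.res (D.ph0 (B \ {D.e0}))) D.Fw
  opn : ∀ z ∈ D.Fw, ∀ V ∈ 𝓝 z, Ber.res (D.ph0 (B \ {D.e0})) '' V ∈
    𝓝 (Ber.res (D.ph0 (B \ {D.e0})) z)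
  dens : ∀ z ∈ D.Fw, Dens (D.ph0 (B \ {D.e0})) z
  close : ∀ z ∈ D.Fw, ∀ e : (Bᶜ : Set E),
    z.v (D.T e.1 - D.ph0 (B \ {D.e0}) (linf (c0 e) (c e))) < D.ρ e.1

variable {D : NDat K A I E}

/-- (ND8 0) `F_w` is open in the inverse image of `{0} × Arr`. -/
theorem Fw_eq (hD : D.Ok) {B : Set E} (hB : D.M.IsBase B) (he0 : D.e0 ∈ B)
    {c0 : (Bᶜ : Set E) → K} {c : (Bᶜ : Set E) → (B \ {D.e0} : Set E) → K}
    (hc : ∀ z ∈ D.Fw, ∀ e : (Bᶜ : Set E),
      z.v (D.T e.1 - D.ph0 (B \ {D.e0}) (linf (c0 e) (c e))) < D.ρ e.1) :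
    ∃ V : Set (Ber K A), IsOpen V ∧ D.Fw = V ∩ {z | (∀ i, z.v (D.t i) = 0) ∧
      Ber.res (D.ph0 (B \ {D.e0})) z ∈
        ArrSet (fun b : (B \ {D.e0} : Set E) => D.ρ b.1) c0 c fun e => D.ρ e.1} := by
  refine ⟨interior D.V0 ∩ ⋂ e : (Bᶜ : Set E),
    {z | z.v (D.T e.1 - D.ph0 (B \ {D.e0}) (linf (c0 e) (c e))) < D.ρ e.1}, ?_, ?_⟩
  · refine isOpen_interior.inter (isOpen_iInter_of_finite fun e => ?_)
    exact isOpen_lt (Ber.continuous_v _) continuous_const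
  · ext z
    constructor
    · intro hz
      refine ⟨⟨mem_interior_iff_mem_nhds.2 (hD.nhd z hz), Set.mem_iInter.2 fun e => hc z hz e⟩,
        hz.2.1, ?_, ?_⟩
      · intro b
        rw [Ber.res_v, ph0, MvPolynomial.aeval_X]
        exact v_T_Fw hD hz b.1
      · intro e
        rw [Ber.res_v]
        have h1 := v_T_Fw hD hz e.1
        have h2 : z.v (D.T e.1 - D.ph0 (B \ {D.e0}) (linf (c0 e) (c e))) < z.v (D.T e.1) := by
          rw [h1]; exact hc z hz e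
        rw [z.sub_eq h2, h1]
    · rintro ⟨⟨h0, h1⟩, h2, h3, h4⟩
      refine ⟨interior_subset h0, h2, fun e => ?_⟩
      have key : ∀ e, z.v (D.T e) = D.ρ e → D.yc z e = 0 := fun e h => by
        rw [yc, h, sub_self]
      by_cases he : e = D.e0
      · rw [he]; exact yc_e0 hD z
      · by_cases heB : e ∈ B
        · apply key
          have h := h3 ⟨e, heB, he⟩
          rw [Ber.res_v, ph0, MvPolynomial.aeval_X] at h
          exact h
        · apply key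
          have h := h4 ⟨e, heB⟩
          rw [Ber.res_v] at h
          have h5 : z.v (D.T e - D.ph0 (B \ {D.e0}) (linf (c0 ⟨e, heB⟩) (c ⟨e, heB⟩))) < D.ρ e :=
            Set.mem_iInter.1 h1 ⟨e, heB⟩
          have h6 : z.v (D.ph0 (B \ {D.e0}) (linf (c0 ⟨e, heB⟩) (c ⟨e, heB⟩)) - D.T e) <
              z.v (D.ph0 (B \ {D.e0}) (linf (c0 ⟨e, heB⟩) (c ⟨e, heB⟩))) := by
            rw [z.sub_comm, h]; exact h5
          rw [z.sub_eq h6, h]

/-- The value of a linear form. -/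
theorem linf_v_le {σ : Type} [Finite σ] (y : Ber K (MvPolynomial σ K)) {ρ : σ → ℝ≥0}
    (hy : ∀ b, y.v (MvPolynomial.X b) = ρ b) {a0 : K} {a : σ → K} {r : ℝ≥0} (h0 : ‖a0‖₊ ≤ r)
    (h1 : ∀ b, ‖a b‖₊ * ρ b ≤ r) : y.v (linf a0 a) ≤ r := by
  classical
  haveI := Fintype.ofFinite σ
  have hC : ∀ c : K, y.v (MvPolynomial.C c) = ‖c‖ := fun c => y.ext c
  rw [linf, finsum_eq_sum_of_fintype]
  refine (y.add _ _).trans (max_le ?_ ?_)
  · rw [hC]; exact_mod_cast h0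
  · refine y.sum_le _ _ r.2 fun b _ => ?_
    rw [y.mul, hC, hy]
    exact_mod_cast h1 b

omit [IsUltrametricDist K] in
theorem isClosed_ArrSet {σ ι : Type} (ρ : σ → ℝ≥0) (a0 : ι → K) (a : ι → σ → K) (r : ι → ℝ≥0) :
    IsClosed (ArrSet ρ a0 a r) := by
  have : ArrSet ρ a0 a r = (⋂ b, {y : Ber K (MvPolynomial σ K) | y.v (MvPolynomial.X b) = ρ b}) ∩
      ⋂ i, {y | y.v (linf (a0 i) (a i)) = r i} := by
    ext y
    simp only [ArrSet, Set.mem_inter_iff, Set.mem_iInter, Set.mem_ofPred_eq]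
  rw [this]
  exact (isClosed_iInter fun b => isClosed_eq (Ber.continuous_v _) continuous_const).inter
    (isClosed_iInter fun i => isClosed_eq (Ber.continuous_v _) continuous_const)

/-- (ND8 2) arrangement sets are connected. -/
theorem arr_connected {σ ι : Type} [Finite σ] (hP : StmtPath) (hg : StmtGp) (ρ : σ → ℝ≥0)
    (hρ : ∀ i, 0 < ρ i) (a0 : ι → K) (a : ι → σ → K) (r : ι → ℝ≥0) (h0 : ∀ i, ‖a0 i‖₊ ≤ r i)
    (h1 : ∀ i b, ‖a i b‖₊ * ρ b ≤ r i) : IsPreconnected (ArrSet ρ a0 a r) := by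
  obtain ⟨g, -, hgp⟩ := hg K σ
  have hη := hgp ρ
  have hX : ∀ b, (g ρ).v (MvPolynomial.X b) = ρ b := fun b => by rw [hη, gn_X]
  refine isPreconnected_of_forall (g ρ) fun w hw => ?_
  obtain ⟨γ, hγ, hγ0, hγ1, hγs⟩ := hP K σ ρ (g ρ) hη w fun i => (hw.1 i).le
  refine ⟨γ '' Set.Icc 0 1, ?_, ⟨1, ⟨zero_le_one, le_rfl⟩, hγ1⟩, ⟨0, ⟨le_rfl, zero_le_one⟩, hγ0⟩,
    isPreconnected_Icc.image _ hγ⟩
  rintro _ ⟨s, hs, rfl⟩
  obtain ⟨h2, h3⟩ := hγs s hs
  refine ⟨fun b => le_antisymm ?_ ?_, fun i => le_antisymm ?_ ?_⟩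
  · exact (h3 _).trans_eq (hX b)
  · exact (hw.1 b).symm.le.trans (h2 _)
  · exact (h3 _).trans (linf_v_le _ hX (h0 i) (h1 i))
  · exact (hw.2 i).symm.le.trans (h2 _)

section Sec

variable {J : Type}

/-- The homomorphism `t ↦ 0`. -/
noncomputable def sec0 (K I J : Type) [NormedField K] :
    MvPolynomial (I ⊕ J) K →ₐ[K] MvPolynomial J K :=
  MvPolynomial.aeval (Sum.elim (fun _ => 0) MvPolynomial.X)

/-- The inclusion. -/
noncomputable def inc0 (K I J : Type) [NormedField K] :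
    MvPolynomial J K →ₐ[K] MvPolynomial (I ⊕ J) K := MvPolynomial.rename Sum.inr

theorem sec0_inc0 {K I J : Type} [NormedField K] (P : MvPolynomial J K) :
    sec0 K I J (inc0 K I J P) = P := by
  have h : (sec0 K I J).comp (inc0 K I J) = AlgHom.id K _ := by
    apply MvPolynomial.algHom_ext
    intro j
    simp [sec0, inc0]
  exact congrArg (fun f : MvPolynomial J K →ₐ[K] MvPolynomial J K => f P) h

theorem res_sec0 {K I J : Type} [NormedField K] (y : Ber K (MvPolynomial J K)) :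
    Ber.res (inc0 K I J) (Ber.res (sec0 K I J) y) = y := by
  apply Ber.ext_v
  intro P
  rw [Ber.res_v, Ber.res_v, sec0_inc0]

theorem res_inc0 {K I J : Type} [NormedField K] (w : Ber K (MvPolynomial (I ⊕ J) K))
    (hw : ∀ i, w.v (MvPolynomial.X (Sum.inl i)) = 0) :
    Ber.res (sec0 K I J) (Ber.res (inc0 K I J) w) = w := by
  apply Ber.ext_v
  intro P
  rw [Ber.res_v, Ber.res_v]
  have h : ((Ideal.Quotient.mkₐ K w.ker).comp ((inc0 K I J).comp (sec0 K I J))) =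
      Ideal.Quotient.mkₐ K w.ker := by
    apply MvPolynomial.algHom_ext
    rintro (i | j)
    · have : (MvPolynomial.X (Sum.inl i) : MvPolynomial (I ⊕ J) K) ∈ w.ker := hw i
      simp only [AlgHom.comp_apply, sec0, MvPolynomial.aeval_X, Sum.elim_inl, map_zero]
      rw [eq_comm]
      exact Ideal.Quotient.eq_zero_iff_mem.2 this
    · simp [sec0, inc0]
  have h1 : inc0 K I J (sec0 K I J P) - P ∈ w.ker :=
    Ideal.Quotient.eq.1 (congrArg (fun f : MvPolynomial (I ⊕ J) K →ₐ[K]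
      (MvPolynomial (I ⊕ J) K ⧸ w.ker) => f P) h)
  have h2 : w.v (inc0 K I J (sec0 K I J P) - P) = 0 := h1
  apply le_antisymm
  · calc w.v (inc0 K I J (sec0 K I J P)) = w.v ((inc0 K I J (sec0 K I J P) - P) + P) := by
          rw [sub_add_cancel]
      _ ≤ max (w.v (inc0 K I J (sec0 K I J P) - P)) (w.v P) := w.add _ _
      _ ≤ w.v P := by rw [h2]; exact max_le (w.nonneg _) le_rfl
  · calc w.v P = w.v (inc0 K I J (sec0 K I J P) - (inc0 K I J (sec0 K I J P) - P)) := by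
          rw [sub_sub_cancel]
      _ ≤ max (w.v (inc0 K I J (sec0 K I J P))) (w.v (inc0 K I J (sec0 K I J P) - P)) :=
          w.sub _ _
      _ ≤ _ := by rw [h2]; exact max_le le_rfl (w.nonneg _)

theorem nhds_inc0 {K I J : Type} [NormedField K] (y : Ber K (MvPolynomial J K))
    {W : Set (Ber K (MvPolynomial (I ⊕ J) K))} (hW : W ∈ 𝓝 (Ber.res (sec0 K I J) y)) :
    Ber.res (inc0 K I J) '' W ∈ 𝓝 y := by
  have h1 : (Ber.res (sec0 K I J)) ⁻¹' W ∈ 𝓝 y :=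
    (Ber.res_continuous (sec0 K I J)).continuousAt.preimage_mem_nhds hW
  refine Filter.mem_of_superset h1 fun y' hy' => ⟨_, hy', res_sec0 y'⟩

theorem ph_inc0 {K A I E : Type} [NormedField K] [CommRing A] [Algebra K A] (D : NDat K A I E)
    (J : Set E) (P : MvPolynomial J K) : D.ph J (inc0 K I J P) = D.ph0 J P := by
  rw [ph, inc0, MvPolynomial.aeval_rename]
  rfl

theorem res_ph {K A I E : Type} [NormedField K] [CommRing A] [Algebra K A] (D : NDat K A I E)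
    (J : Set E) (z : Ber K A) : Ber.res (inc0 K I J) (Ber.res (D.ph J) z) =
      Ber.res (D.ph0 J) z := by
  apply Ber.ext_v
  intro P
  rw [Ber.res_v, Ber.res_v, Ber.res_v, ph_inc0]

theorem res_ph_sec {K A I E : Type} [NormedField K] [CommRing A] [Algebra K A]
    (D : NDat K A I E) (J : Set E) (z : Ber K A) (hz : ∀ i, z.v (D.t i) = 0) :
    Ber.res (D.ph J) z = Ber.res (sec0 K I J) (Ber.res (D.ph0 J) z) := by
  rw [← res_ph, res_inc0]
  intro i
  rw [Ber.res_v, ph, MvPolynomial.aeval_X]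
  exact hz i

theorem ph_finiteType {K A I E : Type} [NormedField K] [CommRing A] [Algebra K A]
    [Algebra.FiniteType K A] (D : NDat K A I E) (J : Set E) :
    (D.ph J).toRingHom.FiniteType := by
  have h : ((D.ph J).toRingHom.comp (algebraMap K (MvPolynomial (I ⊕ J) K))).FiniteType := by
    have h1 : (D.ph J).toRingHom.comp (algebraMap K (MvPolynomial (I ⊕ J) K)) =
        algebraMap K A := by
      ext x
      exact (D.ph J).commutes x
    rw [h1]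
    exact RingHom.finiteType_algebraMap.2 inferInstance
  exact h.of_comp_finiteType

end Sec

/-- (ND8) the structure theorem. -/
theorem exists_str [CompleteSpace K] (h6 : StmtQ6) (h7 : StmtQ7) (h9 : StmtQ9) (hS : StmtSep)
    (hg : StmtGp) (hL : StmtLP) (hP : StmtPath) (hD : D.Ok) : ∃ B c0 c, Str D B c0 c := by
  obtain ⟨z1, h1⟩ := exists_z1 h6 h7 hg hD
  obtain ⟨B, hB, he0⟩ := exists_base hD
  have hz1O : z1 ∈ D.Om B := by rw [h1.mem B hB he0]; exact rfl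
  have hz1 : z1 ∈ D.Fw := hz1O.1
  have hdz := dens_z1 h6 h7 h9 hS hg hD h1 hB he0
  have hd0 := dens_ph0 (D := D) (B := B) hz1.2.1 hdz
  have hex : ∀ e : (Bᶜ : Set E), ∃ (c0 : K) (c : (B \ {D.e0} : Set E) → K), ‖c0‖₊ ≤ D.ρ e.1 ∧
      (∀ b, ‖c b‖₊ * D.ρ b.1 ≤ D.ρ e.1) ∧
      z1.v (D.T e.1 - D.ph0 (B \ {D.e0}) (linf c0 c)) < D.ρ e.1 := fun e =>
    exists_linear hD h1 hB he0 e.2 (exists_laurent h6 h7 hg hL hD h1 hB he0 hd0 e.1)
  choose c0 c hc0 hc hlt using hex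
  have hclose : ∀ z ∈ D.Fw, ∀ e : (Bᶜ : Set E),
      z.v (D.T e.1 - D.ph0 (B \ {D.e0}) (linf (c0 e) (c e))) < D.ρ e.1 := fun z hz e =>
    (h1.max z hz _).trans_lt (hlt e)
  obtain ⟨V, hV, hFV⟩ := Fw_eq hD hB he0 hclose
  have hinj := ph_injective hD hB he0
  have hft := ph_finiteType D (B \ {D.e0})
  have hsep := fun a => sep h6 hS hD hB he0 a
  set Z : Set (Ber K (MvPolynomial (I ⊕ (B \ {D.e0} : Set E)) K)) :=
    {w | (∀ i, w.v (MvPolynomial.X (Sum.inl i)) = 0) ∧ Ber.res (inc0 K I (B \ {D.e0} : Set E)) w ∈ (ArrSet (fun b : (B \ {D.e0} : Set E) => D.ρ b.1) c0 c fun e => D.ρ e.1)} with hZ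
  have hZ' : Z = Ber.res (sec0 K I (B \ {D.e0} : Set E)) '' (ArrSet (fun b : (B \ {D.e0} : Set E) => D.ρ b.1) c0 c fun e => D.ρ e.1) := by
    ext w
    constructor
    · rintro ⟨h2, h3⟩
      exact ⟨_, h3, res_inc0 w h2⟩
    · rintro ⟨y, hy, rfl⟩
      refine ⟨fun i => ?_, ?_⟩
      · rw [Ber.res_v, sec0, MvPolynomial.aeval_X]
        exact y.zero
      · rw [res_sec0]; exact hy
  have hZc : IsClosed Z := by
    have : Z = (⋂ i, {w : Ber K (MvPolynomial (I ⊕ (B \ {D.e0} : Set E)) K) |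
        w.v (MvPolynomial.X (Sum.inl i)) = 0}) ∩ Ber.res (inc0 K I (B \ {D.e0} : Set E)) ⁻¹' (ArrSet (fun b : (B \ {D.e0} : Set E) => D.ρ b.1) c0 c fun e => D.ρ e.1) := by
      ext w
      simp only [hZ, Set.mem_inter_iff, Set.mem_iInter, Set.mem_ofPred_eq, Set.mem_preimage]
    rw [this]
    exact (isClosed_iInter fun i => isClosed_eq (Ber.continuous_v _) continuous_const).inter
      ((isClosed_ArrSet _ _ _ _).preimage (Ber.res_continuous _))
  have hZp : IsPreconnected Z := by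
    rw [hZ']
    exact (arr_connected hP hg (fun b : (B \ {D.e0} : Set E) => D.ρ b.1)
      (fun b => hD.ρpos b.1) c0 c (fun e => D.ρ e.1) hc0 hc).image _
      (Ber.res_continuous (sec0 K I (B \ {D.e0} : Set E))).continuousOn
  have hpre : ∀ z : Ber K A, Ber.res (D.ph (B \ {D.e0})) z ∈ Z ↔
      (∀ i, z.v (D.t i) = 0) ∧ Ber.res (D.ph0 (B \ {D.e0})) z ∈ (ArrSet (fun b : (B \ {D.e0} : Set E) => D.ρ b.1) c0 c fun e => D.ρ e.1) := by
    intro z
    have h2 : ∀ i, (Ber.res (D.ph (B \ {D.e0})) z).v (MvPolynomial.X (Sum.inl i)) = z.v (D.t i) := by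
      intro i
      rw [Ber.res_v, ph, MvPolynomial.aeval_X]
      rfl
    constructor
    · rintro ⟨h3, h4⟩
      exact ⟨fun i => by rw [← h2]; exact h3 i, by rw [← res_ph]; exact h4⟩
    · rintro ⟨h3, h4⟩
      exact ⟨fun i => by rw [h2]; exact h3 i, by rw [res_ph]; exact h4⟩
  have hFZ : D.Fw = V ∩ Ber.res (D.ph (B \ {D.e0})) ⁻¹' Z := by
    rw [hFV]
    ext z
    simp only [Set.mem_inter_iff, Set.mem_preimage, hpre, Set.mem_ofPred_eq]
  have hZmp : ∀ z ∈ D.Fw, Zmp (D.ph (B \ {D.e0})) z := by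
    intro z hz
    refine h6 K (MvPolynomial (I ⊕ (B \ {D.e0} : Set E)) K) A (D.ph (B \ {D.e0})) hft z
      (D.Fw ∩ {z' | Ber.res (D.ph (B \ {D.e0})) z' = Ber.res (D.ph (B \ {D.e0})) z}) V ?_ hV ?_ ⟨hz, rfl⟩
    · exact (isCompact_Fw hD).inter_right
        (isClosed_eq (Ber.res_continuous _) continuous_const)
    · ext z'
      constructor
      · rintro ⟨h2, h3⟩
        rw [hFZ] at h2
        exact ⟨h2.1, h3⟩
      · rintro ⟨h2, h3⟩
        refine ⟨?_, h3⟩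
        rw [hFZ]
        refine ⟨h2, ?_⟩
        show Ber.res (D.ph (B \ {D.e0})) z' ∈ Z
        rw [show Ber.res (D.ph (B \ {D.e0})) z' = Ber.res (D.ph (B \ {D.e0})) z from h3]
        rw [hFZ] at hz
        exact hz.2
  have hq := h9 K (MvPolynomial (I ⊕ (B \ {D.e0} : Set E)) K) A (D.ph (B \ {D.e0})) hinj hft hsep Z D.Fw V D.V0
    (Ber.res (D.ph (B \ {D.e0})) z1) (D.Y1 B D.δ0) hZc hZp (isCompact_Fw hD) hV hFZ hZmp ⟨z1, hz1, rfl⟩
    (closure_Y1 hg hD hB he0 ((mem_Om_iff hD).1 hz1O).2) (fun z hz => hD.nhd z hz)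
    (Y1_spec hD hB he0)
  obtain ⟨hq1, hq2, hq3⟩ := hq
  refine ⟨B, c0, c, hB, he0, hc0, hc, ?_, ?_, ?_, ?_, hclose⟩
  · apply Set.eq_of_subset_of_subset
    · rintro _ ⟨z, hz, rfl⟩
      rw [hFV] at hz
      exact hz.2.2
    · intro y hy
      have hy' : Ber.res (sec0 K I (B \ {D.e0} : Set E)) y ∈ Z := by rw [hZ']; exact ⟨y, hy, rfl⟩
      rw [← hq2] at hy'
      obtain ⟨z, hz, hz'⟩ := hy'
      refine ⟨z, hz, ?_⟩
      rw [← res_ph, hz', res_sec0]
  · intro z hz z' hz' h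
    apply hq1 hz hz'
    rw [res_ph_sec D (B \ {D.e0}) z hz.2.1, res_ph_sec D (B \ {D.e0}) z' hz'.2.1, h]
  · intro z hz V' hV'
    have h2 := h7 K (MvPolynomial (I ⊕ (B \ {D.e0} : Set E)) K) A (D.ph (B \ {D.e0})) hinj z (hZmp z hz) V' hV'
    rw [res_ph_sec D (B \ {D.e0}) z hz.2.1] at h2
    have h3 := nhds_inc0 _ h2
    rw [Set.image_image] at h3
    simpa only [res_ph] using h3
  · intro z hz
    exact dens_ph0 hz.2.1 (hq3 z hz)

end NDat

end Pool.Agent.TD
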