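import Pool.Agent.TD.N.Defs

/-!
# Stages 2 + 3: the statements of sections Q, SEP, LP, GP used by section ND (PAPER2.md)
-/

open scoped Topology NNReal

namespace Pool.Agent.TD

/-- (Q6) compact fibres are quasi-finite. -/
def StmtQ6 : Prop := ∀ (K R A : Type) [NormedField K] [IsUltrametricDist K] [CommRing R]
  [CommRing A] [Algebra K R] [Algebra K A] (φ : R →ₐ[K] A), φ.toRingHom.FiniteType →
  ∀ (z : Ber K A) (Ω V : Set (Ber K A)), IsCompact Ω → IsOpen V →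
    Ω = V ∩ {z' | Ber.res φ z' = Ber.res φ z} → z ∈ Ω → Zmp φ z

/-- (Q7) openness. -/
def StmtQ7 : Prop := ∀ (K R A : Type) [NormedField K] [IsUltrametricDist K] [CommRing R]
  [IsDomain R] [IsIntegrallyClosed R] [CommRing A] [IsDomain A] [Algebra K R] [Algebra K A]
  (φ : R →ₐ[K] A), Function.Injective φ → ∀ z : Ber K A, Zmp φ z →
    ∀ V ∈ 𝓝 z, Ber.res φ '' V ∈ 𝓝 (Ber.res φ z)

/-- (Q9) degree one. -/
def StmtQ9 : Prop := ∀ (K R A : Type) [NormedField K] [IsUltrametricDist K] [CommRing R]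
  [IsDomain R] [IsIntegrallyClosed R] [CommRing A] [IsDomain A] [Algebra K R] [Algebra K A]
  (φ : R →ₐ[K] A), Function.Injective φ → φ.toRingHom.FiniteType →
  (∀ a : A, ∃ P : Polynomial R, (P.map (algebraMap R (FractionRing R))).Separable ∧
    P.eval₂ φ.toRingHom a = 0) →
  ∀ (Z : Set (Ber K R)) (F V V1 : Set (Ber K A)) (y0 : Ber K R) (Y1 : Set (Ber K R)),
    IsClosed Z → IsPreconnected Z → IsCompact F → IsOpen V → F = V ∩ Ber.res φ ⁻¹' Z →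
    (∀ z ∈ F, Zmp φ z) → y0 ∈ Ber.res φ '' F → y0 ∈ closure Y1 → (∀ z ∈ F, V1 ∈ 𝓝 z) →
    (∀ y ∈ Y1, y.ker = ⊥ ∧ (∀ z ∈ V1, ∀ z' ∈ V1, Ber.res φ z = y → Ber.res φ z' = y → z = z') ∧
      ∀ z ∈ V1, Ber.res φ z = y → Dens φ z) →
    Set.InjOn (Ber.res φ) F ∧ Ber.res φ '' F = Z ∧ ∀ z ∈ F, Dens φ z

/-- (SEP) separability. -/
def StmtSep : Prop := ∀ (K σ A : Type) [NormedField K] [IsUltrametricDist K] [CompleteSpace K]
  [Finite σ] [CommRing A] [IsDomain A] [Algebra K A] (φ : MvPolynomial σ K →ₐ[K] A) (z : Ber K A)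
  (ρ : σ → ℝ≥0), (∀ i, 0 < ρ i) → (∀ P, z.v (φ P) = gn ρ P) → z.ker = ⊥ → Dens φ z →
  ∀ a : A, (∃ P : Polynomial (MvPolynomial σ K), P ≠ 0 ∧ P.eval₂ φ.toRingHom a = 0) →
    ∃ P : Polynomial (MvPolynomial σ K),
      (P.map (algebraMap (MvPolynomial σ K) (FractionRing (MvPolynomial σ K)))).Separable ∧
        P.eval₂ φ.toRingHom a = 0

/-- (LP) fractions which are bounded near the Gauss point are Laurent polynomials. -/
def StmtLP : Prop := ∀ (K σ : Type) [NormedField K] [IsUltrametricDist K] [Finite σ]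
  (ρ : σ → ℝ≥0), (∀ i, 0 < ρ i) → ∀ η : Ber K (MvPolynomial σ K), IsGp ρ η →
  ∀ b c : MvPolynomial σ K, b ≠ 0 → c ≠ 0 →
    (∀ᶠ y : Ber K (MvPolynomial σ K) in 𝓝 η, (∀ i, y.v (MvPolynomial.X i) = ρ i) →
      y.v b * η.v c ≤ η.v b * y.v c) →
    ∃ (P : MvPolynomial σ K) (u : σ →₀ ℕ),
      η.v (MvPolynomial.monomial u 1 * b - P * c) < η.v (MvPolynomial.monomial u 1 * b)

/-- (GP) Gauss points exist and depend continuously on the radii. -/
def StmtGp : Prop := ∀ (K σ : Type) [NormedField K] [IsUltrametricDist K] [Finite σ],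
  ∃ g : (σ → ℝ≥0) → Ber K (MvPolynomial σ K), Continuous g ∧ ∀ ρ, IsGp ρ (g ρ)

/-- (PATH) increasing paths to the Gauss point. -/
def StmtPath : Prop := ∀ (K σ : Type) [NormedField K] [IsUltrametricDist K] [Finite σ]
  (ρ : σ → ℝ≥0) (η : Ber K (MvPolynomial σ K)), IsGp ρ η → ∀ w : Ber K (MvPolynomial σ K),
  (∀ i, w.v (MvPolynomial.X i) ≤ ρ i) → ∃ γ : ℝ → Ber K (MvPolynomial σ K),
    ContinuousOn γ (Set.Icc 0 1) ∧ γ 0 = w ∧ γ 1 = η ∧ ∀ s ∈ Set.Icc (0 : ℝ) 1, w ≤ γ s ∧ γ s ≤ η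

end Pool.Agent.TD
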