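import Pool.Agent.TD.Q.All
import Pool.Agent.TD.GP.Ifc
import Pool.Agent.TD.N.St
import Pool.Agent.TD.X2.Den
import Pool.Agent.TD.X2.Ok
import Pool.Agent.TD.X2.Rec

/-!
# Stage 3: section ND without hypotheses (PAPER2.md)

`NDat.str`: the fibre `F_w` is an arrangement fibre; `X2.exists_ne'`: nonzero functions do not
vanish on open sets.
-/

open scoped Topology NNReal

namespace Pool.Agent.TD

theorem stmtQ6 : StmtQ6 := by
  intro K R A _ _ _ _ _ _ φ hφ z Ω V hΩ hV he hz
  have hzV : z ∈ V := by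
    rw [he] at hz
    exact hz.1
  refine Q.q6 K R A φ hφ (Ber.res φ z) V hV ?_ z hzV rfl
  rw [← he]
  exact hΩ

theorem stmtQ7 : StmtQ7 := by
  intro K R A _ _ _ _ _ _ _ _ _ φ hφ z hz V hV
  exact Q.q7 K R A φ hφ z hz V hV

theorem stmtQ9 : StmtQ9 := by
  intro K R A _ _ _ _ _ _ _ _ _ φ hφ hft hsep Z F V V1 y0 Y1 hZ hZc hF hV hFV hzmp hy0 hcl hV1 hY1
  refine Q.q9 K R A φ hφ hft hsep Z F V1 Y1 y0 ?_ hZc ?_ hy0
  · refine ⟨hZ, hF, fun z hz => ?_, fun z hz => ?_, hzmp⟩
    · rw [hFV] at hz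
      exact hz.2
    · rw [hFV] at hz
      filter_upwards [hV.mem_nhds hz.1] with z' hz' h
      rw [hFV]
      exact ⟨hz', h⟩
  · refine ⟨hV1, hcl, fun y hy r hr => ?_, fun z hz z' hz' hzY e => ?_, fun z hz hzY => ?_⟩
    · have h := (hY1 y hy).1
      have hr' : r ∈ y.ker := hr
      rw [h] at hr'
      exact hr'
    · exact (hY1 _ hzY).2.1 z hz z' hz' rfl e.symm
    · exact (hY1 _ hzY).2.2 z hz rfl

namespace NDat

variable {K A I E : Type} [NormedField K] [IsUltrametricDist K] [Finite I] [Finite E]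
  [CommRing A] [IsDomain A] [Algebra K A] [Algebra.FiniteType K A]

/-- (ND8) the structure theorem, without hypotheses. -/
theorem str [CompleteSpace K] {D : NDat K A I E} (hD : D.Ok) : ∃ B c0 c, Str D B c0 c :=
  exists_str stmtQ6 stmtQ7 stmtQ9 stmtSep stmtGp stmtLP stmtPath hD

end NDat

namespace X2

variable {K A : Type} [NormedField K] [IsUltrametricDist K] [CommRing A] [IsDomain A]
  [Algebra K A] [Algebra.FiniteType K A]

/-- The set where a nonzero function does not vanish is dense. -/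
theorem exists_ne' {f : A} (hf : f ≠ 0) (z : Ber K A) {V : Set (Ber K A)} (hV : V ∈ 𝓝 z) :
    ∃ z' ∈ V, z'.v f ≠ 0 := exists_ne stmtQ7 hf z hV

end X2

end Pool.Agent.TD
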