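import Pool.Agent.TD.N.Data
import Pool.Agent.TD.N.Ifc
import Pool.Agent.TD.MT.C1
import Pool.Agent.TD.MT.C3

/-! Local data ND0: elementary consequences (PAPER2.md, ND; module TD_N_BAS). -/

open scoped Topology NNReal

namespace Pool.Agent.TD

section
variable {K A R σ τ : Type} [NormedField K] [CommRing A] [Algebra K A] [CommRing R] [Algebra K R]

/-- A multiplicative seminorm is determined by its Gauss radii. -/
theorem GaussAt.fam_eq {a : σ → A} {ρ : σ → ℝ≥0} {z z' : Ber K A} (h : GaussAt a ρ z)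
    (h' : GaussAt a ρ z') : fam a z = fam a z' := by
  apply Ber.ext_v
  intro P
  rw [fam_v, fam_v, h P, h' P]

theorem gn_X (ρ : σ → ℝ≥0) (i : σ) : gn (K := K) ρ (MvPolynomial.X i) = ρ i := by
  classical
  unfold gn
  rw [MvPolynomial.support_X, Finset.sup_singleton, MvPolynomial.coeff_X, if_pos rfl, nnnorm_one,
    one_mul]
  exact (Finsupp.prod_single_index (h := fun i n => ρ i ^ n) (pow_zero (ρ i))).trans (pow_one _)

theorem gn_C (ρ : σ → ℝ≥0) (c : K) : gn (K := K) ρ (MvPolynomial.C c) = ‖c‖₊ := by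
  classical
  unfold gn
  by_cases hc : c = 0
  · rw [hc, MvPolynomial.C_0, MvPolynomial.support_zero, Finset.sup_empty, nnnorm_zero]
    rfl
  · have h1 : (MvPolynomial.C c : MvPolynomial σ K).support = {0} := by
      rw [MvPolynomial.C_apply, MvPolynomial.support_monomial, if_neg hc]
    rw [h1, Finset.sup_singleton, MvPolynomial.coeff_C, if_pos rfl, Finsupp.prod_zero_index,
      mul_one]

theorem gn_pos {ρ : σ → ℝ≥0} (hρ : ∀ i, 0 < ρ i) {P : MvPolynomial σ K} (hP : P ≠ 0) :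
    0 < gn ρ P := by
  obtain ⟨u, hu⟩ := MvPolynomial.support_nonempty.mpr hP
  have h1 : 0 < ‖P.coeff u‖₊ * u.prod fun i n => ρ i ^ n := by
    apply mul_pos
    · rw [nnnorm_pos]
      exact MvPolynomial.mem_support_iff.mp hu
    · unfold Finsupp.prod
      exact Finset.prod_pos fun i _ => pow_pos (hρ i) _
  exact lt_of_lt_of_le h1 (Finset.le_sup (f := fun u => ‖P.coeff u‖₊ * u.prod fun i n => ρ i ^ n) hu)

theorem GaussAt.v_eq {a : σ → A} {ρ : σ → ℝ≥0} {z : Ber K A} (h : GaussAt a ρ z) (i : σ) :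
    z.v (a i) = ρ i := by
  have h1 := h (MvPolynomial.X i)
  rwa [MvPolynomial.aeval_X, gn_X] at h1

theorem Bas.gn_rename (f : τ → σ) (hf : Function.Injective f) (ρ : σ → ℝ≥0) (P : MvPolynomial τ K) :
    gn ρ (MvPolynomial.rename f P) = gn (fun i => ρ (f i)) P := by
  classical
  unfold gn
  rw [MvPolynomial.support_rename_of_injective hf, Finset.sup_image]
  apply Finset.sup_congr rfl
  intro u _
  simp only [Function.comp_apply]
  rw [MvPolynomial.coeff_rename_mapDomain f hf]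
  congr 1
  exact Finsupp.prod_mapDomain_index_inj hf

/-- The substitution `t = 0`. -/
noncomputable def Bas.sub0 (K τ σ : Type) [NormedField K] :
    MvPolynomial (τ ⊕ σ) K →ₐ[K] MvPolynomial σ K :=
  MvPolynomial.aeval (Sum.elim (fun _ => 0) MvPolynomial.X)

theorem Bas.sub0_rename (Q : MvPolynomial σ K) :
    Bas.sub0 K τ σ (MvPolynomial.rename Sum.inr Q) = Q := by
  unfold Bas.sub0
  rw [MvPolynomial.aeval_rename]
  have h : (Sum.elim (fun _ : τ => (0 : MvPolynomial σ K)) MvPolynomial.X) ∘ Sum.inr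
      = MvPolynomial.X := by
    funext i
    rfl
  rw [h, MvPolynomial.aeval_X_left]
  rfl

theorem Bas.sub0_monomial {w : τ ⊕ σ →₀ ℕ} {i : τ} (hi : w (Sum.inl i) ≠ 0) (c : K) :
    Bas.sub0 K τ σ (MvPolynomial.monomial w c) = 0 := by
  unfold Bas.sub0
  rw [MvPolynomial.aeval_monomial]
  have h : (w.prod fun j n => (Sum.elim (fun _ : τ => (0 : MvPolynomial σ K)) MvPolynomial.X j) ^ n)
      = 0 := by
    unfold Finsupp.prod
    apply Finset.prod_eq_zero (Finsupp.mem_support_iff.mpr hi)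
    exact zero_pow hi
  rw [h, mul_zero]

theorem Bas.inr_cases (w : τ ⊕ σ →₀ ℕ) :
    (∃ i : τ, w (Sum.inl i) ≠ 0) ∨ ∃ u : σ →₀ ℕ, w = u.mapDomain Sum.inr := by
  by_cases h : ∃ i : τ, w (Sum.inl i) ≠ 0
  · exact Or.inl h
  · push Not at h
    refine Or.inr ⟨w.comapDomain Sum.inr Sum.inr_injective.injOn, ?_⟩
    symm
    apply Finsupp.mapDomain_comapDomain Sum.inr Sum.inr_injective
    intro j hj
    cases j with
    | inl i => exact absurd (h i) (Finsupp.mem_support_iff.mp hj)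
    | inr j => exact ⟨j, rfl⟩

theorem Bas.coeff_sub0 (P : MvPolynomial (τ ⊕ σ) K) (u : σ →₀ ℕ) :
    (Bas.sub0 K τ σ P).coeff u = P.coeff (u.mapDomain Sum.inr) := by
  classical
  induction P using MvPolynomial.induction_on' with
  | monomial w c =>
    rcases Bas.inr_cases w with ⟨i, hi⟩ | ⟨u', rfl⟩
    · rw [Bas.sub0_monomial hi, MvPolynomial.coeff_zero, MvPolynomial.coeff_monomial, if_neg]
      rintro rfl
      apply hi
      apply Finsupp.mapDomain_notin_range
      rintro ⟨j, hj⟩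
      exact Sum.inr_ne_inl hj
    · rw [← MvPolynomial.rename_monomial, Bas.sub0_rename, MvPolynomial.rename_monomial,
        MvPolynomial.coeff_monomial, MvPolynomial.coeff_monomial]
      have h : (Finsupp.mapDomain (Sum.inr : σ → τ ⊕ σ) u' = Finsupp.mapDomain Sum.inr u)
          ↔ u' = u := (Finsupp.mapDomain_injective Sum.inr_injective).eq_iff
      by_cases h' : u' = u
      · rw [if_pos h', if_pos (h.mpr h')]
      · rw [if_neg h', if_neg fun h'' => h' (h.mp h'')]
  | add P Q hP hQ => rw [map_add, MvPolynomial.coeff_add, hP, hQ, MvPolynomial.coeff_add]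

theorem Bas.gn_sub0 (ρ : σ → ℝ≥0) (P : MvPolynomial (τ ⊕ σ) K) :
    gn (Sum.elim (fun _ => 0) ρ) P = gn ρ (Bas.sub0 K τ σ P) := by
  have hprod : ∀ u : σ →₀ ℕ, ((u.mapDomain (Sum.inr : σ → τ ⊕ σ)).prod
      fun i n => (Sum.elim (fun _ : τ => (0 : ℝ≥0)) ρ i) ^ n) = u.prod fun i n => ρ i ^ n := fun u =>
    Finsupp.prod_mapDomain_index_inj Sum.inr_injective
  apply le_antisymm
  · unfold gn
    apply Finset.sup_le
    intro w hw
    rcases Bas.inr_cases w with ⟨i, hi⟩ | ⟨u, rfl⟩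
    · have h : (w.prod fun j n => (Sum.elim (fun _ : τ => (0 : ℝ≥0)) ρ j) ^ n) = 0 := by
        unfold Finsupp.prod
        apply Finset.prod_eq_zero (Finsupp.mem_support_iff.mpr hi)
        exact zero_pow hi
      rw [h, mul_zero]
      exact bot_le
    · rw [hprod, ← Bas.coeff_sub0]
      apply Finset.le_sup (f := fun u => ‖(Bas.sub0 K τ σ P).coeff u‖₊ * u.prod fun i n => ρ i ^ n)
      rw [MvPolynomial.mem_support_iff, Bas.coeff_sub0]
      exact MvPolynomial.mem_support_iff.mp hw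
  · unfold gn
    apply Finset.sup_le
    intro u hu
    rw [Bas.coeff_sub0, ← hprod]
    apply Finset.le_sup (f := fun u => ‖P.coeff u‖₊ * u.prod
      fun i n => (Sum.elim (fun _ : τ => (0 : ℝ≥0)) ρ i) ^ n)
    rw [MvPolynomial.mem_support_iff, Bas.coeff_sub0] at hu
    rw [MvPolynomial.mem_support_iff]
    exact hu

theorem Bas.aeval_sub0 (a : σ → A) (P : MvPolynomial (τ ⊕ σ) K) :
    MvPolynomial.aeval a (Bas.sub0 K τ σ P) = MvPolynomial.aeval (Sum.elim (fun _ => 0) a) P := by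
  have h : (MvPolynomial.aeval a).comp (Bas.sub0 K τ σ)
      = (MvPolynomial.aeval (Sum.elim (fun _ => 0) a) : MvPolynomial (τ ⊕ σ) K →ₐ[K] A) := by
    apply MvPolynomial.algHom_ext
    intro i
    rw [AlgHom.comp_apply]
    unfold Bas.sub0
    rw [MvPolynomial.aeval_X, MvPolynomial.aeval_X]
    cases i with
    | inl i => simp
    | inr i => simp
  exact DFunLike.congr_fun h P

theorem Bas.aeval_ker {z : Ber K A} {b b' : σ → A} (h : ∀ i, z.v (b i - b' i) = 0)
    (P : MvPolynomial σ K) : z.v (MvPolynomial.aeval b P - MvPolynomial.aeval b' P) = 0 := by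
  have h1 : (Ideal.Quotient.mkₐ K z.ker).comp (MvPolynomial.aeval b)
      = (Ideal.Quotient.mkₐ K z.ker).comp (MvPolynomial.aeval b') := by
    apply MvPolynomial.algHom_ext
    intro i
    rw [AlgHom.comp_apply, AlgHom.comp_apply, MvPolynomial.aeval_X, MvPolynomial.aeval_X]
    exact Ideal.Quotient.eq.mpr (h i)
  have h2 := DFunLike.congr_fun h1 P
  exact Ideal.Quotient.eq.mp h2

theorem Bas.v_eq_of_sub {z : Ber K A} {x y : A} (h : z.v (x - y) = 0) : z.v x = z.v y := by
  apply le_antisymm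
  · have h1 := z.add (x - y) y
    rw [sub_add_cancel, h] at h1
    exact h1.trans (max_le (z.nonneg y) le_rfl)
  · have h1 := z.add (y - x) x
    rw [sub_add_cancel, z.sub_comm y x, h] at h1
    exact h1.trans (max_le (z.nonneg x) le_rfl)

theorem Bas.continuous_gn (P : MvPolynomial σ K) : Continuous fun ρ : σ → ℝ≥0 => gn ρ P := by
  unfold gn
  apply Continuous.finset_sup_apply
  intro u _
  apply Continuous.mul continuous_const
  unfold Finsupp.prod
  exact continuous_finset_prod _ fun i _ => (continuous_apply i).pow _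

/-- Restriction of a Gauss family to part of the variables. -/
theorem GaussAt.comp {a : σ → A} {ρ : σ → ℝ≥0} {z : Ber K A} (h : GaussAt a ρ z) (f : τ → σ)
    (hf : Function.Injective f) : GaussAt (fun i => a (f i)) (fun i => ρ (f i)) z := by
  intro P
  have h1 := h (MvPolynomial.rename f P)
  rw [MvPolynomial.aeval_rename, Bas.gn_rename f hf] at h1
  exact h1

/-- Adding variables which vanish. -/
theorem GaussAt.sum_zero {a : σ → A} {ρ : σ → ℝ≥0} {z : Ber K A} (h : GaussAt a ρ z) {t : τ → A}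
    (ht : ∀ i, z.v (t i) = 0) : GaussAt (Sum.elim t a) (Sum.elim (fun _ => 0) ρ) z := by
  intro P
  have h1 : z.v (MvPolynomial.aeval (Sum.elim t a) P
      - MvPolynomial.aeval (Sum.elim (fun _ => 0) a) P) = 0 := by
    apply Bas.aeval_ker
    intro i
    cases i with
    | inl i =>
      show z.v (t i - 0) = 0
      rw [sub_zero, ht i]
    | inr i =>
      show z.v (a i - a i) = 0
      rw [sub_self, z.zero]
  rw [Bas.v_eq_of_sub h1, ← Bas.aeval_sub0, h, Bas.gn_sub0]

/-- The set where a finite family is Gauss is closed. -/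
theorem isClosed_gaussAt (a : σ → A) (ρ : σ → ℝ≥0) : IsClosed {z : Ber K A | GaussAt a ρ z} := by
  have h : {z : Ber K A | GaussAt a ρ z}
      = ⋂ P : MvPolynomial σ K, {z : Ber K A | z.v (MvPolynomial.aeval a P) = gn ρ P} := by
    ext z
    rw [Set.mem_iInter]
    rfl
  rw [h]
  exact isClosed_iInter fun P => isClosed_eq (Ber.continuous_v _) continuous_const

/-- Limits of Gauss points. -/
theorem GaussAt.of_tendsto [Finite σ] {a : σ → A} {ι : Type} {l : Filter ι} [l.NeBot]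
    {ρ : ι → σ → ℝ≥0} {ρ0 : σ → ℝ≥0} (hρ : Filter.Tendsto ρ l (𝓝 ρ0)) {z : ι → Ber K A}
    {z0 : Ber K A} (hz : Filter.Tendsto z l (𝓝 z0)) (h : ∀ᶠ i in l, GaussAt a (ρ i) (z i)) :
    GaussAt a ρ0 z0 := by
  intro P
  have h1 : Filter.Tendsto (fun i => (z i).v (MvPolynomial.aeval a P)) l
      (𝓝 (z0.v (MvPolynomial.aeval a P))) :=
    ((Ber.continuous_v (MvPolynomial.aeval a P)).tendsto z0).comp hz
  have h2 : Filter.Tendsto (fun i => ((gn (ρ i) P : ℝ≥0) : ℝ)) l (𝓝 ((gn ρ0 P : ℝ≥0) : ℝ)) :=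
    (((NNReal.continuous_coe).comp (Bas.continuous_gn P)).tendsto ρ0).comp hρ
  refine tendsto_nhds_unique_of_eventuallyEq h1 h2 ?_
  filter_upwards [h] with i hi
  exact hi P

end

namespace NDat

variable {K A I E : Type} [NormedField K] [CommRing A] [Algebra K A] {D : NDat K A I E}

theorem yc_e0 (hD : D.Ok) (z : Ber K A) : D.yc z D.e0 = 0 := by
  unfold yc
  rw [hD.T0, hD.ρ0, z.one]
  simp

theorem Bas.rd_coe (y : E → ℝ) (e : E) : ((D.rd y e : ℝ≥0) : ℝ) = D.ρ e * Real.exp (y e) := by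
  unfold rd
  rw [NNReal.coe_mul, Real.coe_toNNReal _ (Real.exp_pos _).le]

theorem v_T (hD : D.Ok) {z : Ber K A} (hz : z ∈ D.V0) (e : E) :
    z.v (D.T e) = D.rd (D.yc z) e := by
  have h1 : 0 < z.v (D.T e) := lt_of_le_of_ne (z.nonneg _) (hD.Tne z hz e).symm
  have h2 : (0 : ℝ) < D.ρ e := by exact_mod_cast hD.ρpos e
  rw [Bas.rd_coe]
  unfold yc
  rw [Real.exp_sub, Real.exp_log h1, Real.exp_log h2]
  field_simp

theorem v_T_Fw (hD : D.Ok) {z : Ber K A} (hz : z ∈ D.Fw) (e : E) : z.v (D.T e) = D.ρ e := by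
  rw [v_T hD hz.1 e, Bas.rd_coe, hz.2.2 e, Real.exp_zero, mul_one]

theorem yc_of_v (hD : D.Ok) {z : Ber K A} {y : E → ℝ} {e : E} (h : z.v (D.T e) = D.rd y e) :
    D.yc z e = y e := by
  have h2 : (0 : ℝ) < D.ρ e := by exact_mod_cast hD.ρpos e
  unfold yc
  rw [h, Bas.rd_coe, Real.log_mul h2.ne' (Real.exp_pos _).ne', Real.log_exp]
  ring

/-- `yc` is continuous on `V0`. -/
theorem yc_cont (hD : D.Ok) (e : E) : ContinuousOn (fun z : Ber K A => D.yc z e) D.V0 := by
  unfold yc
  exact ((Ber.continuous_v (D.T e)).continuousOn.log fun z hz => hD.Tne z hz e).sub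
    continuousOn_const

theorem isCompact_Fw (hD : D.Ok) : IsCompact D.Fw := by
  have h : D.Fw = D.V0 ∩ ((⋂ i, {z : Ber K A | z.v (D.t i) = 0}) ∩
      ⋂ e, {z : Ber K A | z.v (D.T e) = D.ρ e}) := by
    ext z
    constructor
    · intro hz
      refine ⟨hz.1, Set.mem_iInter.mpr hz.2.1, Set.mem_iInter.mpr fun e => v_T_Fw hD hz e⟩
    · rintro ⟨h1, h2, h3⟩
      refine ⟨h1, fun i => Set.mem_iInter.mp h2 i, fun e => ?_⟩
      have h4 : z.v (D.T e) = D.ρ e := Set.mem_iInter.mp h3 e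
      unfold yc
      rw [h4, sub_self]
  rw [h]
  apply hD.comp.inter_right
  apply IsClosed.inter
  · exact isClosed_iInter fun i => isClosed_eq (Ber.continuous_v _) continuous_const
  · exact isClosed_iInter fun i => isClosed_eq (Ber.continuous_v _) continuous_const

/-- The sets `{|t| < δ, |y| < δ}` form a basis of neighbourhoods of `F_w`. -/
theorem small [Finite I] [Finite E] (hD : D.Ok) {U : Set (Ber K A)} (hU : IsOpen U)
    (h : D.Fw ⊆ U) : ∃ δ : ℝ, 0 < δ ∧ δ ≤ D.δ0 ∧ ∀ z ∈ D.V0, (∀ i, z.v (D.t i) < δ) →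
      (∀ e, |D.yc z e| < δ) → z ∈ U := by
  classical
  cases nonempty_fintype I
  cases nonempty_fintype E
  have hK : IsCompact (D.V0 \ U) := hD.comp.diff hU
  rcases (D.V0 \ U).eq_empty_or_nonempty with he | hne
  · refine ⟨D.δ0, hD.δpos, le_rfl, fun z hz _ _ => ?_⟩
    by_contra hc
    have : z ∈ D.V0 \ U := ⟨hz, hc⟩
    rw [he] at this
    exact this
  · set m : Ber K A → ℝ := fun z => ∑ i, z.v (D.t i) + ∑ e, |D.yc z e| with hm
    have hmc : ContinuousOn m (D.V0 \ U) := by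
      apply ContinuousOn.add
      · exact continuousOn_finset_sum _ fun i _ => (Ber.continuous_v _).continuousOn
      · exact continuousOn_finset_sum _ fun e _ =>
          ((yc_cont hD e).mono Set.diff_subset).abs
    obtain ⟨z0, hz0, hmin⟩ := hK.exists_isMinOn hne hmc
    have hpos : 0 < m z0 := by
      have h0 : 0 ≤ m z0 := add_nonneg (Finset.sum_nonneg fun i _ => z0.nonneg _)
        (Finset.sum_nonneg fun e _ => abs_nonneg _)
      apply lt_of_le_of_ne h0
      intro h00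
      have h1 : 0 ≤ ∑ i, z0.v (D.t i) := Finset.sum_nonneg fun i _ => z0.nonneg _
      have h2 : 0 ≤ ∑ e, |D.yc z0 e| := Finset.sum_nonneg fun e _ => abs_nonneg _
      have h3 : m z0 = ∑ i, z0.v (D.t i) + ∑ e, |D.yc z0 e| := rfl
      have h4 : ∑ i, z0.v (D.t i) = 0 := by linarith
      have h5 : ∑ e, |D.yc z0 e| = 0 := by linarith
      rw [Finset.sum_eq_zero_iff_of_nonneg fun i _ => z0.nonneg _] at h4
      rw [Finset.sum_eq_zero_iff_of_nonneg fun e _ => abs_nonneg _] at h5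
      apply hz0.2
      apply h
      exact ⟨hz0.1, fun i => h4 i (Finset.mem_univ i), fun e => abs_eq_zero.mp (h5 e (Finset.mem_univ e))⟩
    set N : ℝ := (Fintype.card I : ℝ) + Fintype.card E with hN
    have hN0 : 0 ≤ N := by positivity
    have hδ : 0 < m z0 / (N + 1) := by positivity
    refine ⟨min D.δ0 (m z0 / (N + 1)), lt_min hD.δpos hδ, min_le_left _ _, ?_⟩
    intro z hz h1 h2
    by_contra hc
    have h3 : m z0 ≤ m z := hmin ⟨hz, hc⟩
    have h4 : ∑ i, z.v (D.t i) ≤ (Fintype.card I : ℝ) * (m z0 / (N + 1)) := by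
      have := Finset.sum_le_card_nsmul Finset.univ (fun i => z.v (D.t i)) (m z0 / (N + 1))
        fun i _ => ((h1 i).trans_le (min_le_right _ _)).le
      rwa [Finset.card_univ, nsmul_eq_mul] at this
    have h5 : ∑ e, |D.yc z e| ≤ (Fintype.card E : ℝ) * (m z0 / (N + 1)) := by
      have := Finset.sum_le_card_nsmul Finset.univ (fun e => |D.yc z e|) (m z0 / (N + 1))
        fun i _ => ((h2 i).trans_le (min_le_right _ _)).le
      rwa [Finset.card_univ, nsmul_eq_mul] at this
    have h6 : m z ≤ N * (m z0 / (N + 1)) := by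
      have : m z = ∑ i, z.v (D.t i) + ∑ e, |D.yc z e| := rfl
      rw [this, hN, add_mul]
      exact add_le_add h4 h5
    have h7 : N * (m z0 / (N + 1)) < m z0 := by
      have : N * (m z0 / (N + 1)) + m z0 / (N + 1) = m z0 := by field_simp
      linarith
    linarith

/-- Points over the same generic point are in the same facet. -/
theorem mem_Fry [Finite E] (hD : D.Ok) {B : Set E} {r : I → ℝ≥0} {y : E → ℝ} {δ : ℝ}
    (hB : D.M.IsBase B) (hg : D.Gen δ B r y) {z : Ber K A} (hz : z ∈ D.V0)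
    (hr : ∀ i, z.v (D.t i) = r i) (hy : ∀ b ∈ B, D.yc z b = y b) : z ∈ D.Fry r y := by
  have h1 := BergM.eq_of_base hg.berg (hD.berg z hz) hD.ground hB (fun b hb => (hy b hb).symm)
    hg.inj
  exact ⟨hz, hr, fun e => (congrFun h1 e).symm⟩

/-- The same for a point at which the family is Gauss. -/
theorem mem_Fry' [Finite E] (hD : D.Ok) {B : Set E} {r : I → ℝ≥0} {y : E → ℝ} {δ : ℝ}
    (hB : D.M.IsBase B) (hg : D.Gen δ B r y) {z : Ber K A} (hz : z ∈ D.V0)
    (h : GaussAt (D.vr (B \ {D.e0})) (Sum.elim r fun e => D.rd y e.1) z) : z ∈ D.Fry r y := by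
  apply mem_Fry hD hB hg hz
  · intro i
    exact h.v_eq (Sum.inl i)
  · intro b hb
    by_cases hb0 : b = D.e0
    · rw [hb0, yc_e0 hD z, hg.y0]
    · exact yc_of_v hD (h.v_eq (Sum.inr ⟨b, hb, hb0⟩))

/-- Generic points exist. -/
theorem exists_Gen [Finite I] [Finite E] (hD : D.Ok) {B : Set E} (hB : D.M.IsBase B)
    (he0 : D.e0 ∈ B) {δ : ℝ} (hδ : 0 < δ) : ∃ r y, D.Gen δ B r y := by
  obtain ⟨y, h1, h2, h3, h4⟩ := exists_gen hD.ground hD.loopless hB he0 hδ
  refine ⟨fun _ => (δ / 2).toNNReal, y, ?_, ?_, h1, h2, h3, h4⟩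
  · intro _
    exact Real.toNNReal_pos.mpr (by linarith)
  · intro _
    rw [Real.coe_toNNReal _ (by linarith)]
    linarith

theorem Gen.mono {B : Set E} {r : I → ℝ≥0} {y : E → ℝ} {δ δ' : ℝ} (h : D.Gen δ B r y)
    (hδ : δ ≤ δ') : D.Gen δ' B r y := by
  exact ⟨h.rpos, fun i => (h.rlt i).trans_le hδ, h.berg, h.y0, fun e => (h.ylt e).trans_le hδ, h.inj⟩

/-- A basis containing `e0` exists. -/
theorem exists_base (hD : D.Ok) : ∃ B, D.M.IsBase B ∧ D.e0 ∈ B := by
  obtain ⟨B, hB, hs⟩ := (hD.loopless D.e0).exists_isBase_superset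
  exact ⟨B, hB, hs rfl⟩

end NDat

end Pool.Agent.TD
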