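import Pool.Agent.TD.N.Defs

/-!
# Stage 3: the local data ND0 at a point of a smooth tropicalization (PAPER2.md, ND0)

`t i` are the coordinates which are `-∞` at the point `w`, `T e` the functions given by the elements
of the matroid (`T e0 = 1`).  `V0` is a compact neighbourhood of `F_w = D.Fw`.
-/

open scoped Topology NNReal

namespace Pool.Agent.TD

/-- Data at a point `w`. -/
structure NDat (K A I E : Type) [NormedField K] [CommRing A] [Algebra K A] where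
  t : I → A
  T : E → A
  ρ : E → ℝ≥0
  e0 : E
  M : Matroid E
  V0 : Set (Ber K A)
  δ0 : ℝ

namespace NDat

variable {K A I E : Type} [NormedField K] [CommRing A] [Algebra K A] (D : NDat K A I E)

/-- The tropical coordinates `y_e = log |T_e| - log ρ_e`. -/
noncomputable def yc (z : Ber K A) (e : E) : ℝ := Real.log (z.v (D.T e)) - Real.log (D.ρ e)

/-- The fibre `F_w`. -/
def Fw : Set (Ber K A) := {z | z ∈ D.V0 ∧ (∀ i, z.v (D.t i) = 0) ∧ ∀ e, D.yc z e = 0}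

/-- The fibre `F_(r,y)`. -/
def Fry (r : I → ℝ≥0) (y : E → ℝ) : Set (Ber K A) :=
  {z | z ∈ D.V0 ∧ (∀ i, z.v (D.t i) = r i) ∧ ∀ e, D.yc z e = y e}

/-- The radius `ρ_e exp y_e`. -/
noncomputable def rd (y : E → ℝ) (e : E) : ℝ≥0 := D.ρ e * (Real.exp (y e)).toNNReal

/-- The functions `t` and `T_e`, `e ∈ J`. -/
def vr (J : Set E) : I ⊕ J → A := Sum.elim D.t fun e => D.T e.1

/-- The homomorphism `K[t, X_e : e ∈ J] → A`. -/
noncomputable def ph (J : Set E) : MvPolynomial (I ⊕ J) K →ₐ[K] A := MvPolynomial.aeval (D.vr J)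

/-- The homomorphism `K[X_e : e ∈ J] → A`. -/
noncomputable def ph0 (J : Set E) : MvPolynomial J K →ₐ[K] A :=
  MvPolynomial.aeval fun e : J => D.T e.1

/-- `(r, y)` is generic for the basis `B`, of size less than `δ`. -/
structure Gen (δ : ℝ) (B : Set E) (r : I → ℝ≥0) (y : E → ℝ) : Prop where
  rpos : ∀ i, 0 < r i
  rlt : ∀ i, (r i : ℝ) < δ
  berg : BergM D.M y
  y0 : y D.e0 = 0
  ylt : ∀ e, |y e| < δ
  inj : Set.InjOn y B

/-- The top point of a facet. -/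
structure IsTop (B : Set E) (r : I → ℝ≥0) (y : E → ℝ) (z : Ber K A) : Prop where
  mem : z ∈ D.Fry r y
  max : ∀ z' ∈ D.Fry r y, z' ≤ z
  gauss : GaussAt (D.vr (B \ {D.e0})) (Sum.elim r fun e => D.rd y e.1) z

/-- The properties of the data. -/
structure Ok : Prop where
  ρpos : ∀ e, 0 < D.ρ e
  ρ0 : D.ρ D.e0 = 1
  T0 : D.T D.e0 = 1
  ground : D.M.E = Set.univ
  loopless : ∀ e, D.M.Indep {e}
  δpos : 0 < D.δ0
  comp : IsCompact D.V0
  Tne : ∀ z ∈ D.V0, ∀ e, z.v (D.T e) ≠ 0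
  ne : D.Fw.Nonempty
  nhd : ∀ z ∈ D.Fw, D.V0 ∈ 𝓝 z
  berg : ∀ z ∈ D.V0, BergM D.M (D.yc z)
  top : ∀ B r y, D.M.IsBase B → D.e0 ∈ B → D.Gen D.δ0 B r y → ∃ z, D.IsTop B r y z
  uniq : ∀ B r y, D.M.IsBase B → D.e0 ∈ B → D.Gen D.δ0 B r y → ∀ z ∈ D.Fry r y,
    ∀ z' ∈ D.Fry r y, fam (D.vr (B \ {D.e0})) z = fam (D.vr (B \ {D.e0})) z' → z = z'
  dens : ∀ B r y, D.M.IsBase B → D.e0 ∈ B → D.Gen D.δ0 B r y → ∀ z ∈ D.Fry r y,
    Dens (D.ph (B \ {D.e0})) z

end NDat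

end Pool.Agent.TD
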