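import Pool.Agent.TD.N.Z1

/-! Local data ND0: degree one at the maximal point (PAPER2.md, ND5 v; module TD_N_DZ). -/

open scoped Topology NNReal

namespace Pool.Agent.TD

namespace NDat

set_option linter.unusedSectionVars false

variable {K A I E : Type} [NormedField K] [IsUltrametricDist K] [Finite I] [Finite E]
  [CommRing A] [IsDomain A] [Algebra K A] [Algebra.FiniteType K A] {D : NDat K A I E}

/-- The Gauss points of generic points, for the basis `B`. -/
def Y1 (D : NDat K A I E) (B : Set E) (δ : ℝ) :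
    Set (Ber K (MvPolynomial (I ⊕ (B \ {D.e0} : Set E)) K)) :=
  {w | ∃ r y, D.Gen δ B r y ∧ IsGp (Sum.elim r fun e => D.rd y e.1) w}

theorem rd_pos (hD : D.Ok) (y : E → ℝ) (e : E) : 0 < D.rd y e := by
  unfold rd
  exact mul_pos (hD.ρpos e) (Real.toNNReal_pos.2 (Real.exp_pos _))

theorem gaussAt_of_res {B : Set E} {ρ : I ⊕ (B \ {D.e0} : Set E) → ℝ≥0}
    {w : Ber K (MvPolynomial (I ⊕ (B \ {D.e0} : Set E)) K)} (hw : IsGp ρ w) {z : Ber K A}
    (h : Ber.res (D.ph (B \ {D.e0})) z = w) : GaussAt (D.vr (B \ {D.e0})) ρ z := by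
  intro P
  have h1 := hw P
  rw [← h] at h1
  exact h1

/-- The hypotheses of (Q9) at the points of `Y1`. -/
theorem Y1_spec (hD : D.Ok) {B : Set E} (hB : D.M.IsBase B) (he0 : D.e0 ∈ B) :
    ∀ w ∈ D.Y1 B D.δ0, w.ker = ⊥ ∧
      (∀ z ∈ D.V0, ∀ z' ∈ D.V0, Ber.res (D.ph (B \ {D.e0})) z = w →
        Ber.res (D.ph (B \ {D.e0})) z' = w → z = z') ∧
      ∀ z ∈ D.V0, Ber.res (D.ph (B \ {D.e0})) z = w → Dens (D.ph (B \ {D.e0})) z := by
  rintro w ⟨r, y, hg, hw⟩
  refine ⟨?_, ?_, ?_⟩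
  · rw [eq_bot_iff]
    intro P hP
    rw [Ber.mem_ker] at hP
    rw [Ideal.mem_bot]
    by_contra hne
    have h1 : 0 < gn (Sum.elim r fun e : (B \ {D.e0} : Set E) => D.rd y e.1) P := by
      refine gn_pos (fun i => ?_) hne
      rcases i with i | e
      · exact hg.rpos i
      · exact rd_pos hD y e.1
    have h2 := hw P
    rw [hP] at h2
    have h3 : (0 : ℝ) < ((gn (Sum.elim r fun e : (B \ {D.e0} : Set E) => D.rd y e.1) P : ℝ≥0) : ℝ) := by
      exact_mod_cast h1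
    exact absurd h2 h3.ne
  · intro z hz z' hz' h h'
    have hF := mem_Fry' hD hB hg hz (gaussAt_of_res hw h)
    have hF' := mem_Fry' hD hB hg hz' (gaussAt_of_res hw h')
    exact hD.uniq B r y hB he0 hg z hF z' hF' (h.trans h'.symm)
  · intro z hz h
    exact hD.dens B r y hB he0 hg z (mem_Fry' hD hB hg hz (gaussAt_of_res hw h))

/-- The Gauss point of `B` is a limit of points of `Y1`. -/
theorem closure_Y1 (hg : StmtGp) (hD : D.Ok) {B : Set E} (hB : D.M.IsBase B) (he0 : D.e0 ∈ B)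
    {w : Ber K (MvPolynomial (I ⊕ (B \ {D.e0} : Set E)) K)} (hw : IsGp (D.eta B) w) :
    w ∈ closure (D.Y1 B D.δ0) := by
  obtain ⟨g, hgc, hgp⟩ := hg K (I ⊕ (B \ {D.e0} : Set E))
  have hwg : w = g (D.eta B) := Ber.ext_v fun P => (hw P).trans (hgp (D.eta B) P).symm
  have hpos : ∀ k : ℕ, (0 : ℝ) < min (1 / ((k : ℝ) + 1)) D.δ0 := fun k =>
    lt_min (by positivity) hD.δpos
  choose r y hgen using fun k : ℕ => exists_Gen hD hB he0 (hpos k)
  have hlim : Filter.Tendsto (fun k : ℕ => min (1 / ((k : ℝ) + 1)) D.δ0) Filter.atTop (𝓝 0) := by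
    have h1 : Filter.Tendsto (fun k : ℕ => 1 / ((k : ℝ) + 1)) Filter.atTop (𝓝 0) :=
      tendsto_one_div_add_atTop_nhds_zero_nat
    have h2 := h1.min (tendsto_const_nhds (x := D.δ0))
    rwa [min_eq_left hD.δpos.le] at h2
  have hrad : Filter.Tendsto (fun k : ℕ => (Sum.elim (r k) fun e => D.rd (y k) e.1 :
      I ⊕ (B \ {D.e0} : Set E) → ℝ≥0)) Filter.atTop (𝓝 (D.eta B)) := by
    rw [tendsto_pi_nhds]
    rintro (i | e)
    · show Filter.Tendsto (fun k : ℕ => r k i) Filter.atTop (𝓝 0)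
      rw [← NNReal.tendsto_coe]
      refine squeeze_zero (fun k => NNReal.coe_nonneg _) (fun k => ((hgen k).rlt i).le) hlim
    · show Filter.Tendsto (fun k : ℕ => D.rd (y k) e.1) Filter.atTop (𝓝 (D.ρ e.1))
      have h1 : Filter.Tendsto (fun k : ℕ => y k e.1) Filter.atTop (𝓝 0) :=
        squeeze_zero_norm (fun k => ((hgen k).ylt e.1).le) hlim
      have h2 : Filter.Tendsto (fun k : ℕ => D.ρ e.1 * (Real.exp (y k e.1)).toNNReal)
          Filter.atTop (𝓝 (D.ρ e.1 * (Real.exp 0).toNNReal)) :=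
        ((continuous_real_toNNReal.tendsto _).comp ((Real.continuous_exp.tendsto 0).comp h1)).const_mul _
      rw [Real.exp_zero, Real.toNNReal_one, mul_one] at h2
      exact h2
  rw [hwg]
  refine mem_closure_of_tendsto ((hgc.tendsto _).comp hrad) (Filter.Eventually.of_forall fun k => ?_)
  exact ⟨r k, y k, (hgen k).mono (min_le_right _ _), hgp _⟩

/-- (ND5 v) -/
theorem dens_z1 [CompleteSpace K] (h6 : StmtQ6) (h7 : StmtQ7) (h9 : StmtQ9) (hS : StmtSep)
    (hg : StmtGp) (hD : D.Ok) {z1 : Ber K A} (h1 : IsZ1 D z1) {B : Set E} (hB : D.M.IsBase B)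
    (he0 : D.e0 ∈ B) : Dens (D.ph (B \ {D.e0})) z1 := by
  obtain ⟨V, hV, hOm⟩ := Om_open h6 h7 hg hD hB he0
  have hmem := h1.mem B hB he0
  have hz1 : z1 ∈ D.Om B := by rw [hmem]; exact rfl
  have hz1' := (mem_Om_iff hD).1 hz1
  have hft : (D.ph (B \ {D.e0})).toRingHom.FiniteType := by
    refine RingHom.FiniteType.of_comp_finiteType (f := algebraMap K _) ?_
    have h2 : (D.ph (B \ {D.e0})).toRingHom.comp (algebraMap K _) = algebraMap K A := by
      ext c
      exact (D.ph (B \ {D.e0})).commutes c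
    rw [h2]
    exact RingHom.finiteType_algebraMap.2 inferInstance
  have key := h9 K (MvPolynomial (I ⊕ (B \ {D.e0} : Set E)) K) A (D.ph (B \ {D.e0}))
    (ph_injective hD hB he0) hft (fun a => sep h6 hS hD hB he0 a)
    {Ber.res (D.ph (B \ {D.e0})) z1} {z1} V D.V0 (Ber.res (D.ph (B \ {D.e0})) z1)
    (D.Y1 B D.δ0) isClosed_singleton isPreconnected_singleton isCompact_singleton hV ?_ ?_ ?_ ?_ ?_
    (Y1_spec hD hB he0)
  · exact key.2.2 z1 rfl
  · rw [← hmem, hOm]
    ext z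
    simp only [Set.mem_inter_iff, Set.mem_ofPred_eq, Set.mem_preimage, Set.mem_singleton_iff]
    refine and_congr_right fun _ => ?_
    constructor
    · intro h
      exact h.fam_eq hz1'.2
    · intro h P
      have h3 := hz1'.2 P
      have h4 : (Ber.res (D.ph (B \ {D.e0})) z).v P = (Ber.res (D.ph (B \ {D.e0})) z1).v P := by
        rw [h]
      exact h4.trans h3
  · intro z hz
    rw [Set.mem_singleton_iff.1 hz]
    exact Om_zmp h6 h7 hg hD hB he0 hz1
  · exact ⟨z1, rfl, rfl⟩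
  · exact closure_Y1 hg hD hB he0 hz1'.2
  · intro z hz
    rw [Set.mem_singleton_iff.1 hz]
    exact hD.nhd z1 hz1'.1

theorem v_eq_of_sub {z : Ber K A} {a b : A} (h : z.v (a - b) = 0) : z.v a = z.v b := by
  have h1 : z.v a ≤ z.v b := by
    calc z.v a = z.v ((a - b) + b) := by rw [sub_add_cancel]
      _ ≤ max (z.v (a - b)) (z.v b) := z.add _ _
      _ = z.v b := by rw [h, max_eq_right (z.nonneg _)]
  have h2 : z.v b ≤ z.v a := by
    calc z.v b = z.v ((b - a) + a) := by rw [sub_add_cancel]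
      _ ≤ max (z.v (b - a)) (z.v a) := z.add _ _
      _ = z.v a := by rw [z.sub_comm, h, max_eq_right (z.nonneg _)]
  exact le_antisymm h1 h2

/-- Dropping the variables `t`. -/
noncomputable def drp (J : Set E) : MvPolynomial (I ⊕ J) K →ₐ[K] MvPolynomial J K :=
  MvPolynomial.aeval (Sum.elim (fun _ => 0) MvPolynomial.X)

theorem sub_drp {J : Set E} {z : Ber K A} (hz : ∀ i, z.v (D.t i) = 0)
    (b : MvPolynomial (I ⊕ J) K) : z.v (D.ph J b - D.ph0 J (drp (K := K) (I := I) J b)) = 0 := by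
  have h1 : (Ideal.Quotient.mkₐ K z.ker).comp (D.ph J) =
      (Ideal.Quotient.mkₐ K z.ker).comp ((D.ph0 J).comp (drp (K := K) (I := I) J)) := by
    refine MvPolynomial.algHom_ext fun i => ?_
    rcases i with i | e
    · simp only [AlgHom.comp_apply, ph, drp, vr, MvPolynomial.aeval_X, Sum.elim_inl, map_zero]
      exact Ideal.Quotient.eq_zero_iff_mem.2 (hz i)
    · simp only [AlgHom.comp_apply, ph, ph0, drp, vr, MvPolynomial.aeval_X, Sum.elim_inr]
  have h2 := DFunLike.congr_fun h1 b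
  exact Ideal.Quotient.eq.1 h2

/-- At points where `t = 0` the variables `t` can be dropped. -/
theorem dens_ph0 {B : Set E} {z : Ber K A} (hz : ∀ i, z.v (D.t i) = 0)
    (h : Dens (D.ph (B \ {D.e0})) z) : Dens (D.ph0 (B \ {D.e0})) z := by
  intro a ε hε
  obtain ⟨b, c, hc, hbc⟩ := h a ε hε
  have hb := sub_drp hz b
  have hc' := sub_drp hz c
  have h1 : z.v (D.ph (B \ {D.e0}) c) =
      z.v (D.ph0 (B \ {D.e0}) (drp (K := K) (I := I) (B \ {D.e0}) c)) := v_eq_of_sub hc'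
  refine ⟨drp (K := K) (I := I) _ b, drp (K := K) (I := I) _ c, ?_, ?_⟩
  · rw [← h1]; exact hc
  · rw [← h1]
    refine lt_of_eq_of_lt ?_ hbc
    refine (v_eq_of_sub ?_).symm
    have h2 : (D.ph (B \ {D.e0}) c * a - D.ph (B \ {D.e0}) b) -
        (D.ph0 (B \ {D.e0}) (drp (K := K) (I := I) (B \ {D.e0}) c) * a -
          D.ph0 (B \ {D.e0}) (drp (K := K) (I := I) (B \ {D.e0}) b)) =
        a * (D.ph (B \ {D.e0}) c - D.ph0 (B \ {D.e0}) (drp (K := K) (I := I) (B \ {D.e0}) c)) -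
        (D.ph (B \ {D.e0}) b - D.ph0 (B \ {D.e0}) (drp (K := K) (I := I) (B \ {D.e0}) b)) := by
      ring
    rw [h2]
    exact z.ker.sub_mem (z.ker.mul_mem_left a hc') hb

end NDat

end Pool.Agent.TD
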