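import Pool.Agent.TD.N.Bas

/-! Local data ND0: maximal Gauss families, local constancy (PAPER2.md, ND2; module
TD_N_LC). -/

open scoped Topology NNReal

namespace Pool.Agent.TD

namespace NLC

variable {K A σ : Type} [NormedField K] [CommRing A] [Algebra K A]

theorem sum_lt {ι : Type} (z : Ber K A) (s : Finset ι) (f : ι → A) {M : ℝ} (hM : 0 < M)
    (h : ∀ i ∈ s, z.v (f i) < M) : z.v (∑ i ∈ s, f i) < M := by
  classical
  induction s using Finset.induction_on with
  | empty => simpa [z.zero] using hM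
  | insert i s hi ih =>
    rw [Finset.sum_insert hi]
    exact (z.add _ _).trans_lt (max_lt (h i (Finset.mem_insert_self i s))
      (ih fun j hj => h j (Finset.mem_insert_of_mem hj)))

/-- A sum with a strictly dominant term. -/
theorem sum_dom {ι : Type} (z : Ber K A) (s : Finset ι) (f : ι → A) {i : ι} (hi : i ∈ s)
    (h0 : 0 < z.v (f i)) (h : ∀ j ∈ s, j ≠ i → z.v (f j) < z.v (f i)) :
    z.v (∑ j ∈ s, f j) = z.v (f i) := by
  classical
  rw [← Finset.add_sum_erase s f hi]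
  exact z.add_eq (sum_lt z _ _ h0 fun j hj =>
    h j (Finset.mem_of_mem_erase hj) (Finset.ne_of_mem_erase hj))

theorem v_monomial (a : σ → A) (ρ : σ → ℝ≥0) (z : Ber K A) (h : ∀ i, z.v (a i) = ρ i)
    (u : σ →₀ ℕ) (c : K) : z.v (MvPolynomial.aeval a (MvPolynomial.monomial u c)) =
      ((‖c‖₊ * u.prod fun i n => ρ i ^ n : ℝ≥0) : ℝ) := by
  rw [MvPolynomial.aeval_monomial, z.mul, z.ext, Finsupp.prod, Ber.prod, Finsupp.prod]
  push_cast
  congr 1
  refine Finset.prod_congr rfl fun i _ => ?_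
  rw [z.pow, h]

theorem v_le_gn (a : σ → A) (ρ : σ → ℝ≥0) (z : Ber K A) (h : ∀ i, z.v (a i) = ρ i)
    (P : MvPolynomial σ K) : z.v (MvPolynomial.aeval a P) ≤ gn ρ P := by
  conv_lhs => rw [P.as_sum]
  rw [map_sum]
  refine Ber.sum_le z _ _ (NNReal.coe_nonneg _) fun u hu => ?_
  rw [v_monomial a ρ z h]
  exact_mod_cast Finset.le_sup (f := fun u : σ →₀ ℕ => ‖P.coeff u‖₊ * u.prod fun i n => ρ i ^ n) hu

theorem gn_option (ρ : σ → ℝ≥0) (γ : ℝ≥0) (P : MvPolynomial (Option σ) K) :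
    gn (fun o : Option σ => o.elim γ ρ) P ≤ (MvPolynomial.optionEquivLeft K σ P).support.sup
      fun i => gn ρ ((MvPolynomial.optionEquivLeft K σ P).coeff i) * γ ^ i := by
  refine Finset.sup_le fun u hu => ?_
  set Q := MvPolynomial.optionEquivLeft K σ P with hQ
  have hc : MvPolynomial.coeff u.some (Q.coeff (u none)) = MvPolynomial.coeff u P :=
    MvPolynomial.optionEquivLeft_coeff_some_coeff_none K σ u P
  have hne : MvPolynomial.coeff u.some (Q.coeff (u none)) ≠ 0 := by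
    rw [hc]
    exact MvPolynomial.mem_support_iff.1 hu
  have hi : u none ∈ Q.support := by
    rw [Polynomial.mem_support_iff]
    intro h
    rw [h] at hne
    exact hne (MvPolynomial.coeff_zero _)
  refine le_trans ?_ (Finset.le_sup (f := fun i => gn ρ (Q.coeff i) * γ ^ i) hi)
  have h1 : ‖MvPolynomial.coeff u.some (Q.coeff (u none))‖₊ *
      (u.some.prod fun i n => ρ i ^ n) ≤ gn ρ (Q.coeff (u none)) :=
    Finset.le_sup (f := fun v : σ →₀ ℕ => ‖(Q.coeff (u none)).coeff v‖₊ *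
      v.prod fun i n => ρ i ^ n) (MvPolynomial.mem_support_iff.2 hne)
  have h2 : (u.prod fun o n => (o.elim γ ρ) ^ n) =
      γ ^ (u none) * u.some.prod (fun i n => ρ i ^ n) :=
    Finsupp.prod_option_index u (fun o n => (o.elim γ ρ) ^ n) (fun o => pow_zero _)
      (fun o m n => pow_add _ _ _)
  rw [h2, ← hc]
  calc ‖MvPolynomial.coeff u.some (Q.coeff (u none))‖₊ *
        (γ ^ (u none) * u.some.prod (fun i n => ρ i ^ n))
      = ‖MvPolynomial.coeff u.some (Q.coeff (u none))‖₊ *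
        (u.some.prod (fun i n => ρ i ^ n)) * γ ^ (u none) := by ring
    _ ≤ gn ρ (Q.coeff (u none)) * γ ^ (u none) := by gcongr

theorem aeval_option (a : σ → A) (b : A) (P : MvPolynomial (Option σ) K) :
    MvPolynomial.aeval (fun o : Option σ => o.elim b a) P =
      ∑ i ∈ (MvPolynomial.optionEquivLeft K σ P).support,
        MvPolynomial.aeval a ((MvPolynomial.optionEquivLeft K σ P).coeff i) * b ^ i := by
  have h : MvPolynomial.aeval (fun o : Option σ => o.elim b a) P =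
      Polynomial.eval₂ (MvPolynomial.aeval a : MvPolynomial σ K →ₐ[K] A).toRingHom b
        (MvPolynomial.optionEquivLeft K σ P) := by
    induction P using MvPolynomial.induction_on with
    | C c =>
      rw [MvPolynomial.optionEquivLeft_C, Polynomial.eval₂_C, MvPolynomial.aeval_C]
      exact (MvPolynomial.aeval_C a c).symm
    | add p q hp hq => rw [map_add, map_add, Polynomial.eval₂_add, hp, hq]
    | mul_X p o hp =>
      rw [map_mul, map_mul, Polynomial.eval₂_mul, hp, MvPolynomial.aeval_X]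
      congr 1
      rcases o with _ | i
      · rw [MvPolynomial.optionEquivLeft_X_none, Polynomial.eval₂_X]
        rfl
      · rw [MvPolynomial.optionEquivLeft_X_some, Polynomial.eval₂_C]
        exact (MvPolynomial.aeval_X a i).symm
  rw [h, Polynomial.eval₂_eq_sum, Polynomial.sum]
  rfl

/-- The local statement: at a point where the family with `b` added is not Gauss, the value of `b`
is locally constant on the fibre. -/
theorem core (a : σ → A) (b : A) (ρ : σ → ℝ≥0) (γ : ℝ≥0) (hγ : 0 < γ) (z2 : Ber K A)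
    (ha : GaussAt a ρ z2) (hb : z2.v b = γ)
    (hn : ¬ GaussAt (fun o : Option σ => o.elim b a) (fun o : Option σ => o.elim γ ρ) z2) :
    ∃ W : Set (Ber K A), IsOpen W ∧ z2 ∈ W ∧ ∀ z' ∈ W, GaussAt a ρ z' → z'.v b = γ := by
  classical
  unfold GaussAt at hn
  push Not at hn
  obtain ⟨P, hP⟩ := hn
  have hle : z2.v (MvPolynomial.aeval (fun o : Option σ => o.elim b a) P) ≤
      gn (fun o : Option σ => o.elim γ ρ) P := by
    refine v_le_gn _ _ z2 ?_ P
    rintro (_ | i)
    · exact hb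
    · exact ha.v_eq i
  have hlt := lt_of_le_of_ne hle hP
  set Q := MvPolynomial.optionEquivLeft K σ P with hQ
  obtain ⟨N, hN⟩ : ∃ N : ℝ≥0, N = Q.support.sup fun i => gn ρ (Q.coeff i) * γ ^ i := ⟨_, rfl⟩
  have hltN : z2.v (MvPolynomial.aeval (fun o : Option σ => o.elim b a) P) < N := by
    refine hlt.trans_le ?_
    rw [hN]
    exact_mod_cast gn_option ρ γ P
  have hN0 : 0 < (N : ℝ) := (z2.nonneg _).trans_lt hltN
  have hle2 : ∀ i ∈ Q.support, gn ρ (Q.coeff i) * γ ^ i ≤ N := by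
    intro i hi
    rw [hN]
    exact Finset.le_sup (f := fun i => gn ρ (Q.coeff i) * γ ^ i) hi
  set S := Q.support.filter fun i => gn ρ (Q.coeff i) * γ ^ i = N with hSd
  obtain ⟨g, hg⟩ : ∃ g : ℕ → A, g = fun i => MvPolynomial.aeval a (Q.coeff i) * b ^ i := ⟨_, rfl⟩
  have hterm : ∀ z' : Ber K A, GaussAt a ρ z' → ∀ i,
      z'.v (g i) = gn ρ (Q.coeff i) * z'.v b ^ i := by
    intro z' hz' i
    rw [hg]
    show z'.v (_ * _) = _
    rw [z'.mul, hz', z'.pow]
  have hS : z2.v (∑ i ∈ S, g i) < N := by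
    have h1 : ∑ i ∈ S, g i = ∑ i ∈ Q.support, g i -
        ∑ i ∈ Q.support.filter (fun i => ¬ gn ρ (Q.coeff i) * γ ^ i = N), g i := by
      rw [eq_sub_iff_add_eq, Finset.sum_filter_add_sum_filter_not]
    rw [h1]
    refine (z2.sub _ _).trans_lt (max_lt ?_ (sum_lt z2 _ _ hN0 fun i hi => ?_))
    · have h2 := aeval_option a b P
      rw [hg, ← h2]
      exact hltN
    · rw [Finset.mem_filter] at hi
      rw [hterm z2 ha, hb]
      exact_mod_cast lt_of_le_of_ne (hle2 i hi.1) hi.2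
  obtain ⟨θ, hθ1, hθ2⟩ := exists_between hS
  have hθ0 : 0 < θ := (z2.nonneg _).trans_lt hθ1
  have hSne : S.Nonempty := by
    have hne : Q.support.Nonempty := by
      by_contra h
      rw [Finset.not_nonempty_iff_eq_empty] at h
      rw [h, Finset.sup_empty] at hN
      rw [hN] at hN0
      exact lt_irrefl _ hN0
    obtain ⟨i, hi, hi2⟩ := Finset.exists_mem_eq_sup Q.support hne
      (fun i => gn ρ (Q.coeff i) * γ ^ i)
    exact ⟨i, Finset.mem_filter.2 ⟨hi, by rw [hN, hi2]⟩⟩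
  have hγ' : (0 : ℝ) < γ := hγ
  obtain ⟨m, hm⟩ : ∃ m, m = S.max' hSne := ⟨_, rfl⟩
  have hmS : m ∈ S := hm ▸ S.max'_mem hSne
  have hmle : ∀ i ∈ S, i ≤ m := fun i hi => hm ▸ S.le_max' i hi
  refine ⟨{z' | z'.v (∑ i ∈ S, g i) < θ} ∩ {z' | θ * γ ^ m < N * z'.v b ^ m},
    IsOpen.inter (isOpen_lt (Ber.continuous_v _) continuous_const)
      (isOpen_lt continuous_const (continuous_const.mul ((Ber.continuous_v b).pow m))),
    ⟨hθ1, ?_⟩, ?_⟩
  · show θ * (γ : ℝ) ^ m < N * z2.v b ^ m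
    rw [hb]
    exact mul_lt_mul_of_pos_right hθ2 (by positivity)
  rintro z' ⟨h1, h2⟩ hz'
  have h1' : z'.v (∑ i ∈ S, g i) < θ := h1
  have h2' : θ * (γ : ℝ) ^ m < N * z'.v b ^ m := h2
  obtain ⟨r, hr⟩ : ∃ r : ℝ, r = z'.v b / γ := ⟨_, rfl⟩
  have hr0 : 0 ≤ r := by
    rw [hr]
    exact div_nonneg (z'.nonneg _) hγ'.le
  have hbr : z'.v b = r * γ := by
    rw [hr]
    field_simp
  -- the values of the terms
  have hval : ∀ i ∈ S, z'.v (g i) = N * r ^ i := by
    intro i hi
    have hi2 : (gn ρ (Q.coeff i) : ℝ) * γ ^ i = N := by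
      exact_mod_cast (Finset.mem_filter.1 hi).2
    rw [hterm z' hz', hbr, mul_pow, ← hi2]
    ring
  have h3 : θ < N * r ^ m := by
    rw [hbr, mul_pow] at h2'
    have h4 : N * (r ^ m * (γ : ℝ) ^ m) = N * r ^ m * γ ^ m := by ring
    rw [h4] at h2'
    exact lt_of_mul_lt_mul_right h2' (by positivity)
  have hrm : 0 < r ^ m := by
    by_contra h
    have h4 : r ^ m = 0 := le_antisymm (not_lt.1 h) (by positivity)
    rw [h4, mul_zero] at h3
    exact absurd h3 (not_lt.2 hθ0.le)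
  by_contra hne
  have hr1 : r ≠ 1 := by
    intro h
    rw [h, one_mul] at hbr
    exact hne hbr
  rcases lt_or_gt_of_ne hr1 with hr2 | hr2
  · -- the lowest term
    have hi0 := S.min'_mem hSne
    have h5 : z'.v (∑ i ∈ S, g i) = z'.v (g (S.min' hSne)) := by
      refine sum_dom z' S g hi0 ?_ ?_
      · rw [hval _ hi0]
        have h6 : r ^ m ≤ r ^ (S.min' hSne) :=
          pow_le_pow_of_le_one hr0 hr2.le (hmle _ hi0)
        have h7 := hrm.trans_le h6
        positivity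
      · intro j hj hji
        rw [hval _ hi0, hval _ hj]
        have h6 : S.min' hSne < j := lt_of_le_of_ne (S.min'_le j hj) (Ne.symm hji)
        have hr3 : 0 < r := by
          rcases hr0.eq_or_lt with h7 | h7
          · rw [← h7, zero_pow (by have := hmle j hj; omega)] at hrm
            exact absurd hrm (lt_irrefl _)
          · exact h7
        exact mul_lt_mul_of_pos_left (pow_lt_pow_right_of_lt_one₀ hr3 hr2 h6) hN0
    rw [h5, hval _ hi0] at h1'
    have h6 : r ^ m ≤ r ^ (S.min' hSne) := pow_le_pow_of_le_one hr0 hr2.le (hmle _ hi0)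
    have h7 : (N : ℝ) * r ^ m ≤ N * r ^ (S.min' hSne) := mul_le_mul_of_nonneg_left h6 hN0.le
    linarith
  · -- the highest term
    have h5 : z'.v (∑ i ∈ S, g i) = z'.v (g m) := by
      refine sum_dom z' S g hmS ?_ ?_
      · rw [hval _ hmS]
        positivity
      · intro j hj hji
        rw [hval _ hmS, hval _ hj]
        have h6 : j < m := lt_of_le_of_ne (hmle j hj) hji
        exact mul_lt_mul_of_pos_left (pow_lt_pow_right₀ hr2 h6) hN0
    rw [h5, hval _ hmS] at h1'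
    linarith

end NLC

namespace NDat

variable {K A I E : Type} [NormedField K] [CommRing A] [Algebra K A] (D : NDat K A I E)

/-- The elements of `E` different from `e0`. -/
abbrev E' : Type := {e : E // e ≠ D.e0}

/-- The family `a0`, `T_e` (`e ≠ e0`). -/
def xa (a0 : A) (o : Option D.E') : A := o.elim a0 fun e => D.T e.1

/-- The radii of the family `a0`, `T_e`. -/
def xg (γ0 : ℝ≥0) (o : Option D.E') : ℝ≥0 := o.elim γ0 fun e => D.ρ e.1

/-- The part of `F_w` where `|a0| = γ0`. -/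
def Fs (a0 : A) (γ0 : ℝ≥0) : Set (Ber K A) := {z | z ∈ D.Fw ∧ z.v a0 = γ0}

/-- `z` is a point of `Fs` at which the part `J` of the family is Gauss. -/
structure IsG (a0 : A) (γ0 : ℝ≥0) (J : Set (Option D.E')) (z : Ber K A) : Prop where
  mem : z ∈ D.Fs a0 γ0
  gauss : GaussAt (fun j : J => D.xa a0 j.1) (fun j : J => D.xg γ0 j.1) z

/-- `J` has the maximal number of elements among all Gauss families at points of `Fs`. -/
structure IsMaxG (a0 : A) (γ0 : ℝ≥0) (J : Set (Option D.E')) (z : Ber K A) : Prop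
    extends D.IsG a0 γ0 J z where
  max : ∀ z' J', D.IsG a0 γ0 J' z' → J'.ncard ≤ J.ncard

/-- The functions `t` and the family `J`. -/
def tx (a0 : A) (J : Set (Option D.E')) : I ⊕ J → A := Sum.elim D.t fun j => D.xa a0 j.1

variable {D} [IsUltrametricDist K] [Finite I] [Finite E]

/-- (ND2) `Fs` is open in the fibre. -/
theorem IsMaxG.fibre (hD : D.Ok) {a0 : A} {γ0 : ℝ≥0} (hγ : 0 < γ0) {J : Set (Option D.E')}
    {z : Ber K A} (h : D.IsMaxG a0 γ0 J z) : ∃ V : Set (Ber K A), IsOpen V ∧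
      D.Fs a0 γ0 ∩ {z' | fam (D.tx a0 J) z' = fam (D.tx a0 J) z} =
        V ∩ {z' | fam (D.tx a0 J) z' = fam (D.tx a0 J) z} := by
  classical
  have hxg : ∀ o, 0 < D.xg γ0 o := by
    rintro (_ | e)
    · exact hγ
    · exact hD.ρpos e.1
  have hv : ∀ z' ∈ D.Fs a0 γ0, ∀ o, z'.v (D.xa a0 o) = D.xg γ0 o := by
    rintro z' hz' (_ | e)
    · exact hz'.2
    · exact v_T_Fw hD hz'.1 e.1
  have hg : ∀ z', fam (D.tx a0 J) z' = fam (D.tx a0 J) z →
      GaussAt (fun j : J => D.xa a0 j.1) (fun j : J => D.xg γ0 j.1) z' := by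
    intro z' hz' P
    have h1 : (fam (D.tx a0 J) z').v (MvPolynomial.rename Sum.inr P) =
        (fam (D.tx a0 J) z).v (MvPolynomial.rename Sum.inr P) := by rw [hz']
    rw [fam_v, fam_v, MvPolynomial.aeval_rename] at h1
    exact h1.trans (h.gauss P)
  have key : ∀ z2 ∈ D.Fs a0 γ0 ∩ {z' | fam (D.tx a0 J) z' = fam (D.tx a0 J) z},
      ∃ W : Set (Ber K A), IsOpen W ∧ z2 ∈ W ∧
        W ∩ {z' | fam (D.tx a0 J) z' = fam (D.tx a0 J) z} ⊆ D.Fs a0 γ0 := by
    rintro z2 ⟨hz2, hf2⟩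
    have hloc : ∀ j : {j : Option D.E' // j ∉ J}, ∃ W : Set (Ber K A), IsOpen W ∧ z2 ∈ W ∧
        ∀ z' ∈ W, GaussAt (fun j : J => D.xa a0 j.1) (fun j : J => D.xg γ0 j.1) z' →
          z'.v (D.xa a0 j.1) = D.xg γ0 j.1 := by
      rintro ⟨j, hj⟩
      refine NLC.core _ _ _ _ (hxg j) z2 (hg z2 hf2) (hv z2 hz2 j) fun hG => ?_
      let f : ↥(insert j J : Set (Option D.E')) → Option J :=
        fun x => if hx : x.1 ∈ J then some ⟨x.1, hx⟩ else none
      have hf1 : ∀ x : (insert j J : Set (Option D.E')), x.1 ∉ J → x.1 = j := by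
        intro x hx
        rcases x.2 with h1 | h1
        · exact h1
        · exact absurd h1 hx
      have hfi : Function.Injective f := by
        intro x y hxy
        by_cases hx : x.1 ∈ J <;> by_cases hy : y.1 ∈ J
        · simp only [f, dif_pos hx, dif_pos hy, Option.some.injEq, Subtype.mk.injEq] at hxy
          exact Subtype.ext hxy
        · simp only [f, dif_pos hx, dif_neg hy] at hxy
          exact absurd hxy (by simp)
        · simp only [f, dif_neg hx, dif_pos hy] at hxy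
          exact absurd hxy (by simp)
        · exact Subtype.ext ((hf1 x hx).trans (hf1 y hy).symm)
      have h2 := hG.comp f hfi
      have h3 : (fun i : (insert j J : Set (Option D.E')) =>
          (f i).elim (D.xa a0 j) (fun j : J => D.xa a0 j.1)) = fun i => D.xa a0 i.1 := by
        funext x
        by_cases hx : x.1 ∈ J
        · simp only [f, dif_pos hx, Option.elim_some]
        · simp only [f, dif_neg hx, Option.elim_none]
          rw [hf1 x hx]
      have h4 : (fun i : (insert j J : Set (Option D.E')) =>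
          (f i).elim (D.xg γ0 j) (fun j : J => D.xg γ0 j.1)) = fun i => D.xg γ0 i.1 := by
        funext x
        by_cases hx : x.1 ∈ J
        · simp only [f, dif_pos hx, Option.elim_some]
        · simp only [f, dif_neg hx, Option.elim_none]
          rw [hf1 x hx]
      rw [h3, h4] at h2
      have h5 := h.max z2 (insert j J) ⟨hz2, h2⟩
      rw [Set.ncard_insert_of_notMem hj (Set.toFinite J)] at h5
      omega
    choose W hWo hWm hW using hloc
    refine ⟨interior D.V0 ∩ ⋂ j, W j, isOpen_interior.inter (isOpen_iInter_of_finite hWo),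
      ⟨mem_interior_iff_mem_nhds.2 (hD.nhd z2 hz2.1), Set.mem_iInter.2 hWm⟩, ?_⟩
    rintro z' ⟨⟨hz'1, hz'2⟩, hz'3⟩
    have hval : ∀ o, z'.v (D.xa a0 o) = D.xg γ0 o := by
      intro o
      by_cases ho : o ∈ J
      · exact (hg z' hz'3).v_eq ⟨o, ho⟩
      · exact hW ⟨o, ho⟩ z' (Set.mem_iInter.1 hz'2 ⟨o, ho⟩) (hg z' hz'3)
    refine ⟨⟨interior_subset hz'1, fun i => ?_, fun e => ?_⟩, hval none⟩
    · have h1 : (fam (D.tx a0 J) z').v (MvPolynomial.X (Sum.inl i)) =
          (fam (D.tx a0 J) z).v (MvPolynomial.X (Sum.inl i)) := by rw [hz'3]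
      rw [fam_v, fam_v, MvPolynomial.aeval_X] at h1
      exact h1.trans (h.mem.1.2.1 i)
    · by_cases he : e = D.e0
      · rw [he]
        exact yc_e0 hD z'
      · have h1 : z'.v (D.T e) = D.ρ e := hval (some ⟨e, he⟩)
        unfold yc
        rw [h1, sub_self]
  refine ⟨⋃₀ {W | IsOpen W ∧ W ∩ {z' | fam (D.tx a0 J) z' = fam (D.tx a0 J) z} ⊆ D.Fs a0 γ0},
    isOpen_sUnion fun W hW => hW.1, ?_⟩
  apply Set.Subset.antisymm
  · intro z2 hz2
    obtain ⟨W, hW1, hW2, hW3⟩ := key z2 hz2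
    exact ⟨⟨W, ⟨hW1, hW3⟩, hW2⟩, hz2.2⟩
  · rintro z2 ⟨⟨W, ⟨hW1, hW3⟩, hW2⟩, hz2⟩
    exact ⟨hW3 ⟨hW2, hz2⟩, hz2⟩

/-- (ND2) -/
theorem IsMaxG.zmp [Algebra.FiniteType K A] (h6 : StmtQ6) (hD : D.Ok) {a0 : A} {γ0 : ℝ≥0}
    (hγ : 0 < γ0) {J : Set (Option D.E')} {z : Ber K A} (h : D.IsMaxG a0 γ0 J z) :
    Zmp (MvPolynomial.aeval (D.tx a0 J) : MvPolynomial (I ⊕ J) K →ₐ[K] A) z := by
  obtain ⟨V, hV, hVe⟩ := h.fibre hD hγ
  have hcl : IsClosed {z' : Ber K A | fam (D.tx a0 J) z' = fam (D.tx a0 J) z} :=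
    isClosed_singleton.preimage (Ber.res_continuous _)
  have hFs : IsCompact (D.Fs a0 γ0) := by
    have h1 : D.Fs a0 γ0 = D.Fw ∩ {z' : Ber K A | z'.v a0 = γ0} := rfl
    rw [h1]
    exact (isCompact_Fw hD).inter_right (isClosed_eq (Ber.continuous_v a0) continuous_const)
  have hft : (MvPolynomial.aeval (D.tx a0 J) : MvPolynomial (I ⊕ J) K →ₐ[K] A).toRingHom.FiniteType :=
    by
    have h1 : (algebraMap K A).FiniteType := RingHom.finiteType_algebraMap.2 inferInstance
    refine RingHom.FiniteType.of_comp_finiteType (f := algebraMap K (MvPolynomial (I ⊕ J) K)) ?_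
    have h2 : ((MvPolynomial.aeval (D.tx a0 J) : MvPolynomial (I ⊕ J) K →ₐ[K] A).toRingHom.comp
        (algebraMap K (MvPolynomial (I ⊕ J) K))) = algebraMap K A :=
      RingHom.ext fun c => (MvPolynomial.aeval (D.tx a0 J)).commutes c
    rw [h2]
    exact h1
  exact h6 K (MvPolynomial (I ⊕ J) K) A _ hft z
    (D.Fs a0 γ0 ∩ {z' | fam (D.tx a0 J) z' = fam (D.tx a0 J) z}) V (hFs.inter_right hcl) hV hVe
    ⟨h.mem, rfl⟩

/-- Maximal families exist. -/
theorem exists_isMaxG {a0 : A} {γ0 : ℝ≥0} (h : (D.Fs a0 γ0).Nonempty) :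
    ∃ J z, D.IsMaxG a0 γ0 J z := by
  classical
  obtain ⟨z0, hz0⟩ := h
  have h0 : D.IsG a0 γ0 ∅ z0 := by
    refine ⟨hz0, fun P => ?_⟩
    obtain ⟨c, rfl⟩ := MvPolynomial.C_surjective (↥(∅ : Set (Option D.E'))) P
    rw [gn_C, MvPolynomial.aeval_C, z0.ext]
    rfl
  have hne : {n : ℕ | ∃ J z, D.IsG a0 γ0 J z ∧ J.ncard = n}.Nonempty := ⟨_, ∅, z0, h0, rfl⟩
  have hb : BddAbove {n : ℕ | ∃ J z, D.IsG a0 γ0 J z ∧ J.ncard = n} := by
    refine ⟨(Set.univ : Set (Option D.E')).ncard, ?_⟩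
    rintro _ ⟨J, z, -, rfl⟩
    exact Set.ncard_le_ncard (Set.subset_univ J) (Set.toFinite _)
  obtain ⟨J, z, hJ, hn⟩ := Nat.sSup_mem hne hb
  exact ⟨J, z, hJ, fun z' J' hJ' => hn ▸ le_csSup hb ⟨J', z', hJ', rfl⟩⟩

end NDat

end Pool.Agent.TD
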