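import Pool.Agent.TD.N.Dz

/-! Local data ND0: linear forms (PAPER2.md, ND7; module TD_N_LIN). -/

open scoped Topology NNReal

namespace Pool.Agent.TD

namespace NLin

/-- generic perturbation -/
theorem ev_generic {σ : Type} [Fintype σ] (y w : σ → ℝ) (hw : Function.Injective w)
    (hw0 : ∀ i, w i ≠ 0) {δ : ℝ} (hy : ∀ i, |y i| < δ) :
    ∀ᶠ t : ℝ in 𝓝[≠] 0, (∀ i, |y i + t * w i| < δ) ∧ Function.Injective (fun i => y i + t * w i) ∧
      ∀ i, y i + t * w i ≠ 0 := by
  have hne : ∀ᶠ t : ℝ in 𝓝[≠] 0, t ≠ 0 := self_mem_nhdsWithin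
  have hlim : ∀ (a b : ℝ), Filter.Tendsto (fun t : ℝ => a + t * b) (𝓝[≠] 0) (𝓝 a) := by
    intro a b
    have h1 : Filter.Tendsto (fun t : ℝ => a + t * b) (𝓝 0) (𝓝 (a + 0 * b)) :=
      Continuous.tendsto (by fun_prop) 0
    rw [zero_mul, add_zero] at h1
    exact h1.mono_left nhdsWithin_le_nhds
  have hnz : ∀ (a b : ℝ), b ≠ 0 → ∀ᶠ t : ℝ in 𝓝[≠] 0, a + t * b ≠ 0 := by
    intro a b hb
    by_cases ha : a = 0
    · filter_upwards [hne] with t ht
      rw [ha, zero_add]
      exact mul_ne_zero ht hb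
    · exact (hlim a b).eventually_ne ha
  have h1 : ∀ᶠ t : ℝ in 𝓝[≠] 0, ∀ i, |y i + t * w i| < δ := by
    rw [Filter.eventually_all]
    intro i
    exact ((hlim (y i) (w i)).abs).eventually (gt_mem_nhds (hy i))
  have h2 : ∀ᶠ t : ℝ in 𝓝[≠] 0, ∀ i j, i ≠ j → (y i - y j) + t * (w i - w j) ≠ 0 := by
    rw [Filter.eventually_all]
    intro i
    rw [Filter.eventually_all]
    intro j
    by_cases hij : i = j
    · exact Filter.Eventually.of_forall fun t h => absurd hij h
    · filter_upwards [hnz (y i - y j) (w i - w j) (sub_ne_zero.2 fun h => hij (hw h))] with t ht _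
      exact ht
  have h3 : ∀ᶠ t : ℝ in 𝓝[≠] 0, ∀ i, y i + t * w i ≠ 0 := by
    rw [Filter.eventually_all]
    intro i
    exact hnz _ _ (hw0 i)
  filter_upwards [h1, h2, h3] with t ht1 ht2 ht3
  refine ⟨ht1, ?_, ht3⟩
  intro i j hij
  by_contra hne
  apply ht2 i j hne
  have : y i + t * w i = y j + t * w j := hij
  linarith

/-- the property at all small points -/
theorem all_small {σ : Type} [Fintype σ] [DecidableEq σ] (S : Finset (σ → ℤ)) (hS : S.Nonempty)
    (C : Set σ) (z0 : Prop) (hC : z0 ∨ C.Nonempty) (δ : ℝ)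
    (h : ∀ y : σ → ℝ, (∀ i, |y i| < δ) → Function.Injective y → (∀ i, y i ≠ 0) →
      ∃ m : ℝ, (∀ u ∈ S, ∑ i, (u i : ℝ) * y i ≤ m) ∧ (∃ u ∈ S, ∑ i, (u i : ℝ) * y i = m) ∧
        (∀ i ∈ C, y i ≤ m) ∧ (z0 → 0 ≤ m) ∧ ((∃ i ∈ C, y i = m) ∨ (z0 ∧ m = 0)))
    (y : σ → ℝ) (hy : ∀ i, |y i| < δ) :
      ∃ m : ℝ, (∀ u ∈ S, ∑ i, (u i : ℝ) * y i ≤ m) ∧ (∃ u ∈ S, ∑ i, (u i : ℝ) * y i = m) ∧
        (∀ i ∈ C, y i ≤ m) ∧ (z0 → 0 ≤ m) ∧ ((∃ i ∈ C, y i = m) ∨ (z0 ∧ m = 0)) := by
  classical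
  -- the two functions
  let T : Finset (Option σ) := Finset.univ.filter fun o => o.elim z0 (· ∈ C)
  have hT : T.Nonempty := by
    rcases hC with h0 | ⟨i, hi⟩
    · exact ⟨none, by simp [T, h0]⟩
    · exact ⟨some i, by simp [T, hi]⟩
  let f : (σ → ℝ) → ℝ := fun y => S.sup' hS fun u => ∑ i, (u i : ℝ) * y i
  let g : (σ → ℝ) → ℝ := fun y => T.sup' hT fun o => o.elim 0 y
  have hfc : Continuous f := by
    refine Continuous.finset_sup'_apply hS fun u _ => ?_
    fun_prop
  have hgc : Continuous g := by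
    refine Continuous.finset_sup'_apply hT fun o _ => ?_
    cases o with
    | none => exact continuous_const
    | some i => exact continuous_apply i
  have hfg : ∀ y : σ → ℝ, (∀ i, |y i| < δ) → Function.Injective y → (∀ i, y i ≠ 0) →
      f y = g y := by
    intro y h1 h2 h3
    obtain ⟨m, a1, ⟨u, hu, a2⟩, a3, a4, a5⟩ := h y h1 h2 h3
    have hf : f y = m := by
      apply le_antisymm
      · exact Finset.sup'_le _ _ a1
      · rw [← a2]
        exact Finset.le_sup' (fun u : σ → ℤ => ∑ i, (u i : ℝ) * y i) hu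
    have hg : g y = m := by
      apply le_antisymm
      · refine Finset.sup'_le _ _ ?_
        intro o ho
        cases o with
        | none => exact a4 (by simpa [T] using ho)
        | some i => exact a3 i (by simpa [T] using ho)
      · rcases a5 with ⟨i, hi, a5⟩ | ⟨h0, a5⟩
        · rw [← a5]
          exact Finset.le_sup' (fun o : Option σ => o.elim 0 y)
            (show some i ∈ T by simp [T, hi])
        · rw [a5]
          exact Finset.le_sup' (fun o : Option σ => o.elim 0 y)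
            (show none ∈ T by simp [T, h0])
    rw [hf, hg]
  have key : f y = g y := by
    obtain ⟨N, ⟨φ⟩⟩ := Finite.exists_equiv_fin σ
    let w : σ → ℝ := fun i => ((φ i : ℕ) : ℝ) + 1
    have hw : Function.Injective w := by
      intro i j hij
      have : ((φ i : ℕ) : ℝ) + 1 = ((φ j : ℕ) : ℝ) + 1 := hij
      have h2 : ((φ i : ℕ) : ℝ) = ((φ j : ℕ) : ℝ) := by linarith
      exact φ.injective (Fin.ext (by exact_mod_cast h2))
    have hw0 : ∀ i, w i ≠ 0 := by
      intro i
      have : (0 : ℝ) < ((φ i : ℕ) : ℝ) + 1 := by positivity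
      exact this.ne'
    have hc : Filter.Tendsto (fun t : ℝ => fun i => y i + t * w i) (𝓝[≠] 0) (𝓝 y) := by
      have h1 : Filter.Tendsto (fun t : ℝ => fun i => y i + t * w i) (𝓝 0)
          (𝓝 (fun i => y i + 0 * w i)) := Continuous.tendsto (by fun_prop) 0
      have h2 : (fun i => y i + 0 * w i) = y := by
        funext i; rw [zero_mul, add_zero]
      rw [h2] at h1
      exact h1.mono_left nhdsWithin_le_nhds
    have h1 := (hfc.tendsto y).comp hc
    have h2 := (hgc.tendsto y).comp hc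
    refine tendsto_nhds_unique_of_eventuallyEq h1 h2 ?_
    filter_upwards [ev_generic y w hw hw0 hy] with t ht
    exact hfg _ ht.1 ht.2.1 ht.2.2
  refine ⟨f y, fun u hu => Finset.le_sup' (fun u : σ → ℤ => ∑ i, (u i : ℝ) * y i) hu, ?_, ?_, ?_, ?_⟩
  · obtain ⟨u, hu, h1⟩ := Finset.exists_mem_eq_sup' hS (fun u : σ → ℤ => ∑ i, (u i : ℝ) * y i)
    exact ⟨u, hu, h1.symm⟩
  · intro i hi
    rw [key]
    exact Finset.le_sup' (fun o : Option σ => o.elim 0 y) (show some i ∈ T by simp [T, hi])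
  · intro h0
    rw [key]
    exact Finset.le_sup' (fun o : Option σ => o.elim 0 y) (show none ∈ T by simp [T, h0])
  · rw [key]
    obtain ⟨o, ho, h1⟩ := Finset.exists_mem_eq_sup' hT (fun o : Option σ => o.elim 0 y)
    cases o with
    | none => exact Or.inr ⟨by simpa [T] using ho, h1⟩
    | some i => exact Or.inl ⟨i, by simpa [T] using ho, h1.symm⟩

end NLin

/-- A set of exponents whose support function is the maximum of some coordinates (and `0`) consists
of unit vectors (and `0`).  `S` = finite set of exponents in `ℤ^σ`, `C` = set of coordinates,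
`z0` = whether `0` is allowed. -/
theorem supp_simplex {σ : Type} [Fintype σ] [DecidableEq σ] (S : Finset (σ → ℤ)) (hS : S.Nonempty) (C : Set σ)
    (z0 : Prop) (hC : z0 ∨ C.Nonempty) (δ : ℝ) (hδ : 0 < δ)
    (h : ∀ y : σ → ℝ, (∀ i, |y i| < δ) → Function.Injective y → (∀ i, y i ≠ 0) →
      ∃ m : ℝ, (∀ u ∈ S, ∑ i, (u i : ℝ) * y i ≤ m) ∧ (∃ u ∈ S, ∑ i, (u i : ℝ) * y i = m) ∧
        (∀ i ∈ C, y i ≤ m) ∧ (z0 → 0 ≤ m) ∧ ((∃ i ∈ C, y i = m) ∨ (z0 ∧ m = 0))) :
    (∀ u ∈ S, (u = 0 ∧ z0) ∨ ∃ i ∈ C, u = Pi.single i 1) ∧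
      ∀ i ∈ C, (Pi.single i 1 : σ → ℤ) ∈ S := by
  have H := NLin.all_small S hS C z0 hC δ h
  have ht : 0 < δ / 2 := half_pos hδ
  set t : ℝ := δ / 2 with htd
  have htδ : t < δ := by rw [htd]; linarith
  have hsingle : ∀ (u : σ → ℤ) (i : σ) (s : ℝ),
      ∑ j, (u j : ℝ) * (if j = i then s else 0) = (u i : ℝ) * s := by
    intro u i s
    simp
  -- nonnegativity
  have n1 : ∀ u ∈ S, ∀ i, 0 ≤ u i := by
    intro u hu i
    obtain ⟨m, a1, -, a3, a4, a5⟩ := H (fun j => if j = i then -t else 0) (by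
      intro j
      by_cases hj : j = i
      · simp only [hj, if_true]; rw [abs_neg, abs_of_pos ht]; exact htδ
      · simp only [hj, if_false]; rw [abs_zero]; exact hδ)
    have hm : m ≤ 0 := by
      rcases a5 with ⟨j, -, a5⟩ | ⟨-, a5⟩
      · rw [← a5]
        by_cases hj : j = i
        · simp only [hj, if_true]; linarith
        · simp only [hj, if_false]; exact le_rfl
      · exact a5.le
    have h1 := a1 u hu
    rw [hsingle] at h1
    have h2 : (0 : ℝ) ≤ u i := by nlinarith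
    exact_mod_cast h2
  -- coordinates outside `C`
  have n2 : ∀ u ∈ S, ∀ i, i ∉ C → u i ≤ 0 := by
    intro u hu i hi
    obtain ⟨m, a1, -, a3, a4, a5⟩ := H (fun j => if j = i then t else 0) (by
      intro j
      by_cases hj : j = i
      · simp only [hj, if_true]; rw [abs_of_pos ht]; exact htδ
      · simp only [hj, if_false]; rw [abs_zero]; exact hδ)
    have hm : m ≤ 0 := by
      rcases a5 with ⟨j, hj, a5⟩ | ⟨-, a5⟩
      · rw [← a5]
        have hji : j ≠ i := fun h => hi (h ▸ hj)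
        simp only [hji, if_false]
        exact le_rfl
      · exact a5.le
    have h1 := a1 u hu
    rw [hsingle] at h1
    have h2 : (u i : ℝ) ≤ 0 := by nlinarith
    exact_mod_cast h2
  -- the sum is at most one
  have n3 : ∀ u ∈ S, ∑ i, u i ≤ 1 := by
    intro u hu
    obtain ⟨m, a1, -, a3, a4, a5⟩ := H (fun _ => t) (by
      intro j
      rw [abs_of_pos ht]; exact htδ)
    have hm : m ≤ t := by
      rcases a5 with ⟨j, hj, a5⟩ | ⟨-, a5⟩
      · exact a5.ge
      · rw [a5]; exact ht.le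
    have h1 := a1 u hu
    rw [← Finset.sum_mul] at h1
    have h2 : (∑ i, (u i : ℝ)) ≤ 1 := by
      by_contra hc
      push Not at hc
      have : t < (∑ i, (u i : ℝ)) * t := by nlinarith
      linarith
    exact_mod_cast h2
  -- the sum is at least one
  have n4 : ¬ z0 → ∀ u ∈ S, 1 ≤ ∑ i, u i := by
    intro h0 u hu
    obtain ⟨m, a1, -, a3, a4, a5⟩ := H (fun _ => -t) (by
      intro j
      rw [abs_neg, abs_of_pos ht]; exact htδ)
    have hm : m = -t := by
      rcases a5 with ⟨j, hj, a5⟩ | ⟨a5, -⟩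
      · exact a5.symm
      · exact absurd a5 h0
    have h1 := a1 u hu
    rw [← Finset.sum_mul, hm] at h1
    have h2 : 1 ≤ (∑ i, (u i : ℝ)) := by
      by_contra hc
      push Not at hc
      have : -t < (∑ i, (u i : ℝ)) * (-t) := by nlinarith
      linarith
    exact_mod_cast h2
  have n5 : ∀ u ∈ S, (u = 0 ∧ z0) ∨ ∃ i ∈ C, u = Pi.single i 1 := by
    intro u hu
    by_cases hu0 : u = 0
    · left
      refine ⟨hu0, ?_⟩
      by_contra h0
      have h1 := n4 h0 u hu
      rw [hu0] at h1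
      simp at h1
    · right
      obtain ⟨i, hi⟩ : ∃ i, u i ≠ 0 := by
        by_contra hc
        push Not at hc
        exact hu0 (funext hc)
      have hi1 : 1 ≤ u i := by
        have := n1 u hu i
        omega
      have hiC : i ∈ C := by
        by_contra hc
        have := n2 u hu i hc
        omega
      refine ⟨i, hiC, ?_⟩
      have hsum := n3 u hu
      rw [← Finset.add_sum_erase Finset.univ u (Finset.mem_univ i)] at hsum
      have hr : 0 ≤ ∑ j ∈ Finset.univ.erase i, u j :=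
        Finset.sum_nonneg fun j _ => n1 u hu j
      have hr0 : ∑ j ∈ Finset.univ.erase i, u j = 0 := by omega
      have hall := (Finset.sum_eq_zero_iff_of_nonneg fun j _ => n1 u hu j).1 hr0
      funext j
      by_cases hj : j = i
      · rw [hj, Pi.single_eq_same]
        omega
      · rw [Pi.single_eq_of_ne hj]
        exact hall j (Finset.mem_erase.2 ⟨hj, Finset.mem_univ j⟩)
  refine ⟨n5, ?_⟩
  intro i hi
  obtain ⟨m, a1, ⟨u, hu, a2⟩, a3, a4, a5⟩ := H (fun j => if j = i then t else 0) (by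
    intro j
    by_cases hj : j = i
    · simp only [hj, if_true]; rw [abs_of_pos ht]; exact htδ
    · simp only [hj, if_false]; rw [abs_zero]; exact hδ)
  rw [hsingle] at a2
  have h1 : t ≤ m := by
    have := a3 i hi
    simpa using this
  have h2 : (1 : ℝ) ≤ u i := by
    by_contra hc
    push Not at hc
    nlinarith
  have h3 : 1 ≤ u i := by exact_mod_cast h2
  rcases n5 u hu with ⟨h4, -⟩ | ⟨j, hj, h4⟩
  · rw [h4] at h3
    simp at h3
  · have hji : i = j := by
      by_contra hne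
      rw [h4, Pi.single_eq_of_ne hne] at h3
      omega
    rw [hji, ← h4]
    exact hu

namespace NLin

/-- the part of a polynomial where the Gauss norm is attained -/
theorem strip {K σ : Type} [NormedField K] (ρ : σ → ℝ≥0) (P : MvPolynomial σ K)
    (hP : 0 < gn ρ P) : ∃ Q : MvPolynomial σ K,
      (∀ v ∈ Q.support, ‖Q.coeff v‖₊ * v.prod (fun i n => ρ i ^ n) = gn ρ P) ∧
        gn ρ (P - Q) < gn ρ P := by
  classical
  set F : Finset (σ →₀ ℕ) :=
    P.support.filter fun v => ‖P.coeff v‖₊ * v.prod (fun i n => ρ i ^ n) = gn ρ P with hF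
  set Q : MvPolynomial σ K := ∑ v ∈ F, MvPolynomial.monomial v (P.coeff v) with hQ
  have hco : ∀ v, Q.coeff v = if v ∈ F then P.coeff v else 0 := by
    intro v
    rw [hQ, MvPolynomial.coeff_sum]
    simp only [MvPolynomial.coeff_monomial]
    rw [Finset.sum_ite_eq' F v (fun w => P.coeff w)]
  refine ⟨Q, ?_, ?_⟩
  · intro v hv
    have h1 : Q.coeff v ≠ 0 := MvPolynomial.mem_support_iff.1 hv
    rw [hco] at h1
    have h2 : v ∈ F := by
      by_contra hc
      rw [if_neg hc] at h1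
      exact h1 rfl
    rw [hco, if_pos h2]
    exact (Finset.mem_filter.1 h2).2
  · unfold gn
    rw [Finset.sup_lt_iff (by exact hP)]
    intro v hv
    have h1 : (P - Q).coeff v ≠ 0 := MvPolynomial.mem_support_iff.1 hv
    rw [MvPolynomial.coeff_sub, hco] at h1
    have h2 : v ∉ F := by
      intro hc
      rw [if_pos hc, sub_self] at h1
      exact h1 rfl
    rw [if_neg h2, sub_zero] at h1
    rw [MvPolynomial.coeff_sub, hco, if_neg h2, sub_zero]
    have h3 : v ∈ P.support := MvPolynomial.mem_support_iff.2 h1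
    have h4 : ‖P.coeff v‖₊ * v.prod (fun i n => ρ i ^ n) ≤ gn ρ P :=
      Finset.le_sup (f := fun u => ‖P.coeff u‖₊ * u.prod fun i n => ρ i ^ n) h3
    refine lt_of_le_of_ne h4 ?_
    intro h5
    exact h2 (Finset.mem_filter.2 ⟨h3, h5⟩)

/-- the value of a monomial of radii `ρ exp y` -/
theorem prod_rd {σ : Type} [Fintype σ] (ρ : σ → ℝ≥0) (y : σ → ℝ) (v : σ →₀ ℕ) :
    ((v.prod fun i n => (ρ i * (Real.exp (y i)).toNNReal) ^ n : ℝ≥0) : ℝ) =
      ((v.prod fun i n => ρ i ^ n : ℝ≥0) : ℝ) * Real.exp (∑ i, (v i : ℝ) * y i) := by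
  rw [Finsupp.prod_fintype _ _ (fun i => pow_zero _), Finsupp.prod_fintype _ _ (fun i => pow_zero _),
    NNReal.coe_prod, NNReal.coe_prod, Real.exp_sum, ← Finset.prod_mul_distrib]
  refine Finset.prod_congr rfl fun i _ => ?_
  rw [NNReal.coe_pow, NNReal.coe_mul, Real.coe_toNNReal _ (Real.exp_pos _).le, NNReal.coe_pow,
    mul_pow, ← Real.exp_nat_mul]

/-- the values of a stripped polynomial at the radii `ρ exp y` -/
theorem gn_rd {K σ : Type} [NormedField K] [Fintype σ] (ρ : σ → ℝ≥0) (N : ℝ≥0)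
    (Q : MvPolynomial σ K)
    (hQ : ∀ v ∈ Q.support, ‖Q.coeff v‖₊ * v.prod (fun i n => ρ i ^ n) = N)
    (y : σ → ℝ) (v : σ →₀ ℕ) (hv : v ∈ Q.support) :
    ((‖Q.coeff v‖₊ * v.prod (fun i n => (ρ i * (Real.exp (y i)).toNNReal) ^ n) : ℝ≥0) : ℝ) =
      N * Real.exp (∑ i, (v i : ℝ) * y i) := by
  rw [NNReal.coe_mul, prod_rd, ← mul_assoc, ← NNReal.coe_mul, hQ v hv]

/-- a polynomial whose monomials are `X^u` and `X^u X_b` -/
theorem eq_mul_linf {K σ : Type} [NormedField K] [Fintype σ] (Q : MvPolynomial σ K) (u : σ →₀ ℕ)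
    (h : ∀ v ∈ Q.support, v = u ∨ ∃ i, v = u + Finsupp.single i 1) :
    Q = MvPolynomial.monomial u 1 *
      linf (Q.coeff u) (fun i => Q.coeff (u + Finsupp.single i 1)) := by
  classical
  have hinj : ∀ i j : σ, u + Finsupp.single i 1 = u + Finsupp.single j 1 → i = j := by
    intro i j hij
    have h1 : Finsupp.single i 1 = Finsupp.single j (1 : ℕ) := add_left_cancel hij
    exact Finsupp.single_left_injective one_ne_zero h1
  have hne : ∀ i : σ, u + Finsupp.single i 1 ≠ u := by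
    intro i hi
    have h1 : Finsupp.single i (1 : ℕ) = 0 := by
      have : u + Finsupp.single i 1 = u + 0 := by rw [add_zero]; exact hi
      exact add_left_cancel this
    rw [Finsupp.single_eq_zero] at h1
    exact one_ne_zero h1
  have h1 : MvPolynomial.monomial u 1 *
      linf (Q.coeff u) (fun i => Q.coeff (u + Finsupp.single i 1)) =
      MvPolynomial.monomial u (Q.coeff u) +
        ∑ i, MvPolynomial.monomial (u + Finsupp.single i 1) (Q.coeff (u + Finsupp.single i 1)) := by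
    unfold linf
    rw [finsum_eq_sum_of_fintype, mul_add, Finset.mul_sum]
    congr 1
    · rw [MvPolynomial.C_apply, MvPolynomial.monomial_mul, add_zero, one_mul]
    · refine Finset.sum_congr rfl fun i _ => ?_
      rw [MvPolynomial.X, MvPolynomial.C_mul_monomial, MvPolynomial.monomial_mul, mul_one, one_mul]
  rw [h1]
  ext v
  rw [MvPolynomial.coeff_add, MvPolynomial.coeff_sum, MvPolynomial.coeff_monomial]
  simp only [MvPolynomial.coeff_monomial]
  by_cases hv : v ∈ Q.support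
  · rcases h v hv with h2 | ⟨i, h2⟩
    · rw [h2, if_pos rfl, Finset.sum_eq_zero, add_zero]
      intro i _
      rw [if_neg (hne i)]
    · rw [h2, if_neg (fun h3 => hne i h3.symm), zero_add, Finset.sum_eq_single i, if_pos rfl]
      · intro j _ hj
        rw [if_neg (fun h3 => hj (hinj j i h3))]
      · intro h3
        exact absurd (Finset.mem_univ i) h3
  · have h2 : Q.coeff v = 0 := MvPolynomial.notMem_support_iff.1 hv
    rw [h2]
    have h3 : (if u = v then Q.coeff u else 0) = 0 := by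
      by_cases h4 : u = v
      · rw [if_pos h4, h4, h2]
      · rw [if_neg h4]
    rw [h3, zero_add, Finset.sum_eq_zero]
    intro i _
    by_cases h4 : u + Finsupp.single i 1 = v
    · rw [if_pos h4, h4, h2]
    · rw [if_neg h4]

end NLin

namespace NDat

variable {K A I E : Type} [NormedField K] [IsUltrametricDist K] [Finite I] [Finite E]
  [CommRing A] [IsDomain A] [Algebra K A] [Algebra.FiniteType K A] {D : NDat K A I E}

/-- (ND7), first step: `T_e` is close to a Laurent polynomial at `z1`. -/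
theorem exists_laurent (h6 : StmtQ6) (h7 : StmtQ7) (hg : StmtGp) (hL : StmtLP) (hD : D.Ok)
    {z1 : Ber K A} (h1 : IsZ1 D z1) {B : Set E} (hB : D.M.IsBase B) (he0 : D.e0 ∈ B)
    (hd : Dens (D.ph0 (B \ {D.e0})) z1) (e : E) :
    ∃ (P : MvPolynomial (B \ {D.e0} : Set E) K) (u : (B \ {D.e0} : Set E) →₀ ℕ),
      z1.v (D.ph0 (B \ {D.e0}) (MvPolynomial.monomial u 1) * D.T e - D.ph0 (B \ {D.e0}) P) <
        z1.v (D.ph0 (B \ {D.e0}) (MvPolynomial.monomial u 1) * D.T e) := by
  have hOm : z1 ∈ D.Om B := by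
    rw [h1.mem B hB he0]
    exact rfl
  have hFw : z1 ∈ D.Fw := hOm.1
  have hgs : GaussAt (fun e : (B \ {D.e0} : Set E) => D.T e.1) (fun e => D.ρ e.1) z1 := hOm.2
  have hte : z1.v (D.T e) = D.ρ e := v_T_Fw hD hFw e
  have hρe : (0 : ℝ) < D.ρ e := by exact_mod_cast hD.ρpos e
  set B' : Set E := B \ {D.e0} with hB'
  set q0 : MvPolynomial B' K →ₐ[K] A := D.ph0 B' with hq0
  obtain ⟨b, c, hc0, hbc⟩ := hd (D.T e) (D.ρ e) hρe
  have hcpos : 0 < z1.v (q0 c) := lt_of_le_of_ne (z1.nonneg _) (Ne.symm hc0)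
  have hbc' : z1.v (q0 c * D.T e - q0 b) < z1.v (q0 c * D.T e) := by
    rw [z1.mul, hte, mul_comm (z1.v (q0 c))]
    exact hbc
  have hbv : z1.v (q0 b) = z1.v (q0 c) * D.ρ e := by
    rw [z1.sub_eq hbc', z1.mul, hte]
  have hbpos : 0 < z1.v (q0 b) := by
    rw [hbv]
    exact mul_pos hcpos hρe
  have hc : c ≠ 0 := by
    intro h
    rw [h, map_zero, z1.zero] at hcpos
    exact lt_irrefl _ hcpos
  have hb : b ≠ 0 := by
    intro h
    rw [h, map_zero, z1.zero] at hbpos
    exact lt_irrefl _ hbpos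
  -- the Gauss point
  set η0 : Ber K (MvPolynomial B' K) := Ber.res q0 z1 with hη0
  have hη : IsGp (fun e : B' => D.ρ e.1) η0 := hgs
  -- the map `y ↦ (0, y)`
  set s : MvPolynomial (I ⊕ B') K →ₐ[K] MvPolynomial B' K :=
    MvPolynomial.aeval (Sum.elim (fun _ => 0) MvPolynomial.X) with hs
  have hsη : Ber.res s η0 = Ber.res (D.ph B') z1 := by
    have e1 : GaussAt (D.vr B') (D.eta B) z1 := ((mem_Om_iff hD).1 hOm).2
    have e2 : GaussAt (MvPolynomial.X : B' → MvPolynomial B' K) (fun e : B' => D.ρ e.1) η0 := by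
      intro P
      rw [MvPolynomial.aeval_X_left, AlgHom.id_apply]
      exact hη P
    have e3 := e2.sum_zero (t := fun _ : I => (0 : MvPolynomial B' K)) (fun _ => η0.zero)
    apply Ber.ext_v
    intro P
    have e4 : (Ber.res s η0).v P = gn (D.eta B) P := e3 P
    have e5 : (Ber.res (D.ph B') z1).v P = gn (D.eta B) P := e1 P
    rw [e4, e5]
  -- the neighbourhood
  have hU : {z' : Ber K A | z' ∈ D.V0 ∧ z'.v (q0 c * D.T e - q0 b) < z'.v (q0 c * D.T e)} ∈ 𝓝 z1 := by
    refine Filter.inter_mem (hD.nhd z1 hFw) ?_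
    exact (isOpen_lt (Ber.continuous_v _) (Ber.continuous_v _)).mem_nhds hbc'
  have hopen := h7 K (MvPolynomial (I ⊕ B') K) A (D.ph B') (ph_injective hD hB he0) z1
    (Om_zmp h6 h7 hg hD hB he0 hOm) _ hU
  rw [← hsη] at hopen
  have hev := (Ber.res_continuous s).continuousAt.preimage_mem_nhds hopen
  have hmain : ∀ᶠ y : Ber K (MvPolynomial B' K) in 𝓝 η0,
      (∀ i : B', y.v (MvPolynomial.X i) = (D.ρ i.1 : ℝ)) → y.v b * η0.v c ≤ η0.v b * y.v c := by
    filter_upwards [hev] with y hy hyr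
    obtain ⟨z', ⟨hz'V, hz'U⟩, hz'⟩ := hy
    have hval : ∀ P : MvPolynomial B' K, y.v P = z'.v (q0 P) := by
      intro P
      have e1 : (Ber.res (D.ph B') z').v (MvPolynomial.rename Sum.inr P) =
          (Ber.res s y).v (MvPolynomial.rename Sum.inr P) := by rw [hz']
      rw [Ber.res_v, Ber.res_v] at e1
      have e2 : D.ph B' (MvPolynomial.rename Sum.inr P) = q0 P := by
        rw [hq0]
        unfold NDat.ph NDat.ph0 NDat.vr
        rw [MvPolynomial.aeval_rename]
        rfl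
      have e3 : s (MvPolynomial.rename Sum.inr P) = P := by
        rw [hs, MvPolynomial.aeval_rename]
        have : (Sum.elim (fun _ : I => (0 : MvPolynomial B' K)) MvPolynomial.X) ∘
          (Sum.inr : B' → I ⊕ B') = MvPolynomial.X := rfl
        rw [this, MvPolynomial.aeval_X_left, AlgHom.id_apply]
      rw [e2, e3] at e1
      exact e1.symm
    have hyc : ∀ b' ∈ B, D.yc z' b' ≤ 0 := by
      intro b' hb'
      by_cases h0 : b' = D.e0
      · rw [h0, yc_e0 hD]
      · have e1 : z'.v (D.T b') = D.ρ b' := by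
          have e2 := hyr ⟨b', hb', h0⟩
          rw [hval] at e2
          have e3 : q0 (MvPolynomial.X ⟨b', hb', h0⟩) = D.T b' := by
            rw [hq0]
            unfold NDat.ph0
            rw [MvPolynomial.aeval_X]
          rw [e3] at e2
          exact e2
        unfold NDat.yc
        rw [e1, sub_self]
    have hye : D.yc z' e ≤ 0 := (hD.berg z' hz'V).nonpos hD.ground hB hyc e
    have hTe : z'.v (D.T e) ≤ D.ρ e := by
      rw [v_T hD hz'V e]
      unfold NDat.rd
      rw [NNReal.coe_mul, Real.coe_toNNReal _ (Real.exp_pos _).le]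
      exact mul_le_of_le_one_right hρe.le (Real.exp_le_one_iff.2 hye)
    have e1 : y.v b = z'.v (q0 c) * z'.v (D.T e) := by
      rw [hval, z'.sub_eq hz'U, z'.mul]
    have e2 : η0.v b = η0.v c * D.ρ e := hbv
    have e3 : y.v c = z'.v (q0 c) := hval c
    rw [e1, e2, e3]
    have h4 : z'.v (q0 c) * z'.v (D.T e) ≤ z'.v (q0 c) * D.ρ e :=
      mul_le_mul_of_nonneg_left hTe (z'.nonneg _)
    calc z'.v (q0 c) * z'.v (D.T e) * η0.v c ≤ z'.v (q0 c) * D.ρ e * η0.v c :=
          mul_le_mul_of_nonneg_right h4 (η0.nonneg _)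
      _ = η0.v c * D.ρ e * z'.v (q0 c) := by ring
  obtain ⟨P, u, hPu⟩ := hL K B' (fun e : B' => D.ρ e.1) (fun i => hD.ρpos _) η0 hη b c hb hc hmain
  refine ⟨P, u, ?_⟩
  -- `X^u`
  have hu : 0 < z1.v (q0 (MvPolynomial.monomial u 1)) := by
    have e1 : z1.v (q0 (MvPolynomial.monomial u 1)) = gn (fun e : B' => D.ρ e.1)
      (MvPolynomial.monomial u (1 : K)) := hgs _
    rw [e1]
    have e2 : (0 : ℝ≥0) < gn (fun e : B' => D.ρ e.1) (MvPolynomial.monomial u (1 : K)) :=
      gn_pos (fun i => hD.ρpos _) (by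
        intro h
        rw [MvPolynomial.monomial_eq_zero] at h
        exact one_ne_zero h)
    exact_mod_cast e2
  have hPu' : z1.v (q0 (MvPolynomial.monomial u 1) * q0 b - q0 P * q0 c) <
      z1.v (q0 (MvPolynomial.monomial u 1) * q0 b) := by
    have e1 : η0.v (MvPolynomial.monomial u 1 * b - P * c) =
        z1.v (q0 (MvPolynomial.monomial u 1) * q0 b - q0 P * q0 c) := by
      rw [hη0, Ber.res_v, map_sub, map_mul, map_mul]
    have e2 : η0.v (MvPolynomial.monomial u 1 * b) =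
        z1.v (q0 (MvPolynomial.monomial u 1) * q0 b) := by
      rw [hη0, Ber.res_v, map_mul]
    rw [e1, e2] at hPu
    exact hPu
  have hfin : z1.v (q0 c) * z1.v (q0 (MvPolynomial.monomial u 1) * D.T e - q0 P) <
      z1.v (q0 c) * z1.v (q0 (MvPolynomial.monomial u 1) * D.T e) := by
    rw [← z1.mul, ← z1.mul]
    have e1 : q0 c * (q0 (MvPolynomial.monomial u 1) * D.T e - q0 P) =
        q0 (MvPolynomial.monomial u 1) * (q0 c * D.T e - q0 b) +
          (q0 (MvPolynomial.monomial u 1) * q0 b - q0 P * q0 c) := by ring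
    have e2 : z1.v (q0 c * (q0 (MvPolynomial.monomial u 1) * D.T e)) =
        z1.v (q0 (MvPolynomial.monomial u 1)) * z1.v (q0 c * D.T e) := by
      rw [← z1.mul]; congr 1; ring
    rw [e1, e2]
    refine (z1.add _ _).trans_lt (max_lt ?_ ?_)
    · rw [z1.mul]
      exact mul_lt_mul_of_pos_left hbc' hu
    · refine hPu'.trans_le ?_
      rw [z1.mul, hbv, z1.mul, hte]
  exact lt_of_mul_lt_mul_left hfin hcpos.le

/-- (ND7) -/
theorem exists_linear (hD : D.Ok) {z1 : Ber K A} (h1 : IsZ1 D z1) {B : Set E}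
    (hB : D.M.IsBase B) (he0 : D.e0 ∈ B) {e : E} (he : e ∉ B)
    (h : ∃ (P : MvPolynomial (B \ {D.e0} : Set E) K) (u : (B \ {D.e0} : Set E) →₀ ℕ),
      z1.v (D.ph0 (B \ {D.e0}) (MvPolynomial.monomial u 1) * D.T e - D.ph0 (B \ {D.e0}) P) <
        z1.v (D.ph0 (B \ {D.e0}) (MvPolynomial.monomial u 1) * D.T e)) :
    ∃ (c0 : K) (c : (B \ {D.e0} : Set E) → K), ‖c0‖₊ ≤ D.ρ e ∧ (∀ b, ‖c b‖₊ * D.ρ b.1 ≤ D.ρ e) ∧
      z1.v (D.T e - D.ph0 (B \ {D.e0}) (linf c0 c)) < D.ρ e := by
  classical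
  have hOm : z1 ∈ D.Om B := by
    rw [h1.mem B hB he0]
    exact rfl
  have hFw : z1 ∈ D.Fw := hOm.1
  have hgs : GaussAt (fun e : (B \ {D.e0} : Set E) => D.T e.1) (fun e => D.ρ e.1) z1 := hOm.2
  have hte : z1.v (D.T e) = D.ρ e := v_T_Fw hD hFw e
  have hρe : (0 : ℝ) < D.ρ e := by exact_mod_cast hD.ρpos e
  set B' : Set E := B \ {D.e0} with hB'
  let _ : Fintype B' := Fintype.ofFinite B'
  set q0 : MvPolynomial B' K →ₐ[K] A := D.ph0 B' with hq0
  obtain ⟨P, u, hPu⟩ := h
  set ρ : B' → ℝ≥0 := fun b => D.ρ b.1 with hρ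
  have hgsv : ∀ Q : MvPolynomial B' K, z1.v (q0 Q) = gn ρ Q := hgs
  -- the monomial
  have hmon : ∀ (z : Ber K A) (ρ' : B' → ℝ≥0),
      (∀ b : B', z.v (D.T b.1) = ρ' b) →
        z.v (q0 (MvPolynomial.monomial u 1)) = (u.prod fun i n => ρ' i ^ n : ℝ≥0) := by
    intro z ρ' hz
    rw [hq0]
    unfold NDat.ph0
    rw [MvPolynomial.aeval_monomial, map_one, one_mul, Finsupp.prod_fintype _ _ (fun i => pow_zero _),
      Finsupp.prod_fintype _ _ (fun i => pow_zero _), Ber.prod, NNReal.coe_prod]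
    refine Finset.prod_congr rfl fun i _ => ?_
    rw [Ber.pow, hz i, NNReal.coe_pow]
  set Ru : ℝ≥0 := u.prod fun i n => ρ i ^ n with hRu
  have hRupos : 0 < Ru := by
    rw [hRu, Finsupp.prod_fintype _ _ (fun i => pow_zero _)]
    exact Finset.prod_pos fun i _ => pow_pos (hD.ρpos _) _
  have hRupos' : (0 : ℝ) < Ru := by exact_mod_cast hRupos
  have hz1u : z1.v (q0 (MvPolynomial.monomial u 1)) = Ru :=
    hmon z1 ρ fun b => v_T_Fw hD hFw b.1
  set N : ℝ≥0 := Ru * D.ρ e with hN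
  have hNpos : 0 < N := mul_pos hRupos (hD.ρpos e)
  have hNpos' : (0 : ℝ) < N := by exact_mod_cast hNpos
  have hN1 : z1.v (q0 (MvPolynomial.monomial u 1) * D.T e) = N := by
    rw [z1.mul, hz1u, hte, hN, NNReal.coe_mul]
  have hNP : gn ρ P = N := by
    have e1 := z1.sub_eq hPu
    rw [hgsv P, hN1] at e1
    exact_mod_cast e1
  -- strip
  obtain ⟨Q, hQ1, hQ2⟩ := NLin.strip ρ P (by rw [hNP]; exact hNpos)
  rw [hNP] at hQ1 hQ2
  have hQu : z1.v (q0 (MvPolynomial.monomial u 1) * D.T e - q0 Q) <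
      z1.v (q0 (MvPolynomial.monomial u 1) * D.T e) := by
    have e1 : q0 (MvPolynomial.monomial u 1) * D.T e - q0 Q =
        (q0 (MvPolynomial.monomial u 1) * D.T e - q0 P) + q0 (P - Q) := by
      rw [map_sub]; ring
    rw [e1]
    refine (z1.add _ _).trans_lt (max_lt hPu ?_)
    rw [hgsv, hN1]
    exact_mod_cast hQ2
  have hQne : Q.support.Nonempty := by
    rw [Finset.nonempty_iff_ne_empty]
    intro h0
    rw [MvPolynomial.support_eq_empty] at h0
    rw [h0, map_zero, sub_zero] at hQu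
    exact lt_irrefl _ hQu
  -- generic points
  obtain ⟨δ, hδ, hlim⟩ := h1.lim _
    ((isOpen_lt (Ber.continuous_v _) (Ber.continuous_v _)).mem_nhds hQu)
  set δ' : ℝ := min δ D.δ0 with hδ'
  have hδ'pos : 0 < δ' := lt_min hδ hD.δpos
  set C : Set B' := {b | b.1 ∈ D.M.fundCircuit e B} with hC
  have hcirc : D.e0 ∈ D.M.fundCircuit e B ∨ C.Nonempty := by
    obtain ⟨b, hb1, hb2⟩ := MTC2.nonempty_D hD.ground hD.loopless hB e
    by_cases h0 : b = D.e0
    · left; rw [← h0]; exact hb1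
    · right; exact ⟨⟨b, hb2, h0⟩, hb1⟩
  have hS := supp_simplex (Q.support.image fun (v : B' →₀ ℕ) => fun i => (v i : ℤ) - (u i : ℤ))
    (hQne.image _) C (D.e0 ∈ D.M.fundCircuit e B) hcirc δ' hδ'pos (by
    intro y hy1 hy2 hy3
    -- extension by zero
    set w : E → ℝ := fun x => if hx : x ∈ B' then y ⟨x, hx⟩ else 0 with hw
    have hw1 : ∀ b : B', w b.1 = y b := by
      intro b
      rw [hw]
      simp only [b.2, dif_pos]
    have hw0 : w D.e0 = 0 := by
      rw [hw]
      have : D.e0 ∉ B' := fun hx => hx.2 rfl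
      simp only [this, dif_neg, not_false_iff]
    have hBsub : ∀ b ∈ B, b = D.e0 ∨ b ∈ B' := by
      intro b hb
      by_cases h0 : b = D.e0
      · exact Or.inl h0
      · exact Or.inr ⟨hb, h0⟩
    have hinj : Set.InjOn w B := by
      intro b hb b' hb' hbb
      rcases hBsub b hb with h2 | h2 <;> rcases hBsub b' hb' with h3 | h3
      · rw [h2, h3]
      · rw [h2, hw0, hw1 ⟨b', h3⟩] at hbb
        exact absurd hbb.symm (hy3 _)
      · rw [h3, hw0, hw1 ⟨b, h2⟩] at hbb
        exact absurd hbb (hy3 _)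
      · rw [hw1 ⟨b, h2⟩, hw1 ⟨b', h3⟩] at hbb
        exact congrArg Subtype.val (hy2 hbb)
    have hsm : ∀ b ∈ B, |w b| < δ' := by
      intro b hb
      rcases hBsub b hb with h2 | h2
      · rw [h2, hw0, abs_zero]; exact hδ'pos
      · rw [hw1 ⟨b, h2⟩]; exact hy1 _
    obtain ⟨Y, Y1, Y2, Y3, Y4, Y5, Y6⟩ := exists_gen3 hD.ground hD.loopless hB he0 w hw0 hinj hsm
    have hgen : D.Gen δ' B (fun _ => (δ' / 2).toNNReal) Y := by
      refine ⟨fun i => Real.toNNReal_pos.2 (half_pos hδ'pos), fun i => ?_, Y1, Y2, Y3, Y4⟩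
      rw [Real.coe_toNNReal _ (half_pos hδ'pos).le]
      exact half_lt_self hδ'pos
    obtain ⟨z, hz⟩ := hD.top B _ Y hB he0 (hgen.mono (min_le_right _ _))
    have hzU : z.v (q0 (MvPolynomial.monomial u 1) * D.T e - q0 Q) <
        z.v (q0 (MvPolynomial.monomial u 1) * D.T e) :=
      hlim B _ Y z hB he0 (hgen.mono (min_le_left _ _)) hz
    -- the values at `z`
    set ρ' : B' → ℝ≥0 := fun b => ρ b * (Real.exp (y b)).toNNReal with hρ'
    have hrd : ∀ b : B', D.rd Y b.1 = ρ' b := by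
      intro b
      rw [hρ']
      unfold NDat.rd
      rw [Y5 b.1 b.2.1, hw1]
    have hgz : GaussAt (fun b : B' => D.T b.1) ρ' z := by
      have e1 := hz.gauss.comp (Sum.inr : B' → I ⊕ B') Sum.inr_injective
      have e2 : (fun b : B' => (Sum.elim (fun _ : I => (δ' / 2).toNNReal)
        (fun e : B' => D.rd Y e.1) (Sum.inr b) : ℝ≥0)) = ρ' := by
        funext b
        exact hrd b
      rw [e2] at e1
      exact e1
    have hzT : ∀ b : B', z.v (D.T b.1) = ρ' b := fun b => hgz.v_eq b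
    have hzF := hz.mem
    have hzte : z.v (D.T e) = D.ρ e * Real.exp (Y e) := by
      rw [v_T hD hzF.1 e]
      unfold NDat.rd
      rw [NNReal.coe_mul, Real.coe_toNNReal _ (Real.exp_pos _).le, hzF.2.2 e]
    have hzu : z.v (q0 (MvPolynomial.monomial u 1)) = Ru * Real.exp (∑ i, (u i : ℝ) * y i) := by
      rw [hmon z ρ' hzT, hρ', NLin.prod_rd]
    have hzeq : (gn ρ' Q : ℝ) = N * Real.exp (∑ i, (u i : ℝ) * y i + Y e) := by
      have e1 : z.v (q0 Q) = gn ρ' Q := hgz Q
      rw [← e1, z.sub_eq hzU, z.mul, hzu, hzte, Real.exp_add, hN, NNReal.coe_mul]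
      ring
    have hsum : ∀ v : B' →₀ ℕ, ∑ i, (((v i : ℤ) - (u i : ℤ) : ℤ) : ℝ) * y i =
        ∑ i, (v i : ℝ) * y i - ∑ i, (u i : ℝ) * y i := by
      intro v
      rw [← Finset.sum_sub_distrib]
      refine Finset.sum_congr rfl fun i _ => ?_
      push_cast
      ring
    obtain ⟨b, hb1, hb2, hb3, hb4⟩ := Y6 e he
    refine ⟨Y e, ?_, ?_, ?_, ?_, ?_⟩
    · intro s hs
      obtain ⟨v, hv, rfl⟩ := Finset.mem_image.1 hs
      rw [hsum]
      have e1 : ‖Q.coeff v‖₊ * v.prod (fun i n => ρ' i ^ n) ≤ gn ρ' Q :=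
        Finset.le_sup (f := fun u => ‖Q.coeff u‖₊ * u.prod fun i n => ρ' i ^ n) hv
      have e2 : ((‖Q.coeff v‖₊ * v.prod (fun i n => ρ' i ^ n) : ℝ≥0) : ℝ) ≤ gn ρ' Q := by
        exact_mod_cast e1
      rw [hzeq, hρ', NLin.gn_rd ρ N Q hQ1 y v hv] at e2
      have e3 := Real.exp_le_exp.1 (le_of_mul_le_mul_left e2 hNpos')
      linarith
    · obtain ⟨v, hv, hvm⟩ := Finset.exists_mem_eq_sup Q.support hQne
        (fun u => ‖Q.coeff u‖₊ * u.prod fun i n => ρ' i ^ n)
      refine ⟨_, Finset.mem_image_of_mem _ hv, ?_⟩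
      rw [hsum]
      have e2 : ((‖Q.coeff v‖₊ * v.prod (fun i n => ρ' i ^ n) : ℝ≥0) : ℝ) = gn ρ' Q := by
        unfold gn
        rw [hvm]
      rw [hzeq, hρ', NLin.gn_rd ρ N Q hQ1 y v hv] at e2
      have e3 := Real.exp_injective (mul_left_cancel₀ hNpos'.ne' e2)
      linarith
    · intro i hi
      rw [hb3, ← hw1 i]
      exact hb4 i.1 hi i.2.1
    · intro h0
      rw [hb3, ← hw0]
      exact hb4 _ h0 he0
    · rcases hBsub b hb2 with h2 | h2
      · right
        refine ⟨by rw [← h2]; exact hb1, ?_⟩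
        rw [hb3, h2, hw0]
      · left
        exact ⟨⟨b, h2⟩, hb1, by rw [hb3, hw1 ⟨b, h2⟩]⟩)
  -- the monomials of `Q`
  have hsupp : ∀ v ∈ Q.support, v = u ∨ ∃ i, v = u + Finsupp.single i 1 := by
    intro v hv
    rcases hS.1 _ (Finset.mem_image_of_mem _ hv) with ⟨h2, -⟩ | ⟨i, -, h2⟩
    · left
      ext j
      have := congrFun h2 j
      simp only [Pi.zero_apply] at this
      omega
    · right
      refine ⟨i, ?_⟩
      ext j
      have h3 := congrFun h2 j
      rw [Finsupp.add_apply]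
      by_cases hj : j = i
      · rw [hj, Pi.single_eq_same] at h3
        rw [hj, Finsupp.single_eq_same]
        omega
      · rw [Pi.single_eq_of_ne hj] at h3
        rw [Finsupp.single_eq_of_ne hj]
        omega
  have hQl := NLin.eq_mul_linf Q u hsupp
  refine ⟨Q.coeff u, fun i => Q.coeff (u + Finsupp.single i 1), ?_, ?_, ?_⟩
  · by_cases h0 : u ∈ Q.support
    · have e1 := hQ1 u h0
      rw [← hRu, hN, mul_comm] at e1
      exact (mul_left_cancel₀ hRupos.ne' e1).le
    · rw [MvPolynomial.notMem_support_iff.1 h0, nnnorm_zero]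
      exact zero_le
  · intro b
    show ‖Q.coeff (u + Finsupp.single b 1)‖₊ * ρ b ≤ D.ρ e
    by_cases h0 : u + Finsupp.single b 1 ∈ Q.support
    · have e1 := hQ1 _ h0
      have e0 : (u + Finsupp.single b 1).prod (fun i n => ρ i ^ n) = Ru * ρ b := by
        rw [hRu, Finsupp.prod_fintype _ _ (fun i => pow_zero _),
          Finsupp.prod_fintype _ _ (fun i => pow_zero _)]
        simp only [Finsupp.add_apply, pow_add]
        rw [Finset.prod_mul_distrib]
        congr 1
        rw [Finset.prod_eq_single b]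
        · rw [Finsupp.single_eq_same, pow_one]
        · intro j _ hj
          rw [Finsupp.single_eq_of_ne hj, pow_zero]
        · intro h3
          exact absurd (Finset.mem_univ b) h3
      rw [e0, hN] at e1
      have e2 : Ru * (‖Q.coeff (u + Finsupp.single b 1)‖₊ * ρ b) = Ru * D.ρ e := by
        rw [← e1]; ring
      exact (mul_left_cancel₀ hRupos.ne' e2).le
    · rw [MvPolynomial.notMem_support_iff.1 h0, nnnorm_zero, zero_mul]
      exact zero_le
  · rw [hQl, map_mul, ← mul_sub, z1.mul, z1.mul, hz1u, hte] at hQu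
    exact lt_of_mul_lt_mul_left hQu hRupos'.le

end NDat

end Pool.Agent.TD
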