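import Pool.Agent.TD.N.Rk

/-! Local data ND0: the maximum principle (PAPER2.md, ND4; module TD_N_MP). -/

open scoped Topology NNReal

namespace Pool.Agent.TD

namespace NDat

section Mp

variable {K A I E : Type} [NormedField K] [CommRing A] [Algebra K A] {D : NDat K A I E}

/-- The radii of the family `J` at a point of `F_(r,y)`, the radius of `a0` is `g`. -/
noncomputable def mpR (D : NDat K A I E) (J : Set (Option D.E')) (g : ℝ≥0) (r : I → ℝ≥0)
    (y : E → ℝ) : I ⊕ J → ℝ≥0 :=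
  Sum.elim r fun j => j.1.elim g fun e => D.rd y e.1

theorem mpR_tendsto (J : Set (Option D.E')) (g : ℝ≥0) {r : ℕ → I → ℝ≥0} {y : ℕ → E → ℝ}
    (hr : ∀ i, Filter.Tendsto (fun k => r k i) Filter.atTop (𝓝 0))
    (hy : ∀ e, Filter.Tendsto (fun k => y k e) Filter.atTop (𝓝 0)) :
    Filter.Tendsto (fun k => mpR D J g (r k) (y k)) Filter.atTop
      (𝓝 (Sum.elim (fun _ => 0) (fun j => D.xg g j.1) : I ⊕ J → ℝ≥0)) := by
  rw [tendsto_pi_nhds]
  rintro (i | ⟨o, ho⟩)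
  · exact hr i
  · rcases o with _ | e
    · exact tendsto_const_nhds
    · show Filter.Tendsto (fun k => D.ρ e.1 * (Real.exp (y k e.1)).toNNReal) Filter.atTop
        (𝓝 (D.ρ e.1))
      have h1 : Filter.Tendsto (fun k => (Real.exp (y k e.1)).toNNReal) Filter.atTop
          (𝓝 (Real.exp 0).toNNReal) :=
        (continuous_real_toNNReal.tendsto _).comp
          ((Real.continuous_exp.tendsto _).comp (hy e.1))
      rw [Real.exp_zero, Real.toNNReal_one] at h1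
      have h2 := h1.const_mul (D.ρ e.1)
      rwa [mul_one] at h2

theorem tendsto_r {B : Set E} {r : ℕ → I → ℝ≥0} {y : ℕ → E → ℝ}
    (hg : ∀ k : ℕ, D.Gen (1 / ((k : ℝ) + 1)) B (r k) (y k)) (i : I) :
    Filter.Tendsto (fun k => r k i) Filter.atTop (𝓝 0) := by
  rw [← NNReal.tendsto_coe, NNReal.coe_zero]
  exact squeeze_zero (fun k => NNReal.coe_nonneg _) (fun k => ((hg k).rlt i).le)
    tendsto_one_div_add_atTop_nhds_zero_nat

theorem tendsto_y {B : Set E} {r : ℕ → I → ℝ≥0} {y : ℕ → E → ℝ}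
    (hg : ∀ k : ℕ, D.Gen (1 / ((k : ℝ) + 1)) B (r k) (y k)) (e : E) :
    Filter.Tendsto (fun k => y k e) Filter.atTop (𝓝 0) :=
  squeeze_zero_norm (fun k => by rw [Real.norm_eq_abs]; exact ((hg k).ylt e).le)
    tendsto_one_div_add_atTop_nhds_zero_nat

end Mp

variable {K A I E : Type} [NormedField K] [IsUltrametricDist K] [Finite I] [Finite E]
  [CommRing A] [IsDomain A] [Algebra K A] [Algebra.FiniteType K A] {D : NDat K A I E}

/-- (ND4), first case: `a0` is not in the family. -/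
theorem mp_case1 (h6 : StmtQ6) (h7 : StmtQ7) (hg : StmtGp) (hD : D.Ok) {a0 : A} {γ0 : ℝ≥0}
    (hγ : 0 < γ0) (hmax : ∀ z ∈ D.Fw, z.v a0 ≤ γ0) {J : Set (Option D.E')} {z : Ber K A}
    (h : D.IsMaxG a0 γ0 J z) (hn : none ∉ J) {ε δ : ℝ} (hε : 0 < ε) (hδ : 0 < δ) :
    ∃ B r y z', D.M.IsBase B ∧ D.e0 ∈ B ∧ D.Gen δ B r y ∧ D.IsTop B r y z' ∧
      γ0 - ε < z'.v a0 := by
  obtain ⟨B0, hB0, he00⟩ := exists_base hD
  have hB : D.M.IsBase (D.JE J) := (h.card_eq h6 h7 hg hD hγ hmax hB0 he00).2.2.1 hn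
  have he0 : D.e0 ∈ D.JE J := Or.inl rfl
  have hzF : z ∈ D.Fw := h.mem.1
  have hza : z.v a0 = γ0 := h.mem.2
  have hV : D.V0 ∩ {z' | (γ0 : ℝ) - ε < z'.v a0} ∈ 𝓝 z := by
    apply Filter.inter_mem (hD.nhd z hzF)
    have ho : IsOpen {z' : Ber K A | (γ0 : ℝ) - ε < z'.v a0} :=
      isOpen_lt continuous_const (Ber.continuous_v a0)
    apply ho.mem_nhds
    show (γ0 : ℝ) - ε < z.v a0
    rw [hza]
    linarith
  have hop := h.open1 h6 h7 hg hD hγ hmax hV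
  have hk : ∀ k : ℕ, ∃ (r : I → ℝ≥0) (y : E → ℝ), D.Gen (1 / ((k : ℝ) + 1)) (D.JE J) r y :=
    fun k => exists_Gen hD hB he0 (by positivity)
  choose r y hgk using hk
  have ht := (mpR_tendsto (D := D) J γ0 (tendsto_r hgk) (tendsto_y hgk)).eventually hop
  have hsm : ∀ᶠ k : ℕ in Filter.atTop, 1 / ((k : ℝ) + 1) < min δ D.δ0 :=
    tendsto_one_div_add_atTop_nhds_zero_nat.eventually_lt_const (lt_min hδ hD.δpos)
  obtain ⟨k, ⟨z'', ⟨hzV, hza''⟩, hG⟩, hk⟩ := (ht.and hsm).exists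
  have hg1 : D.Gen δ (D.JE J) (r k) (y k) := (hgk k).mono (hk.le.trans (min_le_left _ _))
  have hg2 : D.Gen D.δ0 (D.JE J) (r k) (y k) := (hgk k).mono (hk.le.trans (min_le_right _ _))
  have hmem : ∀ e : (D.JE J \ {D.e0} : Set E), ∃ h : e.1 ≠ D.e0,
      some (⟨e.1, h⟩ : D.E') ∈ J := by
    rintro ⟨e, he1, he2⟩
    rcases he1 with he1 | he1
    · exact absurd he1 he2
    · exact he1
  choose hne hJ using hmem
  let f : I ⊕ (D.JE J \ {D.e0} : Set E) → I ⊕ J :=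
    Sum.map id (fun e => (⟨some ⟨e.1, hne e⟩, hJ e⟩ : J))
  have hf : Function.Injective f := by
    apply Function.Injective.sumMap Function.injective_id
    intro e e' hee
    have h1 := congrArg Subtype.val hee
    have h2 := Option.some.inj h1
    exact Subtype.ext (congrArg (fun x : D.E' => x.1) h2)
  have hG2 := hG.comp f hf
  have e1 : (fun i => D.tx a0 J (f i)) = D.vr (D.JE J \ {D.e0}) := by
    funext i
    rcases i with i | e
    · rfl
    · rfl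
  have e2 : (fun i => mpR D J γ0 (r k) (y k) (f i)) =
      Sum.elim (r k) fun e : (D.JE J \ {D.e0} : Set E) => D.rd (y k) e.1 := by
    funext i
    rcases i with i | e
    · rfl
    · rfl
  rw [e1, e2] at hG2
  have hFry : z'' ∈ D.Fry (r k) (y k) := mem_Fry' hD hB hg2 hzV hG2
  obtain ⟨z', hz'⟩ := hD.top (D.JE J) (r k) (y k) hB he0 hg2
  refine ⟨D.JE J, r k, y k, z', hB, he0, hg1, hz', ?_⟩
  exact lt_of_lt_of_le hza'' (hz'.max z'' hFry a0)

/-- (ND4), second case: `a0` is in the family. -/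
theorem mp_case2 (h6 : StmtQ6) (h7 : StmtQ7) (hg : StmtGp) (hD : D.Ok) {a0 : A} {γ0 : ℝ≥0}
    (hγ : 0 < γ0) (hmax : ∀ z ∈ D.Fw, z.v a0 ≤ γ0) {J : Set (Option D.E')} {z : Ber K A}
    (h : D.IsMaxG a0 γ0 J z) (hn : none ∈ J) {δ : ℝ} (hδ : 0 < δ) :
    ∃ B r y z', D.M.IsBase B ∧ D.e0 ∈ B ∧ D.Gen δ B r y ∧ D.IsTop B r y z' ∧
      γ0 ≤ z'.v a0 := by
  by_contra hcon
  push Not at hcon
  obtain ⟨B0, hB0, he00⟩ := exists_base hD
  have hI : D.M.Indep (D.JE J) := h.indep h6 h7 hg hD hγ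
  have hcard : (D.JE J).ncard + 1 = B0.ncard := (h.card_eq h6 h7 hg hD hγ hmax hB0 he00).2.2.2 hn
  have he0 : D.e0 ∈ D.JE J := Or.inl rfl
  obtain ⟨B1, hB1, hIB⟩ := hI.exists_isBase_superset
  have hzF : z ∈ D.Fw := h.mem.1
  set δ1 : ℝ := min δ D.δ0 with hδ1
  have hδ1pos : 0 < δ1 := lt_min hδ hD.δpos
  -- the neighbourhood
  have hV : {z' | z' ∈ D.V0 ∧ (∀ i, z'.v (D.t i) < δ1) ∧ ∀ e, |D.yc z' e| < δ1} ∈ 𝓝 z := by
    have h1 : ∀ᶠ z' in 𝓝 z, z' ∈ D.V0 := hD.nhd z hzF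
    have h2 : ∀ᶠ z' in 𝓝 z, ∀ i, z'.v (D.t i) < δ1 := by
      rw [Filter.eventually_all]
      intro i
      have h3 : Filter.Tendsto (fun z' : Ber K A => z'.v (D.t i)) (𝓝 z) (𝓝 (z.v (D.t i))) :=
        (Ber.continuous_v (D.t i)).tendsto z
      rw [hzF.2.1 i] at h3
      exact h3.eventually_lt_const hδ1pos
    have h3 : ∀ᶠ z' in 𝓝 z, ∀ e, |D.yc z' e| < δ1 := by
      rw [Filter.eventually_all]
      intro e
      have h4 : Filter.Tendsto (fun z' : Ber K A => D.yc z' e) (𝓝 z) (𝓝 (D.yc z e)) :=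
        (yc_cont hD e).continuousAt (hD.nhd z hzF)
      have h5 := h4.abs
      rw [hzF.2.2 e, abs_zero] at h5
      exact h5.eventually_lt_const hδ1pos
    filter_upwards [h1, h2, h3] with z' a1 a2 a3
    exact ⟨a1, a2, a3⟩
  have hop := h.open1 h6 h7 hg hD hγ hmax hV
  -- a radius larger than `γ0`
  have hcont : Continuous (fun g : ℝ≥0 =>
      (Sum.elim (fun _ => 0) (fun j => D.xg g j.1) : I ⊕ J → ℝ≥0)) := by
    apply continuous_pi
    rintro (i | ⟨o, ho⟩)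
    · exact continuous_const
    · rcases o with _ | e
      · exact continuous_id
      · exact continuous_const
  have hop2 := (hcont.tendsto γ0).eventually hop.eventually_nhds
  have hγ' : ∃ γ' : ℝ≥0, (∀ᶠ p in 𝓝 (Sum.elim (fun _ => 0) (fun j => D.xg γ' j.1) :
      I ⊕ J → ℝ≥0), ∃ z' ∈ {z' | z' ∈ D.V0 ∧ (∀ i, z'.v (D.t i) < δ1) ∧
        ∀ e, |D.yc z' e| < δ1}, GaussAt (D.tx a0 J) p z') ∧ γ0 < γ' := by
    have h1 : ∀ᶠ g in 𝓝[>] γ0, γ0 < g := self_mem_nhdsWithin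
    exact ((hop2.filter_mono nhdsWithin_le_nhds).and h1).exists
  obtain ⟨γ', hop3, hlt⟩ := hγ'
  -- the sequence
  have hk : ∀ k : ℕ, ∃ (r : I → ℝ≥0) (y : E → ℝ), D.Gen (1 / ((k : ℝ) + 1)) B1 r y :=
    fun k => exists_Gen hD hB1 (hIB he0) (by positivity)
  choose r y hgk using hk
  have ht := (mpR_tendsto (D := D) J γ' (tendsto_r hgk) (tendsto_y hgk)).eventually hop3
  have hex : ∀ k : ℕ, ∃ z' : Ber K A, (∃ z'' ∈ {z' | z' ∈ D.V0 ∧ (∀ i, z'.v (D.t i) < δ1) ∧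
      ∀ e, |D.yc z' e| < δ1}, GaussAt (D.tx a0 J) (mpR D J γ' (r k) (y k)) z'') →
      z' ∈ D.V0 ∧ (∀ i, z'.v (D.t i) < δ1) ∧ (∀ e, |D.yc z' e| < δ1) ∧
        GaussAt (D.tx a0 J) (mpR D J γ' (r k) (y k)) z' := by
    intro k
    by_cases hc : ∃ z'' ∈ {z' | z' ∈ D.V0 ∧ (∀ i, z'.v (D.t i) < δ1) ∧
      ∀ e, |D.yc z' e| < δ1}, GaussAt (D.tx a0 J) (mpR D J γ' (r k) (y k)) z''
    · obtain ⟨z'', ⟨h1, h2, h3⟩, h4⟩ := hc
      exact ⟨z'', fun _ => ⟨h1, h2, h3, h4⟩⟩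
    · exact ⟨z, fun hc' => absurd hc' hc⟩
  choose w hw using hex
  have hev : ∀ᶠ k : ℕ in Filter.atTop, w k ∈ D.V0 ∧ (∀ i, (w k).v (D.t i) < δ1) ∧
      (∀ e, |D.yc (w k) e| < δ1) ∧ GaussAt (D.tx a0 J) (mpR D J γ' (r k) (y k)) (w k) :=
    ht.mono fun k hk => hw k hk
  -- values
  have hvt : ∀ k, GaussAt (D.tx a0 J) (mpR D J γ' (r k) (y k)) (w k) →
      ∀ i, (w k).v (D.t i) = r k i := fun k hk i => hk.v_eq (Sum.inl i)
  have hva : ∀ k, GaussAt (D.tx a0 J) (mpR D J γ' (r k) (y k)) (w k) →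
      (w k).v a0 = γ' := fun k hk => hk.v_eq (Sum.inr ⟨none, hn⟩)
  have hvy : ∀ k, GaussAt (D.tx a0 J) (mpR D J γ' (r k) (y k)) (w k) → ∀ e ∈ D.JE J,
      D.yc (w k) e = y k e := by
    intro k hk e he
    rcases he with rfl | ⟨hne, heJ⟩
    · rw [yc_e0 hD, (hgk k).y0]
    · exact yc_of_v hD (hk.v_eq (Sum.inr ⟨some ⟨e, hne⟩, heJ⟩))
  have hyc : ∀ᶠ k : ℕ in Filter.atTop, ∀ e, |D.yc (w k) e| ≤ 1 / ((k : ℝ) + 1) := by
    filter_upwards [hev] with k hk e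
    obtain ⟨hk1, hk2, hk3, hk4⟩ := hk
    have hinj : Set.InjOn (D.yc (w k)) (D.JE J) := by
      intro a ha b hb hab
      rw [hvy k hk4 a ha, hvy k hk4 b hb] at hab
      exact (hgk k).inj (hIB ha) (hIB hb) hab
    have hval : (∃ b ∈ D.JE J, D.yc (w k) e = D.yc (w k) b) →
        |D.yc (w k) e| ≤ 1 / ((k : ℝ) + 1) := by
      rintro ⟨b, hb, hbe⟩
      rw [hbe, hvy k hk4 b hb]
      exact ((hgk k).ylt b).le
    by_contra hnot
    have hnv : ¬ ∃ b ∈ D.JE J, D.yc (w k) e = D.yc (w k) b := fun hc => hnot (hval hc)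
    push Not at hnv
    obtain ⟨hI2, hinj2⟩ := (hD.berg (w k) hk1).insert_indep hD.ground hI hinj hnv
    have heI : e ∉ D.JE J := fun hc => hnv e hc rfl
    have hB2 : D.M.IsBase (insert e (D.JE J)) := by
      apply (ncard_indep hB0 hI2).2
      rw [Set.ncard_insert_of_notMem heI (Set.toFinite _)]
      exact hcard
    have hgen : D.Gen δ1 (insert e (D.JE J)) (r k) (D.yc (w k)) := by
      refine ⟨(hgk k).rpos, fun i => ?_, hD.berg (w k) hk1, yc_e0 hD _, hk3, hinj2⟩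
      have h1 := hk2 i
      rwa [hvt k hk4 i] at h1
    have he0' : D.e0 ∈ insert e (D.JE J) := Or.inr he0
    obtain ⟨z', hz'⟩ := hD.top _ _ _ hB2 he0' (hgen.mono (min_le_right _ _))
    have h1 := hcon _ _ _ z' hB2 he0' (hgen.mono (min_le_left _ _)) hz'
    have h2 : (w k).v a0 ≤ z'.v a0 := hz'.max (w k) ⟨hk1, hvt k hk4, fun _ => rfl⟩ a0
    rw [hva k hk4] at h2
    have h3 : (γ0 : ℝ) < γ' := by exact_mod_cast hlt
    linarith
  -- a cluster point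
  obtain ⟨x, hxV, hx⟩ := hD.comp.exists_mapClusterPt_of_frequently
    (l := Filter.atTop) (f := w) (hev.mono fun k hk => hk.1).frequently
  rw [mapClusterPt_iff_ultrafilter] at hx
  obtain ⟨U, hU, hUx⟩ := hx
  have hvx : ∀ b : A, Filter.Tendsto (fun k => (w k).v b) U (𝓝 (x.v b)) := fun b =>
    ((Ber.continuous_v b).tendsto x).comp hUx
  have hxt : ∀ i, x.v (D.t i) = 0 := by
    intro i
    apply tendsto_nhds_unique (hvx (D.t i))
    have h1 : Filter.Tendsto (fun k => ((r k i : ℝ≥0) : ℝ)) U (𝓝 0) := by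
      have h2 := tendsto_r hgk i
      rw [← NNReal.tendsto_coe, NNReal.coe_zero] at h2
      exact h2.mono_left hU
    refine h1.congr' ?_
    filter_upwards [hU hev] with k hk
    exact (hvt k hk.2.2.2 i).symm
  have hxa : x.v a0 = γ' := by
    apply tendsto_nhds_unique (hvx a0)
    refine Filter.Tendsto.congr' ?_ tendsto_const_nhds
    filter_upwards [hU hev] with k hk
    exact (hva k hk.2.2.2).symm
  have hxy : ∀ e, D.yc x e = 0 := by
    intro e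
    have h1 : Filter.Tendsto (fun k => D.yc (w k) e) U (𝓝 (D.yc x e)) := by
      have h2 : ContinuousWithinAt (fun z => D.yc z e) D.V0 x := yc_cont hD e x hxV
      have h3 : Filter.Tendsto w U (𝓝[D.V0] x) := by
        rw [tendsto_nhdsWithin_iff]
        exact ⟨hUx, Filter.mem_of_superset (hU hev) fun k hk => hk.1⟩
      exact h2.tendsto.comp h3
    apply tendsto_nhds_unique h1
    have h4 : Filter.Tendsto (fun k : ℕ => 1 / ((k : ℝ) + 1)) U (𝓝 0) :=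
      tendsto_one_div_add_atTop_nhds_zero_nat.mono_left hU
    apply squeeze_zero_norm' _ h4
    filter_upwards [hU hyc] with k hk
    rw [Real.norm_eq_abs]
    exact hk e
  have hxF : x ∈ D.Fw := ⟨hxV, hxt, hxy⟩
  have h1 := hmax x hxF
  rw [hxa] at h1
  exact absurd h1 (not_le.2 (by exact_mod_cast hlt))

/-- (ND4) the maximum principle. -/
theorem max_principle (h6 : StmtQ6) (h7 : StmtQ7) (hg : StmtGp) (hD : D.Ok) (a : A)
    {z : Ber K A} (hz : z ∈ D.Fw) {ε δ : ℝ} (hε : 0 < ε) (hδ : 0 < δ) :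
    ∃ B r y z', D.M.IsBase B ∧ D.e0 ∈ B ∧ D.Gen δ B r y ∧ D.IsTop B r y z' ∧
      z.v a - ε < z'.v a := by
  rcases (z.nonneg a).eq_or_lt with h0 | h0
  · obtain ⟨B, hB, he0⟩ := exists_base hD
    obtain ⟨r, y, hgen⟩ := exists_Gen hD hB he0 (lt_min hδ hD.δpos)
    obtain ⟨z', hz'⟩ := hD.top B r y hB he0 (hgen.mono (min_le_right _ _))
    refine ⟨B, r, y, z', hB, he0, hgen.mono (min_le_left _ _), hz', ?_⟩
    rw [← h0]
    have := z'.nonneg a
    linarith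
  · obtain ⟨z1, hz1, hmax⟩ := (isCompact_Fw hD).exists_isMaxOn hD.ne
      (Ber.continuous_v a).continuousOn
    have hmax' : ∀ w ∈ D.Fw, w.v a ≤ z1.v a := fun w hw => hmax hw
    let γ0 : ℝ≥0 := ⟨z1.v a, z1.nonneg a⟩
    have hγc : (γ0 : ℝ) = z1.v a := rfl
    have hγ : 0 < γ0 := by
      rw [← NNReal.coe_lt_coe, hγc, NNReal.coe_zero]
      exact lt_of_lt_of_le h0 (hmax' z hz)
    obtain ⟨J, z2, hJ⟩ := exists_isMaxG (D := D) (a0 := a) (γ0 := γ0) ⟨z1, hz1, rfl⟩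
    have hle := hmax' z hz
    by_cases hn : none ∈ J
    · obtain ⟨B, r, y, z', h1, h2, h3, h4, h5⟩ :=
        mp_case2 h6 h7 hg hD hγ (fun w hw => hmax' w hw) hJ hn hδ
      refine ⟨B, r, y, z', h1, h2, h3, h4, ?_⟩
      rw [hγc] at h5
      linarith
    · obtain ⟨B, r, y, z', h1, h2, h3, h4, h5⟩ :=
        mp_case1 h6 h7 hg hD hγ (fun w hw => hmax' w hw) hJ hn hε hδ
      refine ⟨B, r, y, z', h1, h2, h3, h4, ?_⟩
      rw [hγc] at h5
      linarith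

end NDat

end Pool.Agent.TD
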