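import Pool.Agent.TD.N.Mp

/-! Local data ND0: the points over the Gauss point of a basis (PAPER2.md, ND5 i, ii; module
TD_N_OB). -/

open scoped Topology NNReal

namespace Pool.Agent.TD

/-- Quasi-finiteness over a smaller ring. -/
theorem Ob_zmp_of_comp {K A R R' : Type} [NormedField K] [CommRing A] [Algebra K A] [CommRing R]
    [Algebra K R] [CommRing R'] [Algebra K R'] {φ : R →ₐ[K] A} {ψ : R' →ₐ[K] R} {z : Ber K A}
    (h : Zmp (φ.comp ψ) z) : Zmp φ z := by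
  have key : ∀ x : A, (φ.comp ψ).toRingHom.IsIntegralElem x → φ.toRingHom.IsIntegralElem x := by
    rintro x ⟨p, hp, hp0⟩
    refine ⟨p.map ψ.toRingHom, hp.map _, ?_⟩
    rw [Polynomial.eval₂_map]
    exact hp0
  obtain ⟨g, hg, hgi, hgx⟩ := h
  refine ⟨g, hg, key g hgi, fun x => ?_⟩
  obtain ⟨m, hm⟩ := hgx x
  exact ⟨m, key _ hm⟩

namespace NDat

set_option linter.unusedSectionVars false
set_option linter.unusedVariables false

variable {K A I E : Type} [NormedField K] [IsUltrametricDist K] [Finite I] [Finite E]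
  [CommRing A] [IsDomain A] [Algebra K A] [Algebra.FiniteType K A] {D : NDat K A I E}

/-- The points of `F_w` over the Gauss point of the basis `B`. -/
def Om (D : NDat K A I E) (B : Set E) : Set (Ber K A) :=
  {z | z ∈ D.Fw ∧ GaussAt (fun e : (B \ {D.e0} : Set E) => D.T e.1) (fun e => D.ρ e.1) z}

/-- The radii of the Gauss point of the basis `B`. -/
def eta (D : NDat K A I E) (B : Set E) : I ⊕ (B \ {D.e0} : Set E) → ℝ≥0 :=
  Sum.elim (fun _ => 0) fun e => D.ρ e.1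

theorem mem_Om_iff (hD : D.Ok) {B : Set E} {z : Ber K A} : z ∈ D.Om B ↔
    z ∈ D.Fw ∧ GaussAt (D.vr (B \ {D.e0})) (D.eta B) z := by
  constructor
  · rintro ⟨h1, h2⟩
    exact ⟨h1, h2.sum_zero h1.2.1⟩
  · rintro ⟨h1, h2⟩
    exact ⟨h1, h2.comp Sum.inr Sum.inr_injective⟩

/-- The indices of the basis `B` in the family of `Lc.lean`. -/
def obJ (D : NDat K A I E) (B : Set E) : Set (Option D.E') := {o | ∃ e : D.E', e.1 ∈ B ∧ o = some e}

/-- The reindexing `B - e0 → obJ`. -/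
def obR (D : NDat K A I E) (B : Set E) (e : (B \ {D.e0} : Set E)) : D.obJ B :=
  ⟨some ⟨e.1, e.2.2⟩, ⟨e.1, e.2.2⟩, e.2.1, rfl⟩

omit [IsUltrametricDist K] [Finite I] [Finite E] [IsDomain A] [Algebra.FiniteType K A] in
theorem obR_bijective (B : Set E) : Function.Bijective (D.obR B) := by
  constructor
  · rintro ⟨e, he⟩ ⟨e', he'⟩ h
    have h1 := congrArg Subtype.val h
    have h2 : (⟨e, he.2⟩ : D.E') = ⟨e', he'.2⟩ := Option.some_injective _ h1
    have h3 : e = e' := Subtype.mk.inj h2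
    exact Subtype.ext h3
  · rintro ⟨o, e, he, rfl⟩
    exact ⟨⟨e.1, he, e.2⟩, rfl⟩

/-- The reindexing of the family `t`, `T_b`. -/
def obS (D : NDat K A I E) (B : Set E) : I ⊕ (B \ {D.e0} : Set E) → I ⊕ D.obJ B :=
  Sum.map id (D.obR B)

omit [IsUltrametricDist K] [Finite I] [Finite E] [IsDomain A] [Algebra.FiniteType K A] in
theorem obS_bijective (B : Set E) : Function.Bijective (D.obS B) :=
  ⟨Function.Injective.sumMap Function.injective_id (obR_bijective B).1,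
    Function.Surjective.sumMap Function.surjective_id (obR_bijective B).2⟩

omit [IsUltrametricDist K] [Finite I] [Finite E] [IsDomain A] [Algebra.FiniteType K A] in
theorem ob_tx (B : Set E) : (fun s => D.tx 1 (D.obJ B) (D.obS B s)) = D.vr (B \ {D.e0}) := by
  funext s
  rcases s with i | e
  · rfl
  · rfl

/-- A family with radii, in both indexings. -/
theorem ob_gaussAt_iff (B : Set E) (p : I ⊕ (D.obJ B) → ℝ≥0) {z : Ber K A} :
    GaussAt (D.tx 1 (D.obJ B)) p z ↔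
      GaussAt (D.vr (B \ {D.e0})) (fun s => p (D.obS B s)) z := by
  constructor
  · intro h
    have h1 := h.comp (D.obS B) (obS_bijective B).1
    rwa [ob_tx] at h1
  · intro h
    obtain ⟨g, hg1, hg2⟩ := Function.bijective_iff_has_inverse.1 (obS_bijective (D := D) B)
    have h1 := h.comp g (Function.RightInverse.injective hg2)
    have e1 : (fun i => D.vr (B \ {D.e0}) (g i)) = D.tx 1 (D.obJ B) := by
      rw [← ob_tx]
      funext i
      show D.tx 1 (D.obJ B) (D.obS B (g i)) = _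
      rw [hg2 i]
    have e2 : (fun i => p (D.obS B (g i))) = p := by
      funext i
      rw [hg2 i]
    rwa [e1, e2] at h1

/-- The radii of the family `obJ`. -/
theorem ob_xg (B : Set E) : (fun s => (Sum.elim (fun _ => 0) (fun j => D.xg 1 j.1) :
    I ⊕ D.obJ B → ℝ≥0) (D.obS B s)) = D.eta B := by
  funext s
  rcases s with i | e
  · rfl
  · rfl

/-- (ND5 i) a basis is a maximal Gauss family at the points of `Om`. -/
theorem Om_isMaxG (h6 : StmtQ6) (h7 : StmtQ7) (hg : StmtGp) (hD : D.Ok) {B : Set E}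
    (hB : D.M.IsBase B) (he0 : D.e0 ∈ B) {z : Ber K A} (hz : z ∈ D.Om B) :
    D.IsMaxG 1 1 {o | ∃ e : D.E', e.1 ∈ B ∧ o = some e} z := by
  have hz' := (mem_Om_iff hD).1 hz
  refine ⟨⟨⟨hz.1, ?_⟩, ?_⟩, ?_⟩
  · rw [z.one, NNReal.coe_one]
  · have h1 : GaussAt (D.tx 1 (D.obJ B)) (Sum.elim (fun _ => 0) (fun j => D.xg 1 j.1)) z := by
      rw [ob_gaussAt_iff, ob_xg]
      exact hz'.2
    exact h1.comp Sum.inr Sum.inr_injective
  · intro z' J' hJ'
    obtain ⟨J'', z'', h''⟩ := exists_isMaxG (D := D) (a0 := 1) (γ0 := 1) ⟨z', hJ'.mem⟩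
    have h1 := (IsMaxG.card_eq h6 h7 hg hD one_pos
      (fun w _ => by rw [w.one, NNReal.coe_one]) h'' hB he0).1
    have h2 : (B \ {D.e0}).ncard = (D.obJ B).ncard := by
      rw [← Nat.card_coe_set_eq, ← Nat.card_coe_set_eq]
      exact Nat.card_eq_of_bijective _ (obR_bijective B)
    exact (h''.max z' J' hJ').trans (by rw [h1, h2]; exact le_rfl)

theorem Om_zmp (h6 : StmtQ6) (h7 : StmtQ7) (hg : StmtGp) (hD : D.Ok) {B : Set E}
    (hB : D.M.IsBase B) (he0 : D.e0 ∈ B) {z : Ber K A} (hz : z ∈ D.Om B) :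
    Zmp (D.ph (B \ {D.e0})) z := by
  have h1 := IsMaxG.zmp h6 hD one_pos (Om_isMaxG h6 h7 hg hD hB he0 hz)
  obtain ⟨g, hg1, hg2⟩ := Function.bijective_iff_has_inverse.1 (obS_bijective (D := D) B)
  have e1 : (MvPolynomial.aeval (D.tx 1 (D.obJ B)) : MvPolynomial (I ⊕ D.obJ B) K →ₐ[K] A) =
      (D.ph (B \ {D.e0})).comp (MvPolynomial.rename g) := by
    apply MvPolynomial.algHom_ext
    intro i
    rw [AlgHom.comp_apply, MvPolynomial.aeval_X, MvPolynomial.rename_X]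
    unfold ph
    rw [MvPolynomial.aeval_X, ← ob_tx]
    show _ = D.tx 1 (D.obJ B) (D.obS B (g i))
    rw [hg2 i]
  have h2 : Zmp (MvPolynomial.aeval (D.tx 1 (D.obJ B)) :
    MvPolynomial (I ⊕ D.obJ B) K →ₐ[K] A) z := h1
  rw [e1] at h2
  exact Ob_zmp_of_comp h2

/-- `Om` is open in the fibre over the Gauss point. -/
theorem Om_open (h6 : StmtQ6) (h7 : StmtQ7) (hg : StmtGp) (hD : D.Ok) {B : Set E}
    (hB : D.M.IsBase B) (he0 : D.e0 ∈ B) : ∃ V : Set (Ber K A), IsOpen V ∧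
      D.Om B = V ∩ {z | GaussAt (D.vr (B \ {D.e0})) (D.eta B) z} := by
  rcases (D.Om B).eq_empty_or_nonempty with h | ⟨z, hz⟩
  · exact ⟨∅, isOpen_empty, by rw [h, Set.empty_inter]⟩
  have hz' := (mem_Om_iff hD).1 hz
  obtain ⟨V, hV, h1⟩ := IsMaxG.fibre hD one_pos (Om_isMaxG h6 h7 hg hD hB he0 hz)
  refine ⟨V, hV, ?_⟩
  have key : ∀ z' : Ber K A, GaussAt (D.vr (B \ {D.e0})) (D.eta B) z' ↔
      fam (D.tx 1 (D.obJ B)) z' = fam (D.tx 1 (D.obJ B)) z := by
    intro z'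
    have hz2 := hz'.2
    rw [← ob_xg, ← ob_gaussAt_iff] at hz2 ⊢
    constructor
    · intro h
      exact h.fam_eq hz2
    · intro h
      rw [gaussAt_iff] at hz2 ⊢
      rw [h]
      exact hz2
  ext z'
  have h2 := Set.ext_iff.1 h1 z'
  rw [mem_Om_iff hD]
  simp only [Set.mem_inter_iff, Set.mem_ofPred_eq] at h2 ⊢
  rw [key z']
  constructor
  · rintro ⟨h3, h4⟩
    exact h2.1 ⟨⟨h3, by rw [z'.one, NNReal.coe_one]⟩, h4⟩
  · intro h3
    have h4 := h2.2 h3
    exact ⟨h4.1.1, h4.2⟩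

/-- The radii of generic points tending to `0` tend to the radii of the Gauss point. -/
theorem ob_tendsto_radii {ι : Type} {l : Filter ι} {B : Set E} {δ : ι → ℝ}
    (hδ : Filter.Tendsto δ l (𝓝 0)) {r : ι → I → ℝ≥0} {y : ι → E → ℝ}
    (hg : ∀ k, D.Gen (δ k) B (r k) (y k)) :
    (∀ i, Filter.Tendsto (fun k => ((r k i : ℝ≥0) : ℝ)) l (𝓝 0)) ∧
    (∀ e, Filter.Tendsto (fun k => y k e) l (𝓝 0)) ∧
    Filter.Tendsto (fun k => (Sum.elim (r k) fun e => D.rd (y k) e.1 :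
      I ⊕ (B \ {D.e0} : Set E) → ℝ≥0)) l (𝓝 (D.eta B)) := by
  have h1 : ∀ i, Filter.Tendsto (fun k => ((r k i : ℝ≥0) : ℝ)) l (𝓝 0) := fun i =>
    squeeze_zero (fun k => (r k i).2) (fun k => ((hg k).rlt i).le) hδ
  have h2 : ∀ e, Filter.Tendsto (fun k => y k e) l (𝓝 0) := fun e =>
    squeeze_zero_norm (fun k => ((hg k).ylt e).le) hδ
  refine ⟨h1, h2, ?_⟩
  rw [tendsto_pi_nhds]
  rintro (i | e)
  · show Filter.Tendsto (fun k => r k i) l (𝓝 0)
    rw [← NNReal.tendsto_coe]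
    exact h1 i
  · show Filter.Tendsto (fun k => D.rd (y k) e.1) l (𝓝 (D.ρ e.1))
    have h3 : Filter.Tendsto (fun k => D.ρ e.1 * (Real.exp (y k e.1)).toNNReal) l
        (𝓝 (D.ρ e.1 * (Real.exp 0).toNNReal)) := by
      refine Filter.Tendsto.const_mul _ ?_
      exact (continuous_real_toNNReal.tendsto _).comp
        ((Real.continuous_exp.tendsto 0).comp (h2 e.1))
    rw [Real.exp_zero, Real.toNNReal_one, mul_one] at h3
    exact h3

/-- Cluster points of top points: if `z k` are top points of generic points tending to `0`, for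
the basis `B`, every cluster point is in `Om B`. -/
theorem cluster_mem_Om (hD : D.Ok) {B : Set E} (hB : D.M.IsBase B) (he0 : D.e0 ∈ B)
    {δ : ℕ → ℝ} (hδ : Filter.Tendsto δ Filter.atTop (𝓝 0)) {r : ℕ → I → ℝ≥0} {y : ℕ → E → ℝ}
    (hg : ∀ k, D.Gen (δ k) B (r k) (y k)) {z : ℕ → Ber K A}
    (hz : ∀ k, z k ∈ D.Fry (r k) (y k))
    (hz' : ∀ k, GaussAt (D.vr (B \ {D.e0})) (Sum.elim (r k) fun e => D.rd (y k) e.1) (z k))
    {z0 : Ber K A} (hz0 : MapClusterPt z0 Filter.atTop z) : z0 ∈ D.Om B := by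
  obtain ⟨U, hU, hUz⟩ := mapClusterPt_iff_ultrafilter.1 hz0
  obtain ⟨t1, t2, t3⟩ := ob_tendsto_radii (D := D) (hδ.mono_left hU) hg
  have hV0 : z0 ∈ D.V0 := hD.comp.isClosed.mem_of_tendsto hUz
    (Filter.Eventually.of_forall fun k => (hz k).1)
  have hUz' : Filter.Tendsto z U (𝓝[D.V0] z0) :=
    tendsto_nhdsWithin_iff.2 ⟨hUz, Filter.Eventually.of_forall fun k => (hz k).1⟩
  rw [mem_Om_iff hD]
  refine ⟨⟨hV0, fun i => ?_, fun e => ?_⟩, ?_⟩
  · have h1 : Filter.Tendsto (fun k => (z k).v (D.t i)) U (𝓝 (z0.v (D.t i))) :=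
      ((Ber.continuous_v (D.t i)).tendsto z0).comp hUz
    have h2 : (fun k => (z k).v (D.t i)) = fun k => ((r k i : ℝ≥0) : ℝ) :=
      funext fun k => (hz k).2.1 i
    rw [h2] at h1
    exact tendsto_nhds_unique h1 (t1 i)
  · have h1 : Filter.Tendsto (fun k => D.yc (z k) e) U (𝓝 (D.yc z0 e)) :=
      (yc_cont hD e z0 hV0).tendsto.comp hUz'
    have h2 : (fun k => D.yc (z k) e) = fun k => y k e := funext fun k => (hz k).2.2 e
    rw [h2] at h1
    exact tendsto_nhds_unique h1 (t2 e)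
  · exact GaussAt.of_tendsto t3 hUz (Filter.Eventually.of_forall hz')

theorem Om_nonempty (hD : D.Ok) {B : Set E} (hB : D.M.IsBase B) (he0 : D.e0 ∈ B) :
    (D.Om B).Nonempty := by
  have hδ0 := hD.δpos
  have hδ : ∀ k : ℕ, 0 < min (1 / ((k : ℝ) + 1)) D.δ0 := fun k =>
    lt_min (by positivity) hδ0
  choose r y hg using fun k : ℕ => exists_Gen hD hB he0 (hδ k)
  choose z hz using fun k : ℕ => hD.top B (r k) (y k) hB he0 ((hg k).mono (min_le_right _ _))
  have hlim : Filter.Tendsto (fun k : ℕ => min (1 / ((k : ℝ) + 1)) D.δ0) Filter.atTop (𝓝 0) :=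
    squeeze_zero (fun k => (hδ k).le) (fun k => min_le_left _ _)
      tendsto_one_div_add_atTop_nhds_zero_nat
  obtain ⟨z0, -, hz0⟩ := hD.comp.exists_mapClusterPt (f := Filter.atTop) (u := z)
    (Filter.tendsto_principal.2 (Filter.Eventually.of_forall fun k => (hz k).mem.1))
  exact ⟨z0, cluster_mem_Om hD hB he0 hlim hg (fun k => (hz k).mem) (fun k => (hz k).gauss) hz0⟩

/-- (ND5 ii) -/
theorem Om_subsingleton (h6 : StmtQ6) (h7 : StmtQ7) (hg : StmtGp) (hD : D.Ok) {B : Set E}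
    (hB : D.M.IsBase B) (he0 : D.e0 ∈ B) : (D.Om B).Subsingleton := by
  intro z hz z' hz'
  by_contra hne
  obtain ⟨U, U', hU, hU', hzU, hzU', hdis⟩ := t2_separation hne
  have hδ0 := hD.δpos
  have hδ : ∀ k : ℕ, 0 < min (1 / ((k : ℝ) + 1)) D.δ0 := fun k =>
    lt_min (by positivity) hδ0
  choose r y hgen using fun k : ℕ => exists_Gen hD hB he0 (hδ k)
  have hlim : Filter.Tendsto (fun k : ℕ => min (1 / ((k : ℝ) + 1)) D.δ0) Filter.atTop (𝓝 0) :=
    squeeze_zero (fun k => (hδ k).le) (fun k => min_le_left _ _)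
      tendsto_one_div_add_atTop_nhds_zero_nat
  obtain ⟨-, -, t3⟩ := ob_tendsto_radii (D := D) hlim hgen
  obtain ⟨g, hg1, hg2⟩ := Function.bijective_iff_has_inverse.1 (obS_bijective (D := D) B)
  have t4 : Filter.Tendsto (fun k => fun s => (Sum.elim (r k) fun e => D.rd (y k) e.1 :
      I ⊕ (B \ {D.e0} : Set E) → ℝ≥0) (g s)) Filter.atTop
      (𝓝 (Sum.elim (fun _ => 0) (fun j => D.xg 1 j.1) : I ⊕ D.obJ B → ℝ≥0)) := by
    rw [tendsto_pi_nhds] at t3 ⊢
    intro s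
    have h1 := t3 (g s)
    have h2 : D.obS B (g s) = s := hg2 s
    have h3 : D.eta B (g s) = (Sum.elim (fun _ => 0) (fun j => D.xg 1 j.1) :
        I ⊕ D.obJ B → ℝ≥0) s := by
      rw [← ob_xg]
      show (Sum.elim (fun _ => 0) (fun j => D.xg 1 j.1) : I ⊕ D.obJ B → ℝ≥0) (D.obS B (g s)) = _
      rw [h2]
    rw [h3] at h1
    exact h1
  have hm := Om_isMaxG h6 h7 hg hD hB he0 hz
  have hm' := Om_isMaxG h6 h7 hg hD hB he0 hz'
  have hmax : ∀ w ∈ D.Fw, w.v (1 : A) ≤ ((1 : ℝ≥0) : ℝ) := fun w _ => by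
    rw [w.one, NNReal.coe_one]
  have o1 := t4.eventually (hm.open1 h6 h7 hg hD one_pos hmax
    (Filter.inter_mem (hU.mem_nhds hzU) (hD.nhd z hz.1)))
  have o2 := t4.eventually (hm'.open1 h6 h7 hg hD one_pos hmax
    (Filter.inter_mem (hU'.mem_nhds hzU') (hD.nhd z' hz'.1)))
  obtain ⟨k, ⟨w, hw, hwg⟩, ⟨w', hw', hwg'⟩⟩ := (o1.and o2).exists
  have conv : ∀ v : Ber K A, GaussAt (D.tx 1 (D.obJ B))
      (fun s => (Sum.elim (r k) fun e => D.rd (y k) e.1 :
        I ⊕ (B \ {D.e0} : Set E) → ℝ≥0) (g s)) v →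
      GaussAt (D.vr (B \ {D.e0})) (Sum.elim (r k) fun e => D.rd (y k) e.1) v := by
    intro v hv
    rw [ob_gaussAt_iff] at hv
    have e1 : (fun s => (Sum.elim (r k) fun e => D.rd (y k) e.1 :
        I ⊕ (B \ {D.e0} : Set E) → ℝ≥0) (g (D.obS B s))) =
        Sum.elim (r k) fun e => D.rd (y k) e.1 := by
      funext s
      have h2 : g (D.obS B s) = s := hg1 s
      rw [h2]
    rwa [e1] at hv
  have c1 := conv w hwg
  have c2 := conv w' hwg'
  have f1 := mem_Fry' hD hB (hgen k) hw.2 c1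
  have f2 := mem_Fry' hD hB (hgen k) hw'.2 c2
  have e := hD.uniq B (r k) (y k) hB he0 ((hgen k).mono (min_le_right _ _)) w f1 w' f2
    (c1.fam_eq c2)
  have hw1 := hw.1
  rw [e] at hw1
  exact Set.disjoint_left.1 hdis hw1 hw'.1

end NDat

end Pool.Agent.TD
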