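import Pool.Agent.TD.N.Lc
import Pool.Agent.TD.N.Alg

/-! Local data ND0: rank bound (PAPER2.md, ND3; module TD_N_RK). -/

open scoped Topology NNReal

namespace Pool.Agent.TD

namespace NDat

variable {K A I E : Type} [NormedField K] [IsUltrametricDist K] [Finite I] [Finite E]
  [CommRing A] [IsDomain A] [Algebra K A] [Algebra.FiniteType K A] {D : NDat K A I E}

/-- The elements of the matroid in `J`, together with `e0`. -/
def JE (D : NDat K A I E) (J : Set (Option D.E')) : Set E :=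
  {e | e = D.e0 ∨ ∃ h : e ≠ D.e0, some (⟨e, h⟩ : D.E') ∈ J}

/-! ### Quotients by the kernel -/

namespace Rk

section
omit [IsUltrametricDist K] [Finite I] [Finite E] [IsDomain A] [Algebra.FiniteType K A]

theorem v_eq_of_sub (z : Ber K A) {a b : A} (h : z.v (a - b) = 0) : z.v a = z.v b := by
  apply le_antisymm
  · have h1 := z.add (a - b) b
    rwa [sub_add_cancel, h, max_eq_right (z.nonneg b)] at h1
  · have h1 := z.add (b - a) a
    rwa [sub_add_cancel, z.sub_comm, h, max_eq_right (z.nonneg a)] at h1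

/-- The representative of an element of the quotient. -/
noncomputable def rep (z : Ber K A) (q : A ⧸ z.ker) : A :=
  Function.surjInv Ideal.Quotient.mk_surjective q

theorem mk_rep (z : Ber K A) (q : A ⧸ z.ker) : Ideal.Quotient.mk z.ker (rep z q) = q :=
  Function.surjInv_eq Ideal.Quotient.mk_surjective q

theorem v_rep (z : Ber K A) {q : A ⧸ z.ker} {a : A} (h : Ideal.Quotient.mk z.ker a = q) :
    z.v (rep z q) = z.v a := by
  apply v_eq_of_sub
  have h1 : rep z q - a ∈ z.ker := by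
    rw [← Ideal.Quotient.eq, mk_rep, h]
  exact h1

/-- The point of the spectrum of the quotient by the kernel. -/
noncomputable def quo (z : Ber K A) : Ber K (A ⧸ z.ker) where
  v q := z.v (rep z q)
  nonneg _ := z.nonneg _
  one := by rw [v_rep z (map_one _), z.one]
  mul p q := by
    rw [← z.mul]
    apply v_rep
    rw [map_mul, mk_rep, mk_rep]
  add p q := by
    refine le_trans (le_of_eq ?_) (z.add _ _)
    apply v_rep
    rw [map_add, mk_rep, mk_rep]
  ext c := by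
    rw [← z.ext c]
    exact v_rep z rfl

theorem quo_v (z : Ber K A) (a : A) : (quo z).v (Ideal.Quotient.mk z.ker a) = z.v a :=
  v_rep z rfl

theorem res_quo (z : Ber K A) : Ber.res (Ideal.Quotient.mkₐ K z.ker) (quo z) = z := by
  apply Ber.ext_v
  intro a
  exact quo_v z a

end

omit [IsUltrametricDist K] [Finite I] [IsDomain A] [Algebra.FiniteType K A] in
open Classical in
theorem ncard_JE (D : NDat K A I E) (J : Set (Option D.E')) :
    J.ncard + 1 = (D.JE J).ncard + (if none ∈ J then 1 else 0) := by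
  set J' : Set E := {e | ∃ h : e ≠ D.e0, some (⟨e, h⟩ : D.E') ∈ J} with hJ'
  have h1 : (D.JE J).ncard = J'.ncard + 1 := by
    have h2 : D.JE J = insert D.e0 J' := by
      ext e
      rfl
    rw [h2, Set.ncard_insert_of_notMem _ (Set.toFinite _)]
    rintro ⟨h3, -⟩
    exact h3 rfl
  have h2 : (J \ {none}).ncard = J'.ncard := by
    symm
    refine Set.ncard_congr (fun e he => some (⟨e, he.1⟩ : D.E')) ?_ ?_ ?_
    · rintro e ⟨he1, he2⟩
      exact ⟨he2, by simp⟩
    · intro e e' he he' hee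
      have h3 := Option.some_inj.1 hee
      exact congrArg Subtype.val h3
    · rintro (_ | e) ⟨h3, h4⟩
      · exact absurd rfl h4
      · exact ⟨e.1, ⟨e.2, h3⟩, rfl⟩
  rw [h1, ← h2]
  by_cases hn : none ∈ J
  · rw [if_pos hn, Set.ncard_sdiff_singleton_add_one hn (Set.toFinite _)]
  · rw [if_neg hn, Set.sdiff_singleton_eq_self hn, add_zero]

end Rk

/-- (ND3) openness over the family `J`, inside `{t = 0}`. -/
theorem IsMaxG.open0 (h6 : StmtQ6) (h7 : StmtQ7) (hg : StmtGp) (hD : D.Ok) {a0 : A} {γ0 : ℝ≥0}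
    (hγ : 0 < γ0) {J : Set (Option D.E')} {z : Ber K A} (h : D.IsMaxG a0 γ0 J z)
    {V : Set (Ber K A)} (hV : V ∈ 𝓝 z) :
    ∀ᶠ ρ' in 𝓝 (fun j : J => D.xg γ0 j.1), ∃ z' ∈ V, (∀ i, z'.v (D.t i) = 0) ∧
      GaussAt (fun j : J => D.xa a0 j.1) ρ' z' := by
  classical
  obtain ⟨g, hg1, hg2⟩ := hg K J
  set mk := Ideal.Quotient.mkₐ K z.ker with hmk
  set x : J → A := fun j => D.xa a0 j.1 with hx
  set ρ0 : J → ℝ≥0 := fun j => D.xg γ0 j.1 with hρ0
  set ψ : MvPolynomial J K →ₐ[K] (A ⧸ z.ker) := MvPolynomial.aeval (fun j => mk (x j)) with hψ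
  have hψx : ∀ P : MvPolynomial J K, ψ P = mk (MvPolynomial.aeval x P) := by
    intro P
    have h1 : ψ = mk.comp (MvPolynomial.aeval x) := by
      apply MvPolynomial.algHom_ext
      intro i
      simp [hψ]
    rw [h1]
    rfl
  have hpos : ∀ j, 0 < ρ0 j := by
    rintro ⟨j, hj⟩
    rcases j with _ | e
    · exact hγ
    · exact hD.ρpos e.1
  have hz1 : ∀ P : MvPolynomial J K, (Rk.quo z).v (ψ P) = gn ρ0 P := by
    intro P
    rw [hψx]
    exact (Rk.quo_v z _).trans (h.gauss P)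
  have hinj : Function.Injective ψ := by
    rw [injective_iff_map_eq_zero]
    intro P hP
    by_contra hne
    have h1 := hz1 P
    rw [hP, Ber.zero] at h1
    have h2 : (0 : ℝ) < gn ρ0 P := by exact_mod_cast gn_pos hpos hne
    rw [← h1] at h2
    exact lt_irrefl _ h2
  have ht : ∀ i, z.v (D.t i) = 0 := h.mem.1.2.1
  have hint : ∀ a : A, (MvPolynomial.aeval (D.tx a0 J) :
      MvPolynomial (I ⊕ J) K →ₐ[K] A).toRingHom.IsIntegralElem a →
      ψ.toRingHom.IsIntegralElem (mk a) := by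
    rintro a ⟨p, hp1, hp2⟩
    set τ : MvPolynomial (I ⊕ J) K →ₐ[K] MvPolynomial J K :=
      MvPolynomial.aeval (Sum.elim (fun _ => 0) MvPolynomial.X) with hτ
    have hcomp : ψ.comp τ = mk.comp (MvPolynomial.aeval (D.tx a0 J)) := by
      apply MvPolynomial.algHom_ext
      rintro (i | j)
      · have h1 : mk (D.t i) = 0 := by
          rw [hmk, Ideal.Quotient.mkₐ_eq_mk, Ideal.Quotient.eq_zero_iff_mem]
          exact ht i
        simp [hτ, tx, h1]
      · simp [hτ, hψ, tx, hx]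
    refine ⟨p.map τ.toRingHom, hp1.map _, ?_⟩
    rw [Polynomial.eval₂_map]
    have h1 : ψ.toRingHom.comp τ.toRingHom = mk.toRingHom.comp
        (MvPolynomial.aeval (D.tx a0 J) : MvPolynomial (I ⊕ J) K →ₐ[K] A).toRingHom :=
      congrArg (fun f : MvPolynomial (I ⊕ J) K →ₐ[K] (A ⧸ z.ker) => f.toRingHom) hcomp
    rw [h1]
    have h2 := Polynomial.hom_eval₂ p (MvPolynomial.aeval (D.tx a0 J) :
      MvPolynomial (I ⊕ J) K →ₐ[K] A).toRingHom mk.toRingHom a
    rw [hp2, map_zero] at h2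
    exact h2.symm
  have hzmp : Zmp ψ (Rk.quo z) := by
    obtain ⟨g0, hg0, hg3, hg4⟩ := h.zmp h6 hD hγ
    refine ⟨mk g0, ?_, hint g0 hg3, fun q => ?_⟩
    · intro h0
      exact hg0 ((Rk.quo_v z g0).symm.trans h0)
    · obtain ⟨a, rfl⟩ := Ideal.Quotient.mk_surjective q
      obtain ⟨m, hm⟩ := hg4 a
      refine ⟨m, ?_⟩
      have h1 := hint _ hm
      rwa [map_mul, map_pow] at h1
  have hV' : (Ber.res mk) ⁻¹' V ∈ 𝓝 (Rk.quo z) := by
    apply (Ber.res_continuous mk).continuousAt.preimage_mem_nhds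
    rw [Rk.res_quo]
    exact hV
  have h1 := h7 K (MvPolynomial J K) (A ⧸ z.ker) ψ hinj (Rk.quo z) hzmp _ hV'
  have h2 : Ber.res ψ (Rk.quo z) = g ρ0 := by
    apply Ber.ext_v
    intro P
    rw [hg2 ρ0 P]
    exact hz1 P
  rw [h2] at h1
  have h3 : ∀ᶠ ρ' in 𝓝 ρ0, g ρ' ∈ Ber.res ψ '' ((Ber.res mk) ⁻¹' V) :=
    hg1.continuousAt.eventually h1
  filter_upwards [h3] with ρ' hρ'
  obtain ⟨z1, hz1V, hz1g⟩ := hρ'
  refine ⟨Ber.res mk z1, hz1V, fun i => ?_, fun P => ?_⟩
  · have h4 : mk (D.t i) = 0 := by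
      rw [hmk, Ideal.Quotient.mkₐ_eq_mk, Ideal.Quotient.eq_zero_iff_mem]
      exact ht i
    rw [Ber.res_v, h4, Ber.zero]
  · rw [Ber.res_v, ← hψx, ← Ber.res_v, hz1g]
    exact hg2 ρ' P

/-- (ND3 i) -/
theorem IsMaxG.indep (h6 : StmtQ6) (h7 : StmtQ7) (hg : StmtGp) (hD : D.Ok) {a0 : A} {γ0 : ℝ≥0}
    (hγ : 0 < γ0) {J : Set (Option D.E')} {z : Ber K A} (h : D.IsMaxG a0 γ0 J z) :
    D.M.Indep (D.JE J) := by
  classical
  by_contra hni
  have hdep : D.M.Dep (D.JE J) := ⟨hni, by rw [hD.ground]; exact Set.subset_univ _⟩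
  obtain ⟨C, hCJ, hC⟩ := hdep.exists_isCircuit_subset
  have hex : ∃ e ∈ C, e ≠ D.e0 := by
    by_contra hc
    push Not at hc
    exact hC.not_indep ((hD.loopless D.e0).subset fun x hx => hc x hx)
  obtain ⟨e, heC, hee⟩ := hex
  have heJ : some (⟨e, hee⟩ : D.E') ∈ J := by
    rcases hCJ heC with h1 | ⟨h1, h2⟩
    · exact absurd h1 hee
    · exact h2
  -- the radii
  set R : ℝ → J → ℝ≥0 := fun s j =>
    D.xg γ0 j.1 * (Real.exp (if j.1 = some ⟨e, hee⟩ then s else 0)).toNNReal with hR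
  have hRc : Continuous R := by
    apply continuous_pi
    intro j
    apply Continuous.mul continuous_const
    apply continuous_real_toNNReal.comp
    apply Real.continuous_exp.comp
    split_ifs
    · exact continuous_id
    · exact continuous_const
  have hR0 : R 0 = fun j : J => D.xg γ0 j.1 := by
    funext j
    simp [hR]
  have h1 : ∀ᶠ s in 𝓝 (0 : ℝ), ∃ z' ∈ D.V0, (∀ i, z'.v (D.t i) = 0) ∧
      GaussAt (fun j : J => D.xa a0 j.1) (R s) z' := by
    have h2 := hRc.continuousAt (x := (0 : ℝ))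
    unfold ContinuousAt at h2
    rw [hR0] at h2
    exact h2.eventually (h.open0 h6 h7 hg hD hγ (hD.nhd z h.mem.1))
  have h2 : ∀ᶠ s in 𝓝[>] (0 : ℝ), ∃ z' ∈ D.V0, (∀ i, z'.v (D.t i) = 0) ∧
      GaussAt (fun j : J => D.xa a0 j.1) (R s) z' := h1.filter_mono nhdsWithin_le_nhds
  obtain ⟨s, ⟨z', hz'V, -, hz'G⟩, hs⟩ := (h2.and self_mem_nhdsWithin).exists
  have hs' : 0 < s := hs
  have hy : ∀ f ∈ C, D.yc z' f = if f = e then s else 0 := by
    intro f hf
    by_cases hf0 : f = D.e0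
    · rw [hf0, yc_e0 hD, if_neg (fun h => hee h.symm)]
    · have hfJ : some (⟨f, hf0⟩ : D.E') ∈ J := by
        rcases hCJ hf with h3 | ⟨h3, h4⟩
        · exact absurd h3 hf0
        · exact h4
      have h5 := hz'G.v_eq ⟨some ⟨f, hf0⟩, hfJ⟩
      apply yc_of_v hD (y := fun f => if f = e then s else 0)
      refine Eq.trans h5 ?_
      have h6 : (some (⟨f, hf0⟩ : D.E') = some ⟨e, hee⟩) ↔ f = e := by
        rw [Option.some_inj, Subtype.mk.injEq]
      simp only [hR, xg, rd, h6]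
      rfl
  obtain ⟨f, hfC, hfe, hle⟩ := hD.berg z' hz'V C hC e heC
  rw [hy e heC, hy f hfC, if_pos rfl, if_neg hfe] at hle
  linarith

/-- (ND3 ii) -/
theorem IsMaxG.not_base (h6 : StmtQ6) (h7 : StmtQ7) (hg : StmtGp) (hD : D.Ok) {a0 : A} {γ0 : ℝ≥0}
    (hγ : 0 < γ0) (hmax : ∀ z ∈ D.Fw, z.v a0 ≤ γ0) {J : Set (Option D.E')} {z : Ber K A}
    (h : D.IsMaxG a0 γ0 J z) (hn : none ∈ J) : ¬ D.M.IsBase (D.JE J) := by
  classical
  intro hB
  -- the radii
  set R : ℝ × (E → ℝ) → J → ℝ≥0 := fun p j =>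
    D.xg γ0 j.1 * (Real.exp (j.1.elim p.1 fun e => p.2 e.1)).toNNReal with hR
  have hRc : Continuous R := by
    apply continuous_pi
    rintro ⟨j, hj⟩
    apply Continuous.mul continuous_const
    apply continuous_real_toNNReal.comp
    apply Real.continuous_exp.comp
    rcases j with _ | e
    · exact continuous_fst
    · exact (continuous_apply e.1).comp continuous_snd
  have hR0 : R (0, fun _ => 0) = fun j : J => D.xg γ0 j.1 := by
    funext ⟨j, hj⟩
    rcases j with _ | e <;> simp [hR]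
  have h1 : ∀ᶠ p in 𝓝 ((0, fun _ => 0) : ℝ × (E → ℝ)), ∃ z' ∈ D.V0, (∀ i, z'.v (D.t i) = 0) ∧
      GaussAt (fun j : J => D.xa a0 j.1) (R p) z' := by
    have h2 := hRc.continuousAt (x := ((0, fun _ => 0) : ℝ × (E → ℝ)))
    unfold ContinuousAt at h2
    rw [hR0] at h2
    exact h2.eventually (h.open0 h6 h7 hg hD hγ (hD.nhd z h.mem.1))
  have := Fintype.ofFinite E
  obtain ⟨η, hη, hball⟩ := Metric.eventually_nhds_iff.1 h1
  have hkey : ∀ k : ℕ, ∃ (y : E → ℝ) (z' : Ber K A), (∀ e, |y e| < η / (k + 2)) ∧ z' ∈ D.V0 ∧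
      (∀ i, z'.v (D.t i) = 0) ∧ D.yc z' = y ∧ z'.v a0 = γ0 * Real.exp (η / 2) := by
    intro k
    have hk : (0 : ℝ) < η / (k + 2) := by positivity
    have hk' : η / (k + 2) ≤ η / 2 := by
      gcongr
      linarith [Nat.cast_nonneg (α := ℝ) k]
    obtain ⟨y, hy1, hy2, hy3, hy4⟩ := exists_gen hD.ground hD.loopless (e0 := D.e0) hB
      (Or.inl rfl) hk
    have hdist : dist ((η / 2, y) : ℝ × (E → ℝ)) (0, fun _ => 0) < η := by
      rw [Prod.dist_eq, max_lt_iff]
      constructor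
      · rw [Real.dist_eq, sub_zero, abs_of_pos (by positivity)]
        linarith
      · refine lt_of_le_of_lt ((dist_pi_le_iff (by positivity : (0 : ℝ) ≤ η / 2)).2 fun e => ?_)
          (by linarith)
        rw [Real.dist_eq, sub_zero]
        exact (hy3 e).le.trans hk'
    obtain ⟨z', hz'V, hz't, hz'G⟩ := hball hdist
    refine ⟨y, z', hy3, hz'V, hz't, ?_, ?_⟩
    · refine (hD.berg z' hz'V).eq_of_base hy1 hD.ground hB (fun b hb => ?_) ?_
      · rcases hb with hb | ⟨hb1, hb2⟩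
        · rw [hb, yc_e0 hD, hy2]
        · have h5 := hz'G.v_eq ⟨some ⟨b, hb1⟩, hb2⟩
          apply yc_of_v hD (y := y)
          exact h5
      · have hyc : ∀ b ∈ D.JE J, D.yc z' b = y b := by
          intro b hb
          rcases hb with hb | ⟨hb1, hb2⟩
          · rw [hb, yc_e0 hD, hy2]
          · exact yc_of_v hD (y := y) (hz'G.v_eq ⟨some ⟨b, hb1⟩, hb2⟩)
        intro b hb b' hb' hbb
        rw [hyc b hb, hyc b' hb'] at hbb
        exact hy4 hb hb' hbb
    · have h5 := hz'G.v_eq ⟨none, hn⟩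
      refine Eq.trans h5 ?_
      simp only [hR, xg, Option.elim]
      rw [NNReal.coe_mul, Real.coe_toNNReal _ (Real.exp_pos _).le]
  choose y zs hy hzV hzt hyc ha0 using hkey
  -- a limit point
  set u : Ultrafilter ℕ := Filter.hyperfilter ℕ with hu
  have huf : (u : Filter ℕ) ≤ Filter.atTop := by
    rw [← Nat.cofinite_eq_atTop]
    exact Filter.hyperfilter_le_cofinite
  have h2 : ((u.map zs : Ultrafilter (Ber K A)) : Filter (Ber K A)) ≤ Filter.principal D.V0 := by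
    rw [Filter.le_principal_iff]
    exact Filter.mem_map.2 (Filter.Eventually.of_forall hzV)
  obtain ⟨w, hwV, hw⟩ := hD.comp.ultrafilter_le_nhds (u.map zs) h2
  have hlim : Filter.Tendsto zs u (𝓝 w) := hw
  have hv : ∀ a : A, Filter.Tendsto (fun k => (zs k).v a) u (𝓝 (w.v a)) := fun a =>
    ((Ber.continuous_v a).tendsto w).comp hlim
  have hwt : ∀ i, w.v (D.t i) = 0 := by
    intro i
    refine tendsto_nhds_unique (hv (D.t i)) ?_
    simp only [hzt]
    exact tendsto_const_nhds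
  have hwa : w.v a0 = γ0 * Real.exp (η / 2) := by
    refine tendsto_nhds_unique (hv a0) ?_
    simp only [ha0]
    exact tendsto_const_nhds
  have hwy : ∀ e, D.yc w e = 0 := by
    intro e
    have h3 : Filter.Tendsto (fun k => D.yc (zs k) e) u (𝓝 (D.yc w e)) := by
      have h4 : Filter.Tendsto zs u (𝓝[D.V0] w) :=
        tendsto_nhdsWithin_iff.2 ⟨hlim, Filter.Eventually.of_forall hzV⟩
      exact ((yc_cont hD e) w hwV).tendsto.comp h4
    refine tendsto_nhds_unique h3 ?_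
    have h5 : Filter.Tendsto (fun k => D.yc (zs k) e) Filter.atTop (𝓝 0) := by
      have h6 : Filter.Tendsto (fun k : ℕ => η / ((k : ℝ) + 2)) Filter.atTop (𝓝 0) := by
        apply Filter.Tendsto.div_atTop tendsto_const_nhds
        exact Filter.tendsto_atTop_add_const_right _ _ tendsto_natCast_atTop_atTop
      refine squeeze_zero_norm (fun k => ?_) h6
      rw [hyc k, Real.norm_eq_abs]
      exact (hy k e).le
    exact h5.mono_left huf
  have h8 := hmax w ⟨hwV, hwt, hwy⟩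
  rw [hwa] at h8
  have h9 : (1 : ℝ) < Real.exp (η / 2) := Real.one_lt_exp_iff.2 (by positivity)
  have h10 : (0 : ℝ) < γ0 := by exact_mod_cast hγ
  nlinarith

/-- (ND3) -/
theorem IsMaxG.card_eq (h6 : StmtQ6) (h7 : StmtQ7) (hg : StmtGp) (hD : D.Ok) {a0 : A} {γ0 : ℝ≥0}
    (hγ : 0 < γ0) (hmax : ∀ z ∈ D.Fw, z.v a0 ≤ γ0) {J : Set (Option D.E')} {z : Ber K A}
    (h : D.IsMaxG a0 γ0 J z) {B : Set E} (hB : D.M.IsBase B) (he0 : D.e0 ∈ B) :
    J.ncard = (B \ {D.e0}).ncard ∧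
      Function.Injective (MvPolynomial.aeval (D.tx a0 J) : MvPolynomial (I ⊕ J) K →ₐ[K] A) ∧
      (none ∉ J → D.M.IsBase (D.JE J)) ∧ (none ∈ J → (D.JE J).ncard + 1 = B.ncard) := by
  classical
  have h1 := h.indep h6 h7 hg hD hγ
  obtain ⟨h2, h3⟩ := ncard_indep hB h1
  obtain ⟨h4, h5⟩ := card_le h6 hD hB he0 (D.tx a0 J) z (h.zmp h6 hD hγ)
  have hBc : (B \ {D.e0}).ncard + 1 = B.ncard :=
    Set.ncard_sdiff_singleton_add_one he0 (Set.toFinite _)
  have hσ : Nat.card (I ⊕ J) = Nat.card I + J.ncard := by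
    rw [Nat.card_sum, Nat.card_coe_set_eq]
  rw [hσ] at h4 h5
  have hJ : J.ncard + 1 = (D.JE J).ncard + (if none ∈ J then 1 else 0) := Rk.ncard_JE D J
  have h6' : J.ncard ≤ (B \ {D.e0}).ncard := by
    by_cases hn : none ∈ J
    · have h7' := h.not_base h6 h7 hg hD hγ hmax hn
      rw [if_pos hn] at hJ
      have h8 : (D.JE J).ncard ≠ B.ncard := fun h9 => h7' (h3 h9)
      omega
    · rw [if_neg hn] at hJ
      omega
  have h7' : J.ncard = (B \ {D.e0}).ncard := by omega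
  refine ⟨h7', h5 (by omega), fun hn => h3 ?_, fun hn => ?_⟩
  · rw [if_neg hn] at hJ
    omega
  · rw [if_pos hn] at hJ
    omega

/-- (ND3) openness over `t` and the family `J`. -/
theorem IsMaxG.open1 (h6 : StmtQ6) (h7 : StmtQ7) (hg : StmtGp) (hD : D.Ok) {a0 : A} {γ0 : ℝ≥0}
    (hγ : 0 < γ0) (hmax : ∀ z ∈ D.Fw, z.v a0 ≤ γ0) {J : Set (Option D.E')} {z : Ber K A}
    (h : D.IsMaxG a0 γ0 J z) {V : Set (Ber K A)} (hV : V ∈ 𝓝 z) :
    ∀ᶠ p in 𝓝 (Sum.elim (fun _ => 0) (fun j => D.xg γ0 j.1) : I ⊕ J → ℝ≥0), ∃ z' ∈ V,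
      GaussAt (D.tx a0 J) p z' := by
  obtain ⟨B, hB, he0⟩ := exists_base hD
  obtain ⟨-, hinj, -⟩ := h.card_eq h6 h7 hg hD hγ hmax hB he0
  obtain ⟨g, hg1, hg2⟩ := hg K (I ⊕ J)
  have h1 := h7 K (MvPolynomial (I ⊕ J) K) A (MvPolynomial.aeval (D.tx a0 J)) hinj z
    (h.zmp h6 hD hγ) V hV
  have h2 : GaussAt (D.tx a0 J) (Sum.elim (fun _ => 0) (fun j => D.xg γ0 j.1)) z :=
    h.gauss.sum_zero h.mem.1.2.1
  have h3 : Ber.res (MvPolynomial.aeval (D.tx a0 J)) z =
      g (Sum.elim (fun _ => 0) (fun j => D.xg γ0 j.1)) := by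
    apply Ber.ext_v
    intro P
    rw [hg2 _ P]
    exact h2 P
  rw [h3] at h1
  filter_upwards [hg1.continuousAt.eventually h1] with p hp
  obtain ⟨z', hz'V, hz'g⟩ := hp
  refine ⟨z', hz'V, fun P => ?_⟩
  rw [← hg2 p P, ← hz'g]
  rfl

end NDat

end Pool.Agent.TD
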