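import Pool.Agent.TD.N.Ob

/-! Local data ND0: the maximal point of `F_w` (PAPER2.md, ND5 iii, iv; module TD_N_Z1). -/

open scoped Topology NNReal

namespace Pool.Agent.TD

namespace NDat

variable {K A I E : Type} [NormedField K] [IsUltrametricDist K] [Finite I] [Finite E]
  [CommRing A] [IsDomain A] [Algebra K A] [Algebra.FiniteType K A] {D : NDat K A I E}

/-- Small numbers. -/
theorem Z1.exists_delta {δ0 : ℝ} (h : 0 < δ0) : ∃ δ : ℕ → ℝ, (∀ k, 0 < δ k) ∧ (∀ k, δ k ≤ δ0) ∧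
    Filter.Tendsto δ Filter.atTop (𝓝 0) := by
  refine ⟨fun k => min δ0 (1 / ((k : ℝ) + 1)), fun k => lt_min h Nat.one_div_pos_of_nat,
    fun k => min_le_left _ _, ?_⟩
  refine squeeze_zero (fun k => (lt_min h Nat.one_div_pos_of_nat).le) (fun k => min_le_right _ _) ?_
  exact tendsto_one_div_add_atTop_nhds_zero_nat

/-- Small radii. -/
theorem Z1.exists_radii {I : Type} {δ : ℕ → ℝ} (h : ∀ k, 0 < δ k) : ∃ r : ℕ → I → ℝ≥0,
    (∀ k i, 0 < r k i) ∧ ∀ k i, (r k i : ℝ) < δ k := by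
  refine ⟨fun k _ => (δ k / 2).toNNReal, fun k i => Real.toNNReal_pos.2 (half_pos (h k)),
    fun k i => ?_⟩
  rw [Real.coe_toNNReal _ (half_pos (h k)).le]
  exact half_lt_self (h k)

/-- Pigeonhole principle. -/
theorem Z1.exists_frequently {α : Type} [Finite α] (f : ℕ → α) :
    ∃ a, ∃ᶠ k in Filter.atTop, f k = a := by
  by_contra hcon
  push Not at hcon
  have h2 : ∀ᶠ k in Filter.atTop, ∀ a, f k ≠ a := Filter.eventually_all.2 hcon
  obtain ⟨k, hk⟩ := h2.exists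
  exact hk (f k) rfl

/-- (ND5 iii) two neighbouring bases have a common point. -/
theorem Om_inter (hD : D.Ok) {B : Set E} (hB : D.M.IsBase B) (he0 : D.e0 ∈ B) {b e : E}
    (hb : b ∈ B) (hbe : b ≠ D.e0) (he : e ∉ B) (hB' : D.M.IsBase (insert e (B \ {b}))) :
    (D.Om B ∩ D.Om (insert e (B \ {b}))).Nonempty := by
  have he0' : D.e0 ∈ insert e (B \ {b}) := Set.mem_insert_of_mem _ ⟨he0, fun h => hbe h.symm⟩
  -- the sizes
  obtain ⟨δ, hδ0, hδ1, hδ2⟩ := Z1.exists_delta hD.δpos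
  have hy : ∀ k, ∃ y : E → ℝ, BergM D.M y ∧ y D.e0 = 0 ∧ (∀ e, |y e| < δ k) ∧ Set.InjOn y B ∧
      Set.InjOn y (insert e (B \ {b})) := fun k =>
    exists_gen2 hD.ground hD.loopless hB he0 hb hbe he hB' (hδ0 k)
  choose y hy1 hy2 hy3 hy4 hy5 using hy
  obtain ⟨r, hr0, hr1⟩ := Z1.exists_radii (I := I) hδ0
  have hg : ∀ k, D.Gen (δ k) B (r k) (y k) := fun k => ⟨hr0 k, hr1 k, hy1 k, hy2 k, hy3 k, hy4 k⟩
  have hg' : ∀ k, D.Gen (δ k) (insert e (B \ {b})) (r k) (y k) := fun k =>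
    ⟨hr0 k, hr1 k, hy1 k, hy2 k, hy3 k, hy5 k⟩
  have ht : ∀ k, ∃ z, D.IsTop B (r k) (y k) z := fun k =>
    hD.top B (r k) (y k) hB he0 ((hg k).mono (hδ1 k))
  have ht' : ∀ k, ∃ z, D.IsTop (insert e (B \ {b})) (r k) (y k) z := fun k =>
    hD.top _ (r k) (y k) hB' he0' ((hg' k).mono (hδ1 k))
  choose z hz using ht
  choose z' hz' using ht'
  have hzz : ∀ k, z' k = z k := fun k =>
    le_antisymm ((hz k).max _ (hz' k).mem) ((hz' k).max _ (hz k).mem)
  obtain ⟨z0, -, hz0⟩ := hD.comp.exists_mapClusterPt_of_frequently (l := Filter.atTop) (f := z)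
    (Filter.Frequently.of_forall fun k => (hz k).mem.1)
  refine ⟨z0, ?_, ?_⟩
  · exact cluster_mem_Om hD hB he0 hδ2 hg (fun k => (hz k).mem) (fun k => (hz k).gauss) hz0
  · refine cluster_mem_Om hD hB' he0' hδ2 hg' (z := z) (fun k => ?_) (fun k => ?_) hz0
    · rw [← hzz k]
      exact (hz' k).mem
    · rw [← hzz k]
      exact (hz' k).gauss

/-- The properties of the maximal point of `F_w`. -/
structure IsZ1 (D : NDat K A I E) (z1 : Ber K A) : Prop where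
  mem : ∀ B, D.M.IsBase B → D.e0 ∈ B → D.Om B = {z1}
  max : ∀ z ∈ D.Fw, z ≤ z1
  lim : ∀ U ∈ 𝓝 z1, ∃ δ : ℝ, 0 < δ ∧ ∀ B r y z, D.M.IsBase B → D.e0 ∈ B → D.Gen δ B r y →
    D.IsTop B r y z → z ∈ U

/-- Top points of generic points tending to `0`, for arbitrary bases, have the cluster point
`z1`. -/
theorem Z1.cluster (hD : D.Ok) {z1 : Ber K A}
    (hz1 : ∀ B, D.M.IsBase B → D.e0 ∈ B → D.Om B = {z1}) {δ : ℕ → ℝ}
    (hδ : Filter.Tendsto δ Filter.atTop (𝓝 0)) {B : ℕ → Set E} {r : ℕ → I → ℝ≥0}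
    {y : ℕ → E → ℝ} {z : ℕ → Ber K A} (hB : ∀ k, D.M.IsBase (B k)) (he0 : ∀ k, D.e0 ∈ B k)
    (hg : ∀ k, D.Gen (δ k) (B k) (r k) (y k)) (hz : ∀ k, D.IsTop (B k) (r k) (y k) (z k)) :
    MapClusterPt z1 Filter.atTop z := by
  obtain ⟨B0, hB0⟩ := Z1.exists_frequently B
  obtain ⟨φ, hφ, hφB⟩ := Filter.extraction_of_frequently_atTop hB0
  have hg' : ∀ k, D.Gen (δ (φ k)) B0 (r (φ k)) (y (φ k)) := by
    intro k
    have h := hg (φ k)
    rw [hφB k] at h
    exact h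
  have hz' : ∀ k, D.IsTop B0 (r (φ k)) (y (φ k)) (z (φ k)) := by
    intro k
    have h := hz (φ k)
    rw [hφB k] at h
    exact h
  have hBB : D.M.IsBase B0 := by
    have h := hB (φ 0)
    rw [hφB 0] at h
    exact h
  have hBe : D.e0 ∈ B0 := by
    have h := he0 (φ 0)
    rw [hφB 0] at h
    exact h
  obtain ⟨z0, -, hz0⟩ := hD.comp.exists_mapClusterPt_of_frequently (l := Filter.atTop)
    (f := fun k => z (φ k)) (Filter.Frequently.of_forall fun k => (hz' k).mem.1)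
  have h1 : z0 ∈ D.Om B0 := cluster_mem_Om hD hBB hBe (δ := fun k => δ (φ k))
    (hδ.comp hφ.tendsto_atTop) hg' (fun k => (hz' k).mem) (fun k => (hz' k).gauss) hz0
  rw [hz1 B0 hBB hBe] at h1
  rw [← show z0 = z1 from h1]
  exact MapClusterPt.of_comp hφ.tendsto_atTop hz0

/-- (ND5) -/
theorem exists_z1 (h6 : StmtQ6) (h7 : StmtQ7) (hg : StmtGp) (hD : D.Ok) :
    ∃ z1, IsZ1 D z1 := by
  obtain ⟨B0, hB0, he0⟩ := exists_base hD
  obtain ⟨z1, hz1⟩ := Om_nonempty hD hB0 he0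
  have hmem : ∀ B, D.M.IsBase B → D.e0 ∈ B → D.Om B = {z1} := by
    intro B hB he
    refine base_induction (P := fun B => D.Om B = {z1}) hB0 he0 ?_ ?_ hB he
    · exact Set.Subsingleton.eq_singleton_of_mem (Om_subsingleton h6 h7 hg hD hB0 he0) hz1
    · intro B b e hB he hb hbe heB hB' hP
      obtain ⟨z, hz, hz'⟩ := Om_inter hD hB he hb hbe heB hB'
      have h1 : z = z1 := by
        have h2 : z ∈ ({z1} : Set (Ber K A)) := by rw [← hP]; exact hz
        exact h2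
      rw [h1] at hz'
      exact Set.Subsingleton.eq_singleton_of_mem (Om_subsingleton h6 h7 hg hD hB'
        (Set.mem_insert_of_mem _ ⟨he, fun h => hbe h.symm⟩)) hz'
  refine ⟨z1, hmem, ?_, ?_⟩
  · intro z hz a
    have hs : ∀ k : ℕ, ∃ B r y z', D.M.IsBase B ∧ D.e0 ∈ B ∧ D.Gen (1 / ((k : ℝ) + 1)) B r y ∧
        D.IsTop B r y z' ∧ z.v a - 1 / ((k : ℝ) + 1) < z'.v a := fun k =>
      max_principle h6 h7 hg hD a hz Nat.one_div_pos_of_nat Nat.one_div_pos_of_nat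
    choose B r y z' hB he hgen htop hlt using hs
    have hcl := Z1.cluster hD hmem tendsto_one_div_add_atTop_nhds_zero_nat hB he hgen htop
    by_contra hcon
    push Not at hcon
    have hc : 0 < (z.v a - z1.v a) / 2 := by linarith
    have hU : {w : Ber K A | w.v a < z1.v a + (z.v a - z1.v a) / 2} ∈ 𝓝 z1 := by
      refine (isOpen_lt (Ber.continuous_v a) continuous_const).mem_nhds ?_
      show z1.v a < _
      linarith
    have h1 := hcl.frequently hU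
    have h2 : ∀ᶠ k : ℕ in Filter.atTop, 1 / ((k : ℝ) + 1) < (z.v a - z1.v a) / 2 :=
      tendsto_one_div_add_atTop_nhds_zero_nat.eventually (gt_mem_nhds hc)
    obtain ⟨k, hk1, hk2⟩ := (h1.and_eventually h2).exists
    have hk1' : (z' k).v a < z1.v a + (z.v a - z1.v a) / 2 := hk1
    have := hlt k
    linarith
  · intro U hU
    by_contra hcon
    push Not at hcon
    have hs : ∀ k : ℕ, ∃ B r y z', D.M.IsBase B ∧ D.e0 ∈ B ∧ D.Gen (1 / ((k : ℝ) + 1)) B r y ∧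
        D.IsTop B r y z' ∧ z' ∉ U := fun k => by
      obtain ⟨B, r, y, z', h1, h2, h3, h4, h5⟩ := hcon (1 / ((k : ℝ) + 1)) Nat.one_div_pos_of_nat
      exact ⟨B, r, y, z', h1, h2, h3, h4, h5⟩
    choose B r y z' hB he hgen htop hlt using hs
    have hcl := Z1.cluster hD hmem tendsto_one_div_add_atTop_nhds_zero_nat hB he hgen htop
    obtain ⟨k, hk⟩ := (hcl.frequently hU).exists
    exact hlt k hk

end NDat

end Pool.Agent.TD
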